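import Mathlib

/-!
Weyl equidistribution of `k ↦ c + k α + o(1)` modulo one, for irrational `α`.
-/

namespace Pool.Agent.H56.Equi

open Filter Topology MeasureTheory AddCircle Finset

/-- Cesàro average of `F` along `x`. -/
noncomputable def avg (F : C(UnitAddCircle, ℂ)) (x : ℕ → ℝ) (K : ℕ) : ℂ :=
  (K : ℂ)⁻¹ * ∑ k ∈ range K, F (x k : UnitAddCircle)

lemma avg_add (F G : C(UnitAddCircle, ℂ)) (x : ℕ → ℝ) (K : ℕ) :
    avg (F + G) x K = avg F x K + avg G x K := by
  unfold avg
  simp only [ContinuousMap.add_apply, Finset.sum_add_distrib]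
  ring

lemma avg_smul (a : ℂ) (F : C(UnitAddCircle, ℂ)) (x : ℕ → ℝ) (K : ℕ) :
    avg (a • F) x K = a * avg F x K := by
  unfold avg
  simp only [ContinuousMap.smul_apply, smul_eq_mul, ← Finset.mul_sum]
  ring

lemma avg_sub_norm (F G : C(UnitAddCircle, ℂ)) (x : ℕ → ℝ) (K : ℕ) :
    ‖avg F x K - avg G x K‖ ≤ ‖F - G‖ := by
  unfold avg
  rw [← mul_sub, ← Finset.sum_sub_distrib, norm_mul]
  rcases Nat.eq_zero_or_pos K with rfl | hK
  · simp
  have h1 : ‖∑ k ∈ range K, (F (x k : UnitAddCircle) - G (x k : UnitAddCircle))‖ ≤ K * ‖F - G‖ := by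
    refine (norm_sum_le _ _).trans ?_
    refine (Finset.sum_le_sum (fun k _ => (F - G).norm_coe_le_norm _)).trans ?_
    simp
  have hK' : (0 : ℝ) < K := by exact_mod_cast hK
  calc ‖((K : ℂ))⁻¹‖ * ‖∑ k ∈ range K, (F (x k : UnitAddCircle) - G (x k : UnitAddCircle))‖
      ≤ ‖((K : ℂ))⁻¹‖ * (K * ‖F - G‖) := mul_le_mul_of_nonneg_left h1 (norm_nonneg _)
    _ = ‖F - G‖ := by
      rw [norm_inv, Complex.norm_natCast]
      field_simp

lemma integral_sub_norm (F G : C(UnitAddCircle, ℂ)) :
    ‖(∫ t, F t ∂(haarAddCircle (T := 1))) - ∫ t, G t ∂(haarAddCircle (T := 1))‖ ≤ ‖F - G‖ := by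
  have hF : Integrable F (haarAddCircle (T := 1)) := F.continuous.integrable_of_hasCompactSupport
    (HasCompactSupport.of_compactSpace _)
  have hG : Integrable G (haarAddCircle (T := 1)) := G.continuous.integrable_of_hasCompactSupport
    (HasCompactSupport.of_compactSpace _)
  rw [← integral_sub hF hG]
  have := norm_integral_le_of_norm_le_const (μ := haarAddCircle (T := 1)) (f := fun t => F t - G t)
    (C := ‖F - G‖) (Filter.Eventually.of_forall fun t => (F - G).norm_coe_le_norm t)
  simpa using this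

lemma fourier_pow (n : ℤ) (α c : ℝ) (k : ℕ) :
    fourier n ((c + k * α : ℝ) : UnitAddCircle)
      = fourier n (c : UnitAddCircle) * (fourier n (α : UnitAddCircle)) ^ k := by
  simp only [fourier_coe_apply, Complex.ofReal_one, div_one]
  rw [← Complex.exp_nat_mul, ← Complex.exp_add]
  congr 1
  push_cast
  ring

lemma fourier_ne_one {n : ℤ} (hn : n ≠ 0) {α : ℝ} (hα : Irrational α) :
    fourier n (α : UnitAddCircle) ≠ 1 := by
  intro h
  rw [fourier_coe_apply, Complex.exp_eq_one_iff] at h
  obtain ⟨m, hm⟩ := h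
  have h2 : (2 * Real.pi * Complex.I : ℂ) ≠ 0 := by
    simp [Real.pi_ne_zero]
  have h3 : (n : ℂ) * α = m := by
    have : (2 * Real.pi * Complex.I : ℂ) * ((n : ℂ) * α) = (2 * Real.pi * Complex.I : ℂ) * m := by
      rw [mul_comm _ (m : ℂ), ← hm]
      simp
      ring
    exact mul_left_cancel₀ h2 this
  have h4 : (n : ℝ) * α = m := by exact_mod_cast h3
  apply (hα.intCast_mul hn).ne_int m
  exact h4

lemma tendsto_avg_fourier (n : ℤ) {α : ℝ} (hα : Irrational α) (c : ℝ) :
    Tendsto (avg (fourier n) (fun k => c + k * α)) atTop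
      (𝓝 (∫ t, fourier n t ∂(haarAddCircle (T := 1)))) := by
  by_cases hn : n = 0
  · subst hn
    have h1 : (∫ t, fourier 0 t ∂(haarAddCircle (T := 1))) = 1 := by
      simp
    rw [h1]
    refine tendsto_const_nhds.congr' ?_
    filter_upwards [eventually_gt_atTop 0] with K hK
    unfold avg
    simp only [fourier_zero, Finset.sum_const, Finset.card_range, nsmul_eq_mul, mul_one]
    rw [inv_mul_cancel₀]
    exact_mod_cast hK.ne'
  · have h1 : (∫ t, fourier n t ∂(haarAddCircle (T := 1))) = 0 := by
      have h := integral_eq_zero_of_add_right_eq_neg (μ := haarAddCircle (T := 1))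
        (fourier_add_half_inv_index hn one_pos)
      exact h
    rw [h1, tendsto_zero_iff_norm_tendsto_zero]
    set z := fourier n (α : UnitAddCircle) with hz
    have hz1 : z ≠ 1 := fourier_ne_one hn hα
    have hznorm : ‖z‖ = 1 := Circle.norm_coe _
    have hbound : ∀ K : ℕ, ‖avg (fourier n) (fun k => c + k * α) K‖ ≤ (2 / ‖z - 1‖) * (K : ℝ)⁻¹ := by
      intro K
      unfold avg
      simp only [fourier_pow]
      rw [← Finset.mul_sum, geom_sum_eq hz1, norm_mul, norm_mul, norm_inv, Complex.norm_natCast,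
        norm_div]
      have h3 : ‖fourier n (c : UnitAddCircle)‖ = 1 := Circle.norm_coe _
      rw [h3, one_mul, mul_comm]
      refine mul_le_mul_of_nonneg_right ?_ (by positivity)
      refine div_le_div_of_nonneg_right ?_ (norm_nonneg _)
      refine (norm_sub_le _ _).trans ?_
      rw [norm_pow, hznorm, one_pow, norm_one]
      norm_num
    refine squeeze_zero (fun _ => norm_nonneg _) hbound ?_
    have := (tendsto_inv_atTop_nhds_zero_nat (𝕜 := ℝ)).const_mul (2 / ‖z - 1‖)
    simpa using this

lemma tendsto_avg_exact {α : ℝ} (hα : Irrational α) (c : ℝ) (F : C(UnitAddCircle, ℂ)) :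
    Tendsto (avg F (fun k => c + k * α)) atTop (𝓝 (∫ t, F t ∂(haarAddCircle (T := 1)))) := by
  -- the span
  have hspan : ∀ G ∈ Submodule.span ℂ (Set.range (fourier (T := 1))),
      Tendsto (avg G (fun k => c + k * α)) atTop (𝓝 (∫ t, G t ∂(haarAddCircle (T := 1)))) := by
    intro G hG
    induction hG using Submodule.span_induction with
    | mem G hG =>
      obtain ⟨n, rfl⟩ := hG
      exact tendsto_avg_fourier n hα c
    | zero =>
      have e0 : (∫ t, (0 : C(UnitAddCircle, ℂ)) t ∂(haarAddCircle (T := 1))) = 0 := by simp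
      rw [e0]
      refine tendsto_const_nhds.congr (fun K => ?_)
      unfold avg
      simp
    | add G H _ _ hG hH =>
      have iG : Integrable G (haarAddCircle (T := 1)) := G.continuous.integrable_of_hasCompactSupport
        (HasCompactSupport.of_compactSpace _)
      have iH : Integrable H (haarAddCircle (T := 1)) := H.continuous.integrable_of_hasCompactSupport
        (HasCompactSupport.of_compactSpace _)
      have e1 : (∫ t, (G + H) t ∂(haarAddCircle (T := 1)))
          = (∫ t, G t ∂(haarAddCircle (T := 1))) + ∫ t, H t ∂(haarAddCircle (T := 1)) := by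
        simp only [ContinuousMap.add_apply]
        exact integral_add iG iH
      rw [e1]
      exact (hG.add hH).congr fun K => (avg_add G H _ K).symm
    | smul a G _ hG =>
      have e1 : (∫ t, (a • G) t ∂(haarAddCircle (T := 1)))
          = a * (∫ t, G t ∂(haarAddCircle (T := 1))) := by
        simp only [ContinuousMap.smul_apply, smul_eq_mul]
        exact integral_const_mul _ _
      rw [e1]
      exact (hG.const_mul a).congr fun K => (avg_smul a G _ K).symm
  have hF : F ∈ closure (Submodule.span ℂ (Set.range (fourier (T := 1))) : Set C(UnitAddCircle, ℂ)) := by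
    rw [← Submodule.topologicalClosure_coe]
    have := span_fourier_closure_eq_top (T := 1)
    rw [this]
    trivial
  rw [Metric.tendsto_atTop]
  intro ε hε
  obtain ⟨G, hG, hFG⟩ := Metric.mem_closure_iff.mp hF (ε / 3) (by positivity)
  obtain ⟨N, hN⟩ := Metric.tendsto_atTop.mp (hspan G hG) (ε / 3) (by positivity)
  refine ⟨N, fun K hK => ?_⟩
  have h1 := hN K hK
  have h2 := avg_sub_norm F G (fun k => c + k * α) K
  have h3 := integral_sub_norm F G
  rw [dist_eq_norm] at h1 hFG ⊢
  have h4 : avg F (fun k => c + k * α) K - ∫ t, F t ∂(haarAddCircle (T := 1))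
      = (avg F (fun k => c + k * α) K - avg G (fun k => c + k * α) K)
        + (avg G (fun k => c + k * α) K - ∫ t, G t ∂(haarAddCircle (T := 1)))
        - ((∫ t, F t ∂(haarAddCircle (T := 1))) - ∫ t, G t ∂(haarAddCircle (T := 1))) := by ring
  rw [h4]
  refine (norm_sub_le _ _).trans_lt ?_
  have := norm_add_le (avg F (fun k => c + k * α) K - avg G (fun k => c + k * α) K)
    (avg G (fun k => c + k * α) K - ∫ t, G t ∂(haarAddCircle (T := 1)))
  linarith

/-- equidistribution against continuous functions, with a vanishing perturbation -/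
theorem tendsto_avg {α : ℝ} (hα : Irrational α) (c : ℝ) {x : ℕ → ℝ}
    (hx : Tendsto (fun k => x k - k * α) atTop (𝓝 c)) (F : C(UnitAddCircle, ℂ)) :
    Tendsto (avg F x) atTop (𝓝 (∫ t, F t ∂(haarAddCircle (T := 1)))) := by
  have h1 := tendsto_avg_exact hα c F
  have huc : UniformContinuous F := CompactSpace.uniformContinuous_of_continuous F.continuous
  have h2 : Tendsto (fun k => F (x k : UnitAddCircle) - F ((c + k * α : ℝ) : UnitAddCircle)) atTop (𝓝 0) := by
    rw [Metric.tendsto_atTop]
    intro ε hε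
    obtain ⟨δ, hδ, H⟩ := Metric.uniformContinuous_iff.mp huc ε hε
    obtain ⟨N, hN⟩ := Metric.tendsto_atTop.mp hx δ hδ
    refine ⟨N, fun k hk => ?_⟩
    rw [dist_zero_right, ← dist_eq_norm]
    apply H
    rw [dist_eq_norm, ← AddCircle.coe_sub]
    have h3 := hN k hk
    rw [Real.dist_eq] at h3
    refine lt_of_le_of_lt ?_ h3
    have h4 : ‖((x k - (c + k * α) : ℝ) : UnitAddCircle)‖ ≤ |x k - (c + k * α)| := by
      rw [UnitAddCircle.norm_eq]
      have := round_le (x k - (c + k * α)) 0
      simpa using this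
    refine h4.trans (le_of_eq ?_)
    congr 1
    ring
  have h3 := h2.cesaro_smul
  have h4 := h1.add h3
  rw [add_zero] at h4
  refine h4.congr fun K => ?_
  unfold avg
  rw [Finset.sum_sub_distrib, Complex.real_smul]
  push_cast
  ring

/-- frequency of visits of `x` (mod 1) to the interval `[a, b)` -/
noncomputable def freq (x : ℕ → ℝ) (a b : ℝ) (K : ℕ) : ℝ :=
  (#{k ∈ range K | a ≤ Int.fract (x k) ∧ Int.fract (x k) < b} : ℝ) / K

/-- trapezoid function of height one on the ball of radius `r` around `m`, supported on the ball of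
radius `r + δ`. -/
noncomputable def trap (m r δ : ℝ) (t : UnitAddCircle) : ℝ :=
  max 0 (min 1 ((r + δ - ‖t - (m : UnitAddCircle)‖) / δ))

lemma trap_cont (m r δ : ℝ) : Continuous (trap m r δ) := by
  unfold trap
  fun_prop

lemma trap_nonneg (m r δ : ℝ) (t : UnitAddCircle) : 0 ≤ trap m r δ t := le_max_left _ _

lemma trap_le_one (m r δ : ℝ) (t : UnitAddCircle) : trap m r δ t ≤ 1 :=
  max_le zero_le_one (min_le_left _ _)

lemma trap_eq_one {m r δ : ℝ} (hδ : 0 < δ) {t : UnitAddCircle} (h : ‖t - (m : UnitAddCircle)‖ ≤ r) :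
    trap m r δ t = 1 := by
  unfold trap
  have : 1 ≤ (r + δ - ‖t - (m : UnitAddCircle)‖) / δ := by
    rw [le_div_iff₀ hδ]; linarith
  rw [min_eq_left this, max_eq_right zero_le_one]

lemma trap_eq_zero {m r δ : ℝ} (hδ : 0 < δ) {t : UnitAddCircle} (h : r + δ ≤ ‖t - (m : UnitAddCircle)‖) :
    trap m r δ t = 0 := by
  unfold trap
  have : (r + δ - ‖t - (m : UnitAddCircle)‖) / δ ≤ 0 := by
    apply div_nonpos_of_nonpos_of_nonneg _ hδ.le
    linarith
  rw [max_eq_left]
  exact (min_le_right _ _).trans this

/-- the trapezoid as a continuous complex function -/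
noncomputable def trapC (m r δ : ℝ) : C(UnitAddCircle, ℂ) :=
  ⟨fun t => (trap m r δ t : ℂ), Complex.continuous_ofReal.comp (trap_cont m r δ)⟩

lemma integral_trap_le {m r δ : ℝ} (hδ : 0 < δ) (hr : 0 ≤ r) :
    ∫ t, trap m r δ t ∂(haarAddCircle (T := 1)) ≤ 2 * (r + δ) := by
  have hint : Integrable (trap m r δ) (haarAddCircle (T := 1)) :=
    (trap_cont m r δ).integrable_of_hasCompactSupport (HasCompactSupport.of_compactSpace _)
  have h1 : ∫ t, trap m r δ t ∂(haarAddCircle (T := 1))
      ≤ ∫ t, (Metric.closedBall (m : UnitAddCircle) (r + δ)).indicator (fun _ => (1 : ℝ)) t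
          ∂(haarAddCircle (T := 1)) := by
    refine integral_mono hint ?_ ?_
    · exact (integrable_const _).indicator Metric.isClosed_closedBall.measurableSet
    · intro t
      by_cases ht : t ∈ Metric.closedBall (m : UnitAddCircle) (r + δ)
      · simp only [Set.indicator_of_mem ht]
        exact trap_le_one _ _ _ _
      · simp only [Set.indicator_of_notMem ht]
        rw [Metric.mem_closedBall, dist_eq_norm, not_le] at ht
        exact (trap_eq_zero hδ ht.le).le
  refine h1.trans ?_
  rw [integral_indicator Metric.isClosed_closedBall.measurableSet]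
  simp only [integral_const, MeasurableSet.univ, smul_eq_mul, mul_one, measureReal_restrict_apply,
    Set.univ_inter]
  have h2 : (haarAddCircle (T := 1)) (Metric.closedBall (m : UnitAddCircle) (r + δ))
      = ENNReal.ofReal (min 1 (2 * (r + δ))) := by
    have e := volume_eq_smul_haarAddCircle (T := 1)
    rw [ENNReal.ofReal_one, one_smul] at e
    rw [← e]
    exact AddCircle.volume_closedBall (T := 1) (r + δ)
  rw [Measure.real, h2, ENNReal.toReal_ofReal (by positivity)]
  exact min_le_right _ _

lemma le_integral_trap {m r δ : ℝ} (hδ : 0 < δ) (hr : 0 ≤ r) (hr1 : r ≤ 1 / 2) :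
    2 * r ≤ ∫ t, trap m r δ t ∂(haarAddCircle (T := 1)) := by
  have hint : Integrable (trap m r δ) (haarAddCircle (T := 1)) :=
    (trap_cont m r δ).integrable_of_hasCompactSupport (HasCompactSupport.of_compactSpace _)
  have h1 : ∫ t, (Metric.closedBall (m : UnitAddCircle) r).indicator (fun _ => (1 : ℝ)) t
          ∂(haarAddCircle (T := 1)) ≤ ∫ t, trap m r δ t ∂(haarAddCircle (T := 1)) := by
    refine integral_mono ?_ hint ?_
    · exact (integrable_const _).indicator Metric.isClosed_closedBall.measurableSet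
    · intro t
      by_cases ht : t ∈ Metric.closedBall (m : UnitAddCircle) r
      · simp only [Set.indicator_of_mem ht]
        rw [Metric.mem_closedBall, dist_eq_norm] at ht
        exact (trap_eq_one hδ ht).ge
      · simp only [Set.indicator_of_notMem ht]
        exact trap_nonneg _ _ _ _
  refine le_trans ?_ h1
  rw [integral_indicator Metric.isClosed_closedBall.measurableSet]
  simp only [integral_const, MeasurableSet.univ, smul_eq_mul, mul_one, measureReal_restrict_apply,
    Set.univ_inter]
  have h2 : (haarAddCircle (T := 1)) (Metric.closedBall (m : UnitAddCircle) r)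
      = ENNReal.ofReal (min 1 (2 * r)) := by
    have e := volume_eq_smul_haarAddCircle (T := 1)
    rw [ENNReal.ofReal_one, one_smul] at e
    rw [← e]
    exact AddCircle.volume_closedBall (T := 1) r
  rw [Measure.real, h2, ENNReal.toReal_ofReal (by positivity), min_eq_right (by linarith)]

lemma tendsto_avg_trap {α : ℝ} (hα : Irrational α) (c : ℝ) {x : ℕ → ℝ}
    (hx : Tendsto (fun k => x k - k * α) atTop (𝓝 c)) (m r δ : ℝ) :
    Tendsto (fun K : ℕ => (K : ℝ)⁻¹ * ∑ k ∈ range K, trap m r δ (x k : UnitAddCircle)) atTop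
      (𝓝 (∫ t, trap m r δ t ∂(haarAddCircle (T := 1)))) := by
  have h := tendsto_avg hα c hx (trapC m r δ)
  have h2 := (Complex.continuous_re.tendsto _).comp h
  have e1 : (∫ t, (trapC m r δ) t ∂(haarAddCircle (T := 1))).re
      = ∫ t, trap m r δ t ∂(haarAddCircle (T := 1)) := by
    have : (∫ t, (trapC m r δ) t ∂(haarAddCircle (T := 1)))
        = ((∫ t, trap m r δ t ∂(haarAddCircle (T := 1)) : ℝ) : ℂ) := by
      unfold trapC
      simp only [ContinuousMap.coe_mk]
      exact integral_ofReal
    rw [this, Complex.ofReal_re]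
  rw [e1] at h2
  refine h2.congr fun K => ?_
  simp only [Function.comp, avg, trapC, ContinuousMap.coe_mk]
  rw [← Complex.ofReal_sum, ← Complex.ofReal_natCast, ← Complex.ofReal_inv, ← Complex.ofReal_mul,
    Complex.ofReal_re]

/-- **Weyl equidistribution** with a vanishing perturbation. -/
theorem tendsto_freq {α : ℝ} (hα : Irrational α) (c : ℝ) {x : ℕ → ℝ}
    (hx : Tendsto (fun k => x k - k * α) atTop (𝓝 c)) {a b : ℝ} (ha : 0 ≤ a) (hab : a ≤ b)
    (hb : b ≤ 1) : Tendsto (freq x a b) atTop (𝓝 (b - a)) := by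
  set m : ℝ := (a + b) / 2 with hm
  set r : ℝ := (b - a) / 2 with hr
  have hr0 : 0 ≤ r := by rw [hr]; linarith
  have hr1 : r ≤ 1 / 2 := by rw [hr]; linarith
  -- upper comparison
  have up : ∀ δ : ℝ, 0 < δ → ∀ K : ℕ, freq x a b K
      ≤ (K : ℝ)⁻¹ * ∑ k ∈ range K, trap m r δ (x k : UnitAddCircle) := by
    intro δ hδ K
    unfold freq
    rw [div_eq_inv_mul]
    refine mul_le_mul_of_nonneg_left ?_ (by positivity)
    rw [Finset.card_filter]
    push_cast
    refine Finset.sum_le_sum fun k _ => ?_
    split_ifs with h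
    · refine (trap_eq_one hδ ?_).ge
      rw [← AddCircle.coe_sub, UnitAddCircle.norm_eq]
      have h1 := round_le (x k - m) ⌊x k⌋
      refine h1.trans ?_
      have h2 : x k - m - ⌊x k⌋ = Int.fract (x k) - m := by
        rw [Int.fract]; ring
      rw [h2, abs_le]
      constructor <;> rw [hr, hm] <;> linarith [h.1, h.2]
    · exact trap_nonneg _ _ _ _
  -- lower comparison
  have lo : ∀ δ : ℝ, 0 < δ → ∀ K : ℕ, (K : ℝ)⁻¹ * ∑ k ∈ range K, trap m (r - δ) δ (x k : UnitAddCircle)
      ≤ freq x a b K := by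
    intro δ hδ K
    unfold freq
    rw [div_eq_inv_mul]
    refine mul_le_mul_of_nonneg_left ?_ (by positivity)
    rw [Finset.card_filter]
    push_cast
    refine Finset.sum_le_sum fun k _ => ?_
    split_ifs with h
    · exact trap_le_one _ _ _ _
    · refine (trap_eq_zero hδ ?_).le
      rw [sub_add_cancel]
      by_contra hcon
      push Not at hcon
      rw [← AddCircle.coe_sub, UnitAddCircle.norm_eq] at hcon
      apply h
      set n := round (x k - m) with hn
      rw [abs_lt] at hcon
      obtain ⟨hc1, hc2⟩ := hcon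
      have h1 : a < x k - n := by linarith
      have h2 : x k - n < b := by linarith
      have h3 : ⌊x k⌋ = n := by
        rw [Int.floor_eq_iff]
        constructor <;> linarith
      rw [Int.fract, h3]
      exact ⟨h1.le, h2⟩
  rw [Metric.tendsto_atTop]
  intro ε hε
  have hδ : 0 < ε / 8 := by positivity
  obtain ⟨N1, hN1⟩ := Metric.tendsto_atTop.mp (tendsto_avg_trap hα c hx m r (ε / 8)) (ε / 4)
    (by positivity)
  obtain ⟨N2, hN2⟩ := Metric.tendsto_atTop.mp (tendsto_avg_trap hα c hx m (r - ε / 8) (ε / 8)) (ε / 4)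
    (by positivity)
  refine ⟨max N1 N2, fun K hK => ?_⟩
  have h1 := hN1 K ((le_max_left _ _).trans hK)
  have h2 := hN2 K ((le_max_right _ _).trans hK)
  rw [Real.dist_eq, abs_lt] at h1 h2 ⊢
  have h3 := integral_trap_le (m := m) hδ hr0
  have hbr : b - a = 2 * r := by rw [hr]; ring
  constructor
  · have h5 := lo (ε / 8) hδ K
    rcases le_or_gt (ε / 8) r with h | h
    · have h4 := le_integral_trap (m := m) (δ := ε / 8) hδ (by linarith : 0 ≤ r - ε / 8) (by linarith)
      linarith [h2.1]
    · have h6 : 0 ≤ freq x a b K := div_nonneg (Nat.cast_nonneg _) (Nat.cast_nonneg _)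
      linarith
  · have h5 := up (ε / 8) hδ K
    linarith [h1.2]

end Pool.Agent.H56.Equi
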