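import Mathlib

/-!
The iterated blow-up of the directed 4-cycle has at least `n^3 / 15 - C n^2` induced directed
2-edge paths.
-/

set_option autoImplicit false

namespace Pool.Agent.H56.C4

/-- The iterated blow-up of the directed 4-cycle on the natural numbers, by base 4 digits. -/
def R (i j : ℕ) : Bool :=
  if h : i = j then false else
    if i % 4 = j % 4 then R (i / 4) (j / 4) else decide (j % 4 = (i % 4 + 1) % 4)
termination_by i + j
decreasing_by omega

lemma R_self (i : ℕ) : R i i = false := by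
  rw [R]; simp

lemma R_same (i j : ℕ) (h : i % 4 = j % 4) : R i j = R (i / 4) (j / 4) := by
  by_cases hij : i = j
  · subst hij; rw [R_self, R_self]
  · rw [R]; simp [hij, h]

lemma R_diff (i j : ℕ) (h : i % 4 ≠ j % 4) : R i j = decide (j % 4 = (i % 4 + 1) % 4) := by
  have hij : i ≠ j := by rintro rfl; exact h rfl
  rw [R]; simp [hij, h]

lemma R_asymm (i j : ℕ) : ¬ (R i j = true ∧ R j i = true) := by
  induction hn : i + j using Nat.strong_induction_on generalizing i j with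
  | _ n ih =>
    by_cases hij : i = j
    · subst hij; simp [R_self]
    · by_cases h : i % 4 = j % 4
      · rw [R_same i j h, R_same j i h.symm]
        exact ih (i / 4 + j / 4) (by omega) _ _ rfl
      · rw [R_diff i j h, R_diff j i (Ne.symm h)]
        simp only [decide_eq_true_eq]
        omega

/-- induced directed paths -/
def IsPath (x y z : ℕ) : Prop :=
  R x y = true ∧ R y z = true ∧ R x z = false ∧ R z x = false ∧ x ≠ z

lemma isPath_sub (a x y z : ℕ) (ha : a < 4) (h : IsPath x y z) :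
    IsPath (4 * x + a) (4 * y + a) (4 * z + a) := by
  obtain ⟨h1, h2, h3, h4, h5⟩ := h
  have e : ∀ u v : ℕ, R (4 * u + a) (4 * v + a) = R u v := by
    intro u v
    rw [R_same _ _ (by omega)]
    congr 1 <;> omega
  refine ⟨?_, ?_, ?_, ?_, by omega⟩ <;> rw [e] <;> assumption

lemma isPath_cyc (a x y z : ℕ) :
    IsPath (4 * x + a) (4 * y + (a + 1) % 4) (4 * z + (a + 2) % 4) := by
  refine ⟨?_, ?_, ?_, ?_, by omega⟩
  · rw [R_diff _ _ (by omega)]; simp only [decide_eq_true_eq]; omega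
  · rw [R_diff _ _ (by omega)]; simp only [decide_eq_true_eq]; omega
  · rw [R_diff _ _ (by omega)]; simp only [decide_eq_false_iff_not]; omega
  · rw [R_diff _ _ (by omega)]; simp only [decide_eq_false_iff_not]; omega

open Classical in
/-- the set of induced directed paths on `{0, …, n-1}` -/
noncomputable def S (n : ℕ) : Finset (Fin n × Fin n × Fin n) :=
  Finset.univ.filter fun t => IsPath t.1 t.2.1 t.2.2

lemma mem_S (n : ℕ) (t : Fin n × Fin n × Fin n) :
    t ∈ S n ↔ t ∈ (Finset.univ : Finset (Fin n × Fin n × Fin n)) ∧ IsPath t.1 t.2.1 t.2.2 := by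
  classical
  unfold S
  simp

/-- size of the residue class `a` -/
def m (n a : ℕ) : ℕ := (n + 3 - a) / 4

lemma lt_of_m {n a u : ℕ} (hu : u < m n a) : 4 * u + a < n := by
  unfold m at hu; omega

/-- the embedding of the residue class -/
def emb (n a : ℕ) (u : Fin (m n a)) : Fin n := ⟨4 * u + a, lt_of_m u.2⟩

lemma emb_val (n a : ℕ) (u : Fin (m n a)) : ((emb n a u : Fin n) : ℕ) = 4 * u + a :=
  rfl

lemma card_ge (n : ℕ) :
    ∑ a : Fin 4, ((S (m n a)).card + m n a * m n ((a + 1) % 4) * m n ((a + 2) % 4)) ≤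
      (S n).card := by
  classical
  -- disjoint union
  let T : Type := Σ a : Fin 4, ({t // t ∈ S (m n a)} ⊕
    (Fin (m n a) × Fin (m n ((a + 1) % 4)) × Fin (m n ((a + 2) % 4))))
  have hT : Fintype.card T =
      ∑ a : Fin 4, ((S (m n a)).card + m n a * m n ((a + 1) % 4) * m n ((a + 2) % 4)) := by
    rw [Fintype.card_sigma]
    refine Finset.sum_congr rfl fun a _ => ?_
    rw [Fintype.card_sum, Fintype.card_coe, Fintype.card_prod, Fintype.card_prod]
    simp only [Fintype.card_fin]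
    ring
  rw [← hT]
  let f : T → Fin n × Fin n × Fin n := fun p =>
    match p with
    | ⟨a, Sum.inl t⟩ => (emb n a t.1.1, emb n a t.1.2.1, emb n a t.1.2.2)
    | ⟨a, Sum.inr t⟩ => (emb n a t.1, emb n _ t.2.1,
        emb n _ t.2.2)
  have hf : Function.Injective f := by
    rintro ⟨a, s⟩ ⟨b, t⟩ hst
    have h1 : (f ⟨a, s⟩).1.val = (f ⟨b, t⟩).1.val := by rw [hst]
    have h2 : (f ⟨a, s⟩).2.1.val = (f ⟨b, t⟩).2.1.val := by rw [hst]
    have h3 : (f ⟨a, s⟩).2.2.val = (f ⟨b, t⟩).2.2.val := by rw [hst]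
    have ha := a.2
    have hb := b.2
    rcases s with s | s <;> rcases t with t | t <;>
      simp only [f, emb_val] at h1 h2 h3
    · have hab : a = b := Fin.ext (by omega)
      subst hab
      have e1 : s.1.1 = t.1.1 := Fin.ext (by omega)
      have e2 : s.1.2.1 = t.1.2.1 := Fin.ext (by omega)
      have e3 : s.1.2.2 = t.1.2.2 := Fin.ext (by omega)
      have : s = t := Subtype.ext (Prod.ext e1 (Prod.ext e2 e3))
      rw [this]
    · exfalso; omega
    · exfalso; omega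
    · have hab : a = b := Fin.ext (by omega)
      subst hab
      have e1 : s.1 = t.1 := Fin.ext (by omega)
      have e2 : s.2.1 = t.2.1 := Fin.ext (by omega)
      have e3 : s.2.2 = t.2.2 := Fin.ext (by omega)
      have : s = t := Prod.ext e1 (Prod.ext e2 e3)
      rw [this]
  have hmem : ∀ p : T, f p ∈ S n := by
    rintro ⟨a, s⟩
    rcases s with s | s
    · simp only [f, S, Finset.mem_filter, Finset.mem_univ, true_and, emb_val]
      exact isPath_sub _ _ _ _ a.2 (Finset.mem_filter.mp s.2).2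
    · simp only [f, S, Finset.mem_filter, Finset.mem_univ, true_and, emb_val]
      exact isPath_cyc _ _ _ _
  calc Fintype.card T = (Finset.univ.image f).card := by
        rw [Finset.card_image_of_injective _ hf, Finset.card_univ]
    _ ≤ (S n).card := Finset.card_le_card (by
        intro x hx
        obtain ⟨p, _, rfl⟩ := Finset.mem_image.mp hx
        exact hmem p)

lemma ineq_aux (q d0 d1 d2 d3 : ℝ) (hq : 1 ≤ q) (hs : d0 + d1 + d2 + d3 = 0)
    (h0 : |d0| ≤ 1) (h1 : |d1| ≤ 1) (h2 : |d2| ≤ 1) (h3 : |d3| ≤ 1) :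
    (4 * q) ^ 3 / 15 - 4 * (4 * q) ^ 2 ≤
      (((q + d0) ^ 3 / 15 - 4 * (q + d0) ^ 2) + (q + d0) * (q + d1) * (q + d2)) +
      (((q + d1) ^ 3 / 15 - 4 * (q + d1) ^ 2) + (q + d1) * (q + d2) * (q + d3)) +
      (((q + d2) ^ 3 / 15 - 4 * (q + d2) ^ 2) + (q + d2) * (q + d3) * (q + d0)) +
      (((q + d3) ^ 3 / 15 - 4 * (q + d3) ^ 2) + (q + d3) * (q + d0) * (q + d1)) := by
  have prod2 : ∀ x y : ℝ, |x| ≤ 1 → |y| ≤ 1 → |x * y| ≤ 1 := by
    intro x y hx hy
    rw [abs_mul]
    exact mul_le_one₀ hx (abs_nonneg _) hy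
  have key : ∀ x y : ℝ, |x| ≤ 1 → |y| ≤ 1 → -q ≤ q * (x * y) := by
    intro x y hx hy
    have := (abs_le.mp (prod2 x y hx hy)).1
    nlinarith
  have prod3 : ∀ x y z : ℝ, |x| ≤ 1 → |y| ≤ 1 → |z| ≤ 1 → -1 ≤ x * y * z := by
    intro x y z hx hy hz
    exact (abs_le.mp (prod2 (x * y) z (prod2 x y hx hy) hz)).1
  have sq : ∀ x : ℝ, |x| ≤ 1 → x * x ≤ 1 := by
    intro x hx
    exact (abs_le.mp (prod2 x x hx hx)).2
  have a01 := key d0 d1 h0 h1
  have a02 := key d0 d2 h0 h2
  have a03 := key d0 d3 h0 h3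
  have a12 := key d1 d2 h1 h2
  have a13 := key d1 d3 h1 h3
  have a23 := key d2 d3 h2 h3
  have b012 := prod3 d0 d1 d2 h0 h1 h2
  have b123 := prod3 d1 d2 d3 h1 h2 h3
  have b230 := prod3 d2 d3 d0 h2 h3 h0
  have b301 := prod3 d3 d0 d1 h3 h0 h1
  have c0 := prod3 d0 d0 d0 h0 h0 h0
  have c1 := prod3 d1 d1 d1 h1 h1 h1
  have c2 := prod3 d2 d2 d2 h2 h2 h2
  have c3 := prod3 d3 d3 d3 h3 h3 h3
  have s0 := sq d0 h0
  have s1 := sq d1 h1
  have s2 := sq d2 h2
  have s3 := sq d3 h3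
  have t0 : 0 ≤ q * (d0 * d0) := mul_nonneg (by linarith) (mul_self_nonneg _)
  have t1 : 0 ≤ q * (d1 * d1) := mul_nonneg (by linarith) (mul_self_nonneg _)
  have t2 : 0 ≤ q * (d2 * d2) := mul_nonneg (by linarith) (mul_self_nonneg _)
  have t3 : 0 ≤ q * (d3 * d3) := mul_nonneg (by linarith) (mul_self_nonneg _)
  have hqq : q ≤ q * q := by nlinarith
  have main : (((q + d0) ^ 3 / 15 - 4 * (q + d0) ^ 2) + (q + d0) * (q + d1) * (q + d2)) +
      (((q + d1) ^ 3 / 15 - 4 * (q + d1) ^ 2) + (q + d1) * (q + d2) * (q + d3)) +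
      (((q + d2) ^ 3 / 15 - 4 * (q + d2) ^ 2) + (q + d2) * (q + d3) * (q + d0)) +
      (((q + d3) ^ 3 / 15 - 4 * (q + d3) ^ 2) + (q + d3) * (q + d0) * (q + d1)) -
      ((4 * q) ^ 3 / 15 - 4 * (4 * q) ^ 2) =
      48 * (q * q) + (q * (d0 * d0) + q * (d1 * d1) + q * (d2 * d2) + q * (d3 * d3)) / 5 +
      (d0 * d0 * d0 + d1 * d1 * d1 + d2 * d2 * d2 + d3 * d3 * d3) / 15 -
      4 * (d0 * d0 + d1 * d1 + d2 * d2 + d3 * d3) +
      2 * (q * (d0 * d1) + q * (d0 * d2) + q * (d0 * d3) + q * (d1 * d2) + q * (d1 * d3) +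
        q * (d2 * d3)) +
      (d0 * d1 * d2 + d1 * d2 * d3 + d2 * d3 * d0 + d3 * d0 * d1) := by
    linear_combination (q ^ 2 / 5 - 8 * q + 3 * q ^ 2) * hs
  linarith

lemma S_ge (n : ℕ) : (n : ℝ) ^ 3 / 15 - 4 * (n : ℝ) ^ 2 ≤ ((S n).card : ℝ) := by
  induction n using Nat.strong_induction_on with
  | _ n ih =>
    by_cases hn : n < 4
    · have h1 : (n : ℝ) ≤ 4 := by exact_mod_cast hn.le
      have h0 : (0 : ℝ) ≤ n := Nat.cast_nonneg n
      have h2 : (0 : ℝ) ≤ ((S n).card : ℝ) := Nat.cast_nonneg _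
      have h3 : (n : ℝ) ^ 3 / 15 - 4 * (n : ℝ) ^ 2 ≤ 0 := by
        have : (n : ℝ) ^ 3 ≤ 4 * (n : ℝ) ^ 2 := by nlinarith [sq_nonneg (n : ℝ)]
        nlinarith [sq_nonneg (n : ℝ)]
      linarith
    · have hcard := card_ge n
      rw [Fin.sum_univ_four] at hcard
      have hm0 : m n 0 < n := by unfold m; omega
      have hm1 : m n 1 < n := by unfold m; omega
      have hm2 : m n 2 < n := by unfold m; omega
      have hm3 : m n 3 < n := by unfold m; omega
      have i0 := ih _ hm0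
      have i1 := ih _ hm1
      have i2 := ih _ hm2
      have i3 := ih _ hm3
      have hcard' : ((S (m n 0)).card : ℝ) + m n 0 * m n 1 * m n 2 +
          ((S (m n 1)).card + m n 1 * m n 2 * m n 3) +
          ((S (m n 2)).card + m n 2 * m n 3 * m n 0) +
          ((S (m n 3)).card + m n 3 * m n 0 * m n 1) ≤ ((S n).card : ℝ) := by
        have : ((S (m n 0)).card + m n 0 * m n 1 * m n 2 +
          ((S (m n 1)).card + m n 1 * m n 2 * m n 3) +
          ((S (m n 2)).card + m n 2 * m n 3 * m n 0) +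
          ((S (m n 3)).card + m n 3 * m n 0 * m n 1)) ≤ (S n).card := hcard
        exact_mod_cast this
      have hsum : m n 0 + m n 1 + m n 2 + m n 3 = n := by unfold m; omega
      have hsumR : (m n 0 : ℝ) + m n 1 + m n 2 + m n 3 = n := by exact_mod_cast hsum
      have bd : ∀ a < 4, |(m n a : ℝ) - (n : ℝ) / 4| ≤ 1 := by
        intro a ha
        have u1 : 4 * m n a ≤ n + 3 := by unfold m; omega
        have u2 : n ≤ 4 * m n a + 3 := by unfold m; omega
        have v1 : 4 * (m n a : ℝ) ≤ n + 3 := by exact_mod_cast u1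
        have v2 : (n : ℝ) ≤ 4 * (m n a : ℝ) + 3 := by exact_mod_cast u2
        rw [abs_le]; constructor <;> linarith
      have hq : (1 : ℝ) ≤ (n : ℝ) / 4 := by
        have : (4 : ℝ) ≤ n := by exact_mod_cast (not_lt.mp hn)
        linarith
      have := ineq_aux ((n : ℝ) / 4) ((m n 0 : ℝ) - (n : ℝ) / 4) ((m n 1 : ℝ) - (n : ℝ) / 4)
        ((m n 2 : ℝ) - (n : ℝ) / 4) ((m n 3 : ℝ) - (n : ℝ) / 4) hq (by linarith)
        (bd 0 (by norm_num)) (bd 1 (by norm_num)) (bd 2 (by norm_num)) (bd 3 (by norm_num))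
      have e : ∀ x : ℝ, (n : ℝ) / 4 + (x - (n : ℝ) / 4) = x := fun x => by ring
      have e' : 4 * ((n : ℝ) / 4) = n := by ring
      rw [e', e, e, e, e] at this
      linarith

/-- The lower bound of S08607, in the exact shape of its second conjunct, with `C = 4`. -/
theorem lower (C : ℝ) (hC : 4 ≤ C) (n : ℕ) : ∃ r : Fin n → Fin n → Bool,
    (∀ i, r i i = false) ∧ (∀ i j, ¬ (r i j = true ∧ r j i = true)) ∧
    (n : ℝ) ^ 3 / 15 - C * (n : ℝ) ^ 2 ≤
      ((((Finset.univ : Finset (Fin n × Fin n × Fin n)).filter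
        (fun t => r t.1 t.2.1 = true ∧ r t.2.1 t.2.2 = true ∧
          r t.1 t.2.2 = false ∧ r t.2.2 t.1 = false ∧ t.1 ≠ t.2.2)).card : ℕ) : ℝ) := by
  refine ⟨fun i j => R i j, fun i => R_self i, fun i j => R_asymm i j, ?_⟩
  have h1 := S_ge n
  have h2 : (S n).card = ((Finset.univ : Finset (Fin n × Fin n × Fin n)).filter
        (fun t => (fun i j : Fin n => R i j) t.1 t.2.1 = true ∧
          (fun i j : Fin n => R i j) t.2.1 t.2.2 = true ∧
          (fun i j : Fin n => R i j) t.1 t.2.2 = false ∧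
          (fun i j : Fin n => R i j) t.2.2 t.1 = false ∧ t.1 ≠ t.2.2)).card := by
    congr 1
    ext t
    rw [mem_S, Finset.mem_filter, IsPath]
    have : ((t.1 : ℕ) ≠ (t.2.2 : ℕ)) ↔ t.1 ≠ t.2.2 := by rw [Ne, Ne, Fin.ext_iff]
    rw [this]
  rw [← h2]
  have h3 : 4 * (n : ℝ) ^ 2 ≤ C * (n : ℝ) ^ 2 := mul_le_mul_of_nonneg_right hC (sq_nonneg _)
  linarith

end Pool.Agent.H56.C4
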