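import Mathlib

/-! Basic Ramsey and packing tools for the problem MP_c044fe_co. -/

set_option autoImplicit false

namespace Pool.Agent.H56.RT

variable {ι : Type} {V : Type}

/-- `s` vertex-disjoint copies of `G` all of whose edges have colour `b`, inside `W`. -/
def Cop (G : SimpleGraph ι) (c : V → V → Bool) (b : Bool) (s : ℕ) (W : Finset V) : Prop :=
  ∃ f : Fin s → ι → V, (∀ l a, f l a ∈ W) ∧
    (∀ l a l' a', f l a = f l' a' → l = l' ∧ a = a') ∧
    ∀ l a a', G.Adj a a' → c (f l a) (f l a') = b

/-- `S` is a clique in colour `b`. -/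
def Clq (c : V → V → Bool) (b : Bool) (S : Finset V) : Prop :=
  ∀ x ∈ S, ∀ y ∈ S, x ≠ y → c x y = b

/-- All pairs between `S` and `T` have colour `b`. -/
def Jn (c : V → V → Bool) (b : Bool) (S T : Finset V) : Prop :=
  ∀ x ∈ S, ∀ y ∈ T, c x y = b

theorem Clq.mono {c : V → V → Bool} {b : Bool} {S T : Finset V} (h : Clq c b T) (hS : S ⊆ T) :
    Clq c b S := fun x hx y hy hxy => h x (hS hx) y (hS hy) hxy

theorem Jn.mono {c : V → V → Bool} {b : Bool} {S T S' T' : Finset V} (h : Jn c b S T)
    (hS : S' ⊆ S) (hT : T' ⊆ T) : Jn c b S' T' := fun x hx y hy => h x (hS hx) y (hT hy)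

theorem Jn.symm {c : V → V → Bool} (hc : ∀ x y, c x y = c y x) {b : Bool} {S T : Finset V}
    (h : Jn c b S T) : Jn c b T S := fun x hx y hy => (hc x y).trans (h y hy x hx)

section Cop

variable {G : SimpleGraph ι} {c : V → V → Bool} {b : Bool}

theorem Cop.mono {s : ℕ} {W W' : Finset V} (h : Cop G c b s W) (hW : W ⊆ W') :
    Cop G c b s W' := by
  obtain ⟨f, h1, h2, h3⟩ := h
  exact ⟨f, fun l a => hW (h1 l a), h2, h3⟩

theorem Cop.le {s t : ℕ} {W : Finset V} (h : Cop G c b s W) (hts : t ≤ s) :
    Cop G c b t W := by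
  obtain ⟨f, h1, h2, h3⟩ := h
  refine ⟨fun l => f (Fin.castLE hts l), fun l a => h1 _ a, ?_, fun l a a' h => h3 _ a a' h⟩
  intro l a l' a' h
  obtain ⟨h4, h5⟩ := h2 _ _ _ _ h
  exact ⟨Fin.castLE_injective hts h4, h5⟩

theorem Cop.zero (W : Finset V) : Cop G c b 0 W :=
  ⟨fun l => l.elim0, fun l => l.elim0, fun l => l.elim0, fun l => l.elim0⟩

theorem Cop.add [DecidableEq V] {s t : ℕ} {W W' : Finset V} (h : Cop G c b s W)
    (h' : Cop G c b t W') (hd : Disjoint W W') : Cop G c b (s + t) (W ∪ W') := by
  obtain ⟨f, h1, h2, h3⟩ := h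
  obtain ⟨g, g1, g2, g3⟩ := h'
  refine ⟨fun l => Fin.addCases f g l, ?_, ?_, ?_⟩
  · intro l a
    refine Fin.addCases (fun l => ?_) (fun l => ?_) l
    · simp only [Fin.addCases_left]
      exact Finset.mem_union_left _ (h1 l a)
    · simp only [Fin.addCases_right]
      exact Finset.mem_union_right _ (g1 l a)
  · intro l a l' a'
    refine Fin.addCases (fun l => ?_) (fun l => ?_) l <;>
      refine Fin.addCases (fun l' => ?_) (fun l' => ?_) l'
    · simp only [Fin.addCases_left]
      intro h
      obtain ⟨h4, h5⟩ := h2 _ _ _ _ h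
      exact ⟨by rw [h4], h5⟩
    · simp only [Fin.addCases_left, Fin.addCases_right]
      intro h
      exact absurd (h ▸ h1 l a) (fun h' => (Finset.disjoint_left.mp hd h') (g1 l' a'))
    · simp only [Fin.addCases_left, Fin.addCases_right]
      intro h
      exact absurd (h.symm ▸ h1 l' a') (fun h' => (Finset.disjoint_left.mp hd h') (g1 l a))
    · simp only [Fin.addCases_right]
      intro h
      obtain ⟨h4, h5⟩ := g2 _ _ _ _ h
      exact ⟨by rw [h4], h5⟩
  · intro l
    refine Fin.addCases (fun l => ?_) (fun l => ?_) l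
    · simp only [Fin.addCases_left]
      exact h3 l
    · simp only [Fin.addCases_right]
      exact g3 l

/-- General construction of disjoint copies from role classes. -/
theorem Cop.of_roles [Fintype ι] [DecidableEq V] {ρ : Type} [Fintype ρ] [DecidableEq ρ]
    (role : ι → ρ) (S : ρ → Finset V) {s : ℕ}
    (hdisj : ∀ r r', r ≠ r' → Disjoint (S r) (S r'))
    (hcard : ∀ r, s * (Finset.univ.filter (fun a => role a = r)).card ≤ (S r).card)
    (hcol : ∀ a a', G.Adj a a' → ∀ x ∈ S (role a), ∀ y ∈ S (role a'), x ≠ y → c x y = b) :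
    Cop G c b s (Finset.univ.biUnion S) := by
  classical
  -- injections on each role class
  have hinj : ∀ r, ∃ g : Fin s × {a : ι // role a = r} → V,
      (∀ p, g p ∈ S r) ∧ Function.Injective g := by
    intro r
    have h1 : Fintype.card (Fin s × {a : ι // role a = r}) ≤ Fintype.card (S r) := by
      rw [Fintype.card_prod, Fintype.card_fin, Fintype.card_coe, Fintype.card_subtype]
      exact hcard r
    obtain ⟨e⟩ := Function.Embedding.nonempty_of_card_le h1
    exact ⟨fun p => (e p : V), fun p => (e p).2, fun p q h => e.injective (Subtype.ext h)⟩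
  choose g hg1 hg2 using hinj
  refine ⟨fun l a => g (role a) (l, ⟨a, rfl⟩), ?_, ?_, ?_⟩
  · intro l a
    exact Finset.mem_biUnion.mpr ⟨role a, Finset.mem_univ _, hg1 _ _⟩
  · intro l a l' a' h
    by_cases hr : role a = role a'
    · have key : ∀ (r r' : ρ) (hrr : r = r') (p : Fin s × {a : ι // role a = r})
          (p' : Fin s × {a : ι // role a = r'}), g r p = g r' p' →
          p.1 = p'.1 ∧ (p.2 : ι) = (p'.2 : ι) := by
        rintro r r' rfl p p' h
        have := hg2 r h
        rw [this]
        exact ⟨rfl, rfl⟩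
      exact key _ _ hr _ _ h
    · have h0 : g (role a) (l, ⟨a, rfl⟩) = g (role a') (l', ⟨a', rfl⟩) := h
      have h1 := hg1 (role a) (l, ⟨a, rfl⟩)
      rw [h0] at h1
      exact absurd (hg1 (role a') (l', ⟨a', rfl⟩)) (Finset.disjoint_left.mp (hdisj _ _ hr) h1)
  · intro l a a' hadj
    refine hcol a a' hadj _ (hg1 _ _) _ (hg1 _ _) ?_
    intro h
    by_cases hr : role a = role a'
    · have key : ∀ (r r' : ρ) (hrr : r = r') (p : Fin s × {a : ι // role a = r})
          (p' : Fin s × {a : ι // role a = r'}), g r p = g r' p' →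
          p.1 = p'.1 ∧ (p.2 : ι) = (p'.2 : ι) := by
        rintro r r' rfl p p' h
        have := hg2 r h
        rw [this]
        exact ⟨rfl, rfl⟩
      exact hadj.ne (key _ _ hr _ _ h).2
    · exact absurd (hg1 (role a) (l, ⟨a, rfl⟩))
        (fun h' => Finset.disjoint_left.mp (hdisj _ _ hr) h' (h ▸ hg1 (role a') (l, ⟨a', rfl⟩)))

theorem Cop.of_clique [Fintype ι] {S : Finset V} {s : ℕ} (hS : Clq c b S)
    (hcard : s * Fintype.card ι ≤ S.card) : Cop G c b s S := by
  classical
  have h := Cop.of_roles (G := G) (c := c) (b := b) (s := s) (ρ := Unit) (fun _ : ι => ())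
    (fun _ => S) (fun r r' h => absurd (Subsingleton.elim r r') h)
    (by intro r; simpa using hcard) (fun a a' _ x hx y hy hxy => hS x hx y hy hxy)
  refine h.mono ?_
  intro x hx
  simpa using hx

/-- Copies with the `I`-part in `A` and the rest in `B`. -/
theorem Cop.of_two [Fintype ι] [DecidableEq ι] [DecidableEq V] {A B : Finset V} {s : ℕ}
    (I : Finset ι) (hI : ∀ a ∈ I, ∀ a' ∈ I, ¬ G.Adj a a') (hc : ∀ x y, c x y = c y x)
    (hdisj : Disjoint A B) (hA : s * I.card ≤ A.card) (hB : s * Iᶜ.card ≤ B.card)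
    (hBc : Clq c b B) (hAB : Jn c b A B) : Cop G c b s (A ∪ B) := by
  classical
  have h := Cop.of_roles (G := G) (c := c) (b := b) (s := s) (ρ := Bool) (fun a : ι => decide (a ∈ I))
    (fun r => if r then A else B) ?_ ?_ ?_
  · refine h.mono ?_
    intro x hx
    simp only [Finset.mem_biUnion, Finset.mem_univ, true_and] at hx
    obtain ⟨r, hr⟩ := hx
    cases r
    · exact Finset.mem_union_right _ (by simpa using hr)
    · exact Finset.mem_union_left _ (by simpa using hr)
  · intro r r' hrr
    cases r <;> cases r' <;> simp at hrr ⊢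
    · exact hdisj.symm
    · exact hdisj
  · intro r
    cases r
    · simpa [Finset.filter_not, Finset.compl_eq_univ_sdiff] using hB
    · simpa using hA
  · intro a a' hadj x hx y hy hxy
    by_cases ha : a ∈ I <;> by_cases ha' : a' ∈ I
    · exact absurd hadj (hI a ha a' ha')
    · simp only [ha, ha', decide_true, decide_false, if_true] at hx hy
      exact hAB x hx y (by simpa using hy)
    · simp only [ha, ha', decide_true, decide_false, if_true] at hx hy
      rw [hc]
      exact hAB y hy x (by simpa using hx)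
    · simp only [ha, ha', decide_false] at hx hy
      exact hBc x (by simpa using hx) y (by simpa using hy) hxy

end Cop

/-- Ramsey's theorem for two colours (existence of finite Ramsey numbers), inside finsets. -/
theorem ramsey (a b : ℕ) : ∃ R : ℕ, ∀ {V : Type} (c : V → V → Bool), (∀ x y, c x y = c y x) →
    ∀ W : Finset V, R ≤ W.card →
      (∃ S ⊆ W, S.card = a ∧ Clq c true S) ∨ (∃ S ⊆ W, S.card = b ∧ Clq c false S) := by
  classical
  induction a generalizing b with
  | zero => exact ⟨0, fun c hc W hW => Or.inl ⟨∅, Finset.empty_subset _, rfl, by simp [Clq]⟩⟩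
  | succ a iha =>
    induction b with
    | zero => exact ⟨0, fun c hc W hW => Or.inr ⟨∅, Finset.empty_subset _, rfl, by simp [Clq]⟩⟩
    | succ b ihb =>
      obtain ⟨R1, hR1⟩ := iha (b + 1)
      obtain ⟨R2, hR2⟩ := ihb
      refine ⟨R1 + R2 + 1, fun {V} c hc W hW => ?_⟩
      have hne : W.Nonempty := by
        rw [← Finset.card_pos]
        omega
      obtain ⟨x, hx⟩ := hne
      have hcard : ((W.erase x).filter (fun y => c x y = true)).card +
          ((W.erase x).filter (fun y => c x y = false)).card = W.card - 1 := by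
        rw [← Finset.card_erase_of_mem hx]
        have : (W.erase x).filter (fun y => c x y = false) =
            (W.erase x).filter (fun y => ¬ c x y = true) := by
          apply Finset.filter_congr
          intro y _
          simp
        rw [this]
        exact Finset.card_filter_add_card_filter_not _
      have hins : ∀ (col : Bool) (T : Finset V), T ⊆ (W.erase x).filter (fun y => c x y = col) →
          Clq c col T → insert x T ⊆ W ∧ (insert x T).card = T.card + 1 ∧
            Clq c col (insert x T) := by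
        intro col T hT hTc
        have hxT : x ∉ T := by
          intro h
          have := hT h
          simp at this
        refine ⟨?_, Finset.card_insert_of_notMem hxT, ?_⟩
        · intro y hy
          rcases Finset.mem_insert.mp hy with rfl | hy
          · exact hx
          · exact Finset.mem_of_mem_erase (Finset.mem_of_mem_filter _ (hT hy))
        · intro y hy z hz hyz
          rcases Finset.mem_insert.mp hy with hyx | hyT <;>
            rcases Finset.mem_insert.mp hz with hzx | hzT
          · exact absurd (hyx.trans hzx.symm) hyz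
          · rw [hyx]
            exact (Finset.mem_filter.mp (hT hzT)).2
          · rw [hc, hzx]
            exact (Finset.mem_filter.mp (hT hyT)).2
          · exact hTc y hyT z hzT hyz
      rcases le_or_gt R1 ((W.erase x).filter (fun y => c x y = true)).card with h | h
      · rcases hR1 c hc _ h with ⟨S, hS, hSc, hSq⟩ | ⟨S, hS, hSc, hSq⟩
        · obtain ⟨h1, h2, h3⟩ := hins true S hS hSq
          exact Or.inl ⟨insert x S, h1, by omega, h3⟩
        · refine Or.inr ⟨S, ?_, hSc, hSq⟩
          exact (hS.trans (Finset.filter_subset _ _)).trans (Finset.erase_subset _ _)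
      · have h' : R2 ≤ ((W.erase x).filter (fun y => c x y = false)).card := by omega
        rcases hR2 c hc _ h' with ⟨S, hS, hSc, hSq⟩ | ⟨S, hS, hSc, hSq⟩
        · refine Or.inl ⟨S, ?_, hSc, hSq⟩
          exact (hS.trans (Finset.filter_subset _ _)).trans (Finset.erase_subset _ _)
        · obtain ⟨h1, h2, h3⟩ := hins false S hS hSq
          exact Or.inr ⟨insert x S, h1, by omega, h3⟩

/-- Colour-symmetric form of Ramsey's theorem. -/
theorem ramsey' (b : Bool) (p q : ℕ) : ∃ R : ℕ, ∀ {V : Type} (c : V → V → Bool),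
    (∀ x y, c x y = c y x) → ∀ W : Finset V, R ≤ W.card →
      (∃ S ⊆ W, S.card = p ∧ Clq c b S) ∨ (∃ S ⊆ W, S.card = q ∧ Clq c (!b) S) := by
  cases b
  · obtain ⟨R, hR⟩ := ramsey q p
    exact ⟨R, fun c hc W hW => (hR c hc W hW).symm⟩
  · exact ramsey p q

/-- Bipartite pigeonhole: two large sets contain large disjoint subsets with a monochromatic
join. -/
theorem bip (w : ℕ) : ∃ M : ℕ, w ≤ M ∧ ∀ {V : Type} (c : V → V → Bool) (P Q : Finset V),
    M ≤ P.card → M ≤ Q.card → ∃ P' ⊆ P, ∃ Q' ⊆ Q, P'.card = w ∧ Q'.card = w ∧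
      Disjoint P' Q' ∧ ∃ b, Jn c b P' Q' := by
  classical
  refine ⟨2 * w + 2 ^ (2 * w) * w, by omega, fun {V} c P Q hP hQ => ?_⟩
  obtain ⟨P₀, hP₀, hP₀c⟩ := Finset.exists_subset_card_eq (s := P) (n := 2 * w) (by omega)
  have hQ₀ : 2 ^ (2 * w) * w ≤ (Q \ P₀).card := by
    have := Finset.le_card_sdiff P₀ Q
    omega
  -- pattern of each element of Q
  have hmaps : ∀ q ∈ Q \ P₀, P₀.filter (fun p => c p q = true) ∈ P₀.powerset := by
    intro q _
    exact Finset.mem_powerset.mpr (Finset.filter_subset _ _)
  have hpow : P₀.powerset.card * w ≤ (Q \ P₀).card := by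
    rw [Finset.card_powerset, hP₀c]
    exact hQ₀
  have hne : P₀.powerset.Nonempty := ⟨∅, by simp⟩
  obtain ⟨S, hS, hSw⟩ := Finset.exists_le_card_fiber_of_mul_le_card_of_maps_to hmaps hne hpow
  obtain ⟨Q', hQ', hQ'c⟩ := Finset.exists_subset_card_eq hSw
  have hS' : S ⊆ P₀ := Finset.mem_powerset.mp hS
  have hQ'Q : Q' ⊆ Q \ P₀ := hQ'.trans (Finset.filter_subset _ _)
  have hfib : ∀ q ∈ Q', P₀.filter (fun p => c p q = true) = S := fun q hq =>
    (Finset.mem_filter.mp (hQ' hq)).2
  rcases le_or_gt w S.card with h | h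
  · obtain ⟨P', hP', hP'c⟩ := Finset.exists_subset_card_eq h
    refine ⟨P', (hP'.trans hS').trans hP₀, Q', hQ'Q.trans Finset.sdiff_subset, hP'c, hQ'c, ?_,
      true, ?_⟩
    · rw [Finset.disjoint_left]
      intro x hx hx'
      exact (Finset.mem_sdiff.mp (hQ'Q hx')).2 (hS' (hP' hx))
    · intro x hx y hy
      have : x ∈ P₀.filter (fun p => c p y = true) := by
        rw [hfib y hy]
        exact hP' hx
      exact (Finset.mem_filter.mp this).2
  · have h2 : w ≤ (P₀ \ S).card := by
      rw [Finset.card_sdiff_of_subset hS']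
      omega
    obtain ⟨P', hP', hP'c⟩ := Finset.exists_subset_card_eq h2
    refine ⟨P', (hP'.trans Finset.sdiff_subset).trans hP₀, Q', hQ'Q.trans Finset.sdiff_subset,
      hP'c, hQ'c, ?_, false, ?_⟩
    · rw [Finset.disjoint_left]
      intro x hx hx'
      exact (Finset.mem_sdiff.mp (hQ'Q hx')).2 (Finset.mem_sdiff.mp (hP' hx)).1
    · intro x hx y hy
      have hx1 := Finset.mem_sdiff.mp (hP' hx)
      have : x ∉ P₀.filter (fun p => c p y = true) := by
        rw [hfib y hy]
        exact hx1.2
      rw [Finset.mem_filter, not_and] at this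
      simpa using this hx1.1

end Pool.Agent.H56.RT
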