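import Pool.Agent.H56.RTGadget

/-! Graphs arrowing `nG` contain `⌊r(nG)/k⌋` disjoint copies of `G` (no isolated vertices). -/

set_option autoImplicit false

namespace Pool.Agent.H56.RT

variable {ι : Type} {V : Type}

/-- `s` disjoint copies of `G` in the graph `F`, inside `W`. -/
abbrev FCop (G : SimpleGraph ι) (F : SimpleGraph V) [DecidableRel F.Adj] (s : ℕ) (W : Finset V) :
    Prop := Cop G (fun x y => decide (F.Adj x y)) true s W

theorem exists_max_indep [Fintype ι] [DecidableEq ι] (G : SimpleGraph ι) :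
    ∃ I : Finset ι, (∀ a ∈ I, ∀ a' ∈ I, ¬ G.Adj a a') ∧
      ∀ S : Finset ι, (∀ a ∈ S, ∀ a' ∈ S, ¬ G.Adj a a') → S.card ≤ I.card := by
  classical
  have hne : ((Finset.univ : Finset (Finset ι)).filter
      (fun S => ∀ a ∈ S, ∀ a' ∈ S, ¬ G.Adj a a')).Nonempty := ⟨∅, by simp⟩
  obtain ⟨I, hI, hmax⟩ := Finset.exists_max_image _ Finset.card hne
  refine ⟨I, (Finset.mem_filter.mp hI).2, fun S hS => hmax S ?_⟩
  exact Finset.mem_filter.mpr ⟨Finset.mem_univ _, hS⟩

/-- The main theorem for graphs without isolated vertices. -/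
theorem main_noiso [Fintype ι] [DecidableEq ι] [Nonempty ι] {G : SimpleGraph ι}
    (hiso : ∀ a, ∃ a', G.Adj a a') : ∃ n₀ : ℕ, ∀ n, n₀ ≤ n → ∀ {V : Type} [Fintype V]
      [DecidableEq V] (F : SimpleGraph V) [DecidableRel F.Adj],
      (∀ c : V → V → Bool, (∀ x y, c x y = c y x) → ∃ b, ∃ f : Fin n → ι → V,
        (∀ l a l' a', f l a = f l' a' → l = l' ∧ a = a') ∧
        ∀ l a a', G.Adj a a' → F.Adj (f l a) (f l a') ∧ c (f l a) (f l a') = b) →
      ∀ t : ℕ, t * Fintype.card ι ≤ RN G n → FCop G F t Finset.univ := by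
  classical
  obtain ⟨I, hI, hmax⟩ := exists_max_indep G
  have hi : 0 < I.card := by
    obtain ⟨a⟩ := ‹Nonempty ι›
    have h1 := hmax {a} (by
      intro x hx y hy
      rw [Finset.mem_singleton] at hx hy
      rw [hx, hy]
      exact G.irrefl)
    rw [Finset.card_singleton] at h1
    omega
  have hj : 0 < Iᶜ.card := by
    rw [Finset.card_pos]
    by_contra h
    rw [Finset.not_nonempty_iff_eq_empty, Finset.compl_eq_empty_iff] at h
    obtain ⟨a⟩ := ‹Nonempty ι›
    obtain ⟨a', ha'⟩ := hiso a
    exact hI a (by rw [h]; exact Finset.mem_univ _) a' (by rw [h]; exact Finset.mem_univ _) ha'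
  obtain ⟨n₀, hn₀⟩ := gadget_exists hiso hI hmax hi hj
  refine ⟨n₀ + 1, fun n hn {V} _ _ F _ harr t ht => ?_⟩
  by_contra hcon
  obtain ⟨X, _, d, hG, hXc⟩ := hn₀ n (by omega)
  set k := Fintype.card ι with hk
  -- the packing number
  have hex : ∃ p, ¬ FCop G F (p + 1) Finset.univ := by
    refine ⟨t, fun h => hcon (h.le (Nat.le_succ _))⟩
  obtain ⟨p, hp1, hp2⟩ : ∃ p, FCop G F p Finset.univ ∧ ¬ FCop G F (p + 1) Finset.univ := by
    refine ⟨Nat.find hex, ?_, Nat.find_spec hex⟩
    rcases Nat.eq_zero_or_pos (Nat.find hex) with h | h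
    · rw [h]; exact Cop.zero _
    · have h1 := Nat.find_min hex (m := Nat.find hex - 1) (by omega)
      rw [not_not] at h1
      have h2 : Nat.find hex - 1 + 1 = Nat.find hex := by omega
      rwa [h2] at h1
  have hpt : p + 1 ≤ t := by
    by_contra h
    push Not at h
    exact hcon (hp1.le (by omega))
  have hpk : (p + 1) * k ≤ RN G n := (Nat.mul_le_mul_right _ hpt).trans ht
  have hnp : n ≤ p := by
    by_contra h
    push Not at h
    obtain ⟨b, f, h1, h2⟩ := harr (fun _ _ => true) (fun _ _ => rfl)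
    have h3 : FCop G F n Finset.univ :=
      ⟨f, fun _ _ => Finset.mem_univ _, h1, fun l a a' hadj => by simpa using (h2 l a a' hadj).1⟩
    exact hp2 (h3.le (by omega))
  obtain ⟨s, hs⟩ : ∃ s, p = (n - 1) + s := ⟨p - (n - 1), by omega⟩
  obtain ⟨f, -, hf2, hf3⟩ := hs ▸ hp1
  set W : Finset V := Finset.univ.image
    (fun q : Fin s × ι => f (Fin.natAdd (n - 1) q.1) q.2) with hW
  have hWc : W.card = s * k := by
    rw [hW, Finset.card_image_of_injective, Finset.card_univ, Fintype.card_prod, Fintype.card_fin]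
    intro q q' h
    obtain ⟨h1, h2⟩ := hf2 _ _ _ _ h
    have h3 : q.1 = q'.1 := by
      have := congrArg Fin.val h1
      simp only [Fin.val_natAdd] at this
      exact Fin.ext (by omega)
    exact Prod.ext h3 h2
  have hWcop : FCop G F s W := by
    refine ⟨fun l a => f (Fin.natAdd (n - 1) l) a, ?_, ?_, fun l a a' h => hf3 _ a a' h⟩
    · intro l a
      exact Finset.mem_image.mpr ⟨(l, a), Finset.mem_univ _, rfl⟩
    · intro l a l' a' h
      obtain ⟨h1, h2⟩ := hf2 _ _ _ _ h
      have := congrArg Fin.val h1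
      simp only [Fin.val_natAdd] at this
      exact ⟨Fin.ext (by omega), h2⟩
  have hout : ¬ FCop G F n Wᶜ := by
    intro h
    have h1 := h.add hWcop (disjoint_compl_left)
    have h2 : n + s = p + 1 := by omega
    rw [h2] at h1
    exact hp2 (h1.mono (Finset.subset_univ _))
  -- embedding of W in X
  have hWX : Fintype.card W ≤ Fintype.card X := by
    rw [Fintype.card_coe, hWc]
    have h1 : (p + 1) * k = s * k + k * n := by
      have : p + 1 = s + n := by omega
      rw [this]; ring
    omega
  obtain ⟨g⟩ := Function.Embedding.nonempty_of_card_le hWX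
  -- the colouring
  let c : V → V → Bool := fun x y =>
    if hx : x ∈ W then (if hy : y ∈ W then d (g ⟨x, hx⟩) (g ⟨y, hy⟩) else false)
    else (if y ∈ W then false else true)
  have c1 : ∀ x y (hx : x ∈ W) (hy : y ∈ W), c x y = d (g ⟨x, hx⟩) (g ⟨y, hy⟩) := by
    intro x y hx hy
    simp only [c, hx, hy, dif_pos]
  have c2 : ∀ x y, x ∈ W → y ∉ W → c x y = false := by
    intro x y hx hy
    simp only [c, hx, hy, dif_pos, dif_neg, not_false_eq_true]
  have c3 : ∀ x y, x ∉ W → y ∈ W → c x y = false := by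
    intro x y hx hy
    simp only [c, hx, hy, dif_neg, not_false_eq_true, if_true]
  have c4 : ∀ x y, x ∉ W → y ∉ W → c x y = true := by
    intro x y hx hy
    simp only [c, hx, hy, dif_neg, not_false_eq_true, if_false]
  obtain ⟨b, f', h1, h2⟩ := harr c (by
    intro x y
    by_cases hx : x ∈ W <;> by_cases hy : y ∈ W
    · rw [c1 x y hx hy, c1 y x hy hx, hG.symm]
    · rw [c2 x y hx hy, c3 y x hy hx]
    · rw [c3 x y hx hy, c2 y x hy hx]
    · rw [c4 x y hx hy, c4 y x hy hx])
  cases b
  · -- blue
    refine hG.noBlue (fun l a => if h : f' l a ∈ W then some (g ⟨f' l a, h⟩) else none) ?_ ?_ ?_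
    · intro l a l' a' x hx hx'
      by_cases h : f' l a ∈ W
      · by_cases h' : f' l' a' ∈ W
        · simp only [h, h', dif_pos, Option.some.injEq] at hx hx'
          have := g.injective (hx.trans hx'.symm)
          exact h1 _ _ _ _ (Subtype.mk.inj this)
        · simp [h'] at hx'
      · simp [h] at hx
    · intro l a a' hadj hnone
      obtain ⟨hn1, hn2⟩ := hnone
      have e1 : f' l a ∉ W := by
        intro h
        simp [h] at hn1
      have e2 : f' l a' ∉ W := by
        intro h
        simp [h] at hn2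
      have := (h2 l a a' hadj).2
      rw [c4 _ _ e1 e2] at this
      exact absurd this (by simp)
    · intro l a a' hadj x y hx hy
      by_cases h : f' l a ∈ W
      · by_cases h' : f' l a' ∈ W
        · simp only [h, h', dif_pos, Option.some.injEq] at hx hy
          rw [← hx, ← hy, ← c1 _ _ h h']
          exact (h2 l a a' hadj).2
        · simp [h'] at hy
      · simp [h] at hx
  · -- red
    have hnotW : ∀ l a, f' l a ∉ W := by
      intro l a₀ ha₀
      have hS : ∀ a, a ∈ Finset.univ.filter (fun a => f' l a ∈ W) ↔ f' l a ∈ W := by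
        intro a; simp
      refine hG.noRed (Finset.univ.filter (fun a => f' l a ∈ W)) ?_ ⟨a₀, (hS a₀).mpr ha₀⟩
        (fun a => if h : f' l a ∈ W then g ⟨f' l a, h⟩ else g ⟨f' l a₀, ha₀⟩) ?_ ?_
      · intro a ha a' hadj
        rw [hS] at ha ⊢
        by_contra h'
        have := (h2 l a a' hadj).2
        rw [c2 _ _ ha h'] at this
        exact absurd this (by simp)
      · intro a ha a' ha' h
        rw [hS] at ha ha'
        simp only [ha, ha', dif_pos] at h
        exact (h1 _ _ _ _ (Subtype.mk.inj (g.injective h))).2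
      · intro a ha a' ha' hadj
        rw [hS] at ha ha'
        simp only [ha, ha', dif_pos]
        rw [← c1 _ _ ha ha']
        exact (h2 l a a' hadj).2
    refine hout ⟨f', fun l a => Finset.mem_compl.mpr (hnotW l a), h1, fun l a a' hadj => ?_⟩
    simpa using (h2 l a a' hadj).1

/-- Extending a partial injection between finite types. -/
theorem exists_extend {α β : Type} [Fintype α] [Fintype β] [DecidableEq α] [DecidableEq β]
    (s : Finset α) (f : α → β) (hf : Set.InjOn f s) (hcard : Fintype.card α ≤ Fintype.card β) :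
    ∃ g : α → β, Function.Injective g ∧ ∀ i ∈ s, g i = f i := by
  classical
  obtain ⟨t, ht1, ht2⟩ : ∃ t : Finset β, s.image f ⊆ t ∧ t.card = Fintype.card α := by
    have h1 : (s.image f).card ≤ Fintype.card α := Finset.card_image_le.trans (Finset.card_le_univ _)
    obtain ⟨t, h2, -, h4⟩ := Finset.exists_subsuperset_card_eq (Finset.subset_univ (s.image f)) h1
      (by rw [Finset.card_univ]; exact hcard)
    exact ⟨t, h2, h4⟩
  obtain ⟨g, hg⟩ := Finset.exists_equiv_extend_of_card_eq ht2.symm ht1 hf
  exact ⟨fun i => (g i : β), fun i j h => g.injective (Subtype.ext h), hg⟩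

end Pool.Agent.H56.RT
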