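import Pool.Agent.H56.RTMain

/-! The gadget and its existence. -/

set_option autoImplicit false

namespace Pool.Agent.H56.RT

variable {ι : Type} {V : Type}

/-- A colouring `d` of a complete graph on `X` (`true` is red) such that there is no red copy of a
closed part of `G`, and joining it in blue to an infinite red clique creates no blue `nG`. -/
structure Gad (G : SimpleGraph ι) (n : ℕ) {X : Type} (d : X → X → Bool) : Prop where
  symm : ∀ x y, d x y = d y x
  noRed : ∀ S : Finset ι, Closed G S → S.Nonempty → ∀ φ : ι → X,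
    (∀ a ∈ S, ∀ a' ∈ S, φ a = φ a' → a = a') →
    ¬ ∀ a ∈ S, ∀ a' ∈ S, G.Adj a a' → d (φ a) (φ a') = true
  noBlue : ∀ ψ : Fin n → ι → Option X,
    (∀ l a l' a' x, ψ l a = some x → ψ l' a' = some x → l = l' ∧ a = a') →
    (∀ l a a', G.Adj a a' → ¬ (ψ l a = none ∧ ψ l a' = none)) →
    ¬ ∀ l a a', G.Adj a a' → ∀ x y, ψ l a = some x → ψ l a' = some y → d x y = false

theorem eq_not_of_ne' {x b : Bool} (h : ¬ x = b) : x = !b := by
  cases x <;> cases b <;> simp_all

/-- Realising virtual copies using a clique with large common neighbourhoods. -/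
theorem realize [Fintype ι] [DecidableEq ι] [DecidableEq V] {G : SimpleGraph ι}
    {c : V → V → Bool} (hc : ∀ x y, c x y = c y x) {b : Bool} {A X : Finset V} {θ n : ℕ}
    (hd : Disjoint A X) (hX : ∀ v ∈ X, (A.filter (fun a => c v a = b)).card ≤ θ)
    (hAc : n * Fintype.card ι + Fintype.card ι * θ ≤ A.card)
    (ψ : Fin n → ι → Option {x // x ∈ X})
    (h1 : ∀ l a l' a' x, ψ l a = some x → ψ l' a' = some x → l = l' ∧ a = a')
    (h2 : ∀ l a a', G.Adj a a' → ¬ (ψ l a = none ∧ ψ l a' = none))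
    (h3 : ∀ l a a', G.Adj a a' → ∀ x y, ψ l a = some x → ψ l a' = some y →
      c x y = !b) :
    Cop G c (!b) n (X ∪ A) := by
  classical
  -- vertices of the l-th copy inside X
  let Q : Fin n → Finset V := fun l => Finset.univ.biUnion (fun a : ι =>
    match ψ l a with
    | some x => {(x : V)}
    | none => ∅)
  have hQmem : ∀ l a x, ψ l a = some x → (x : V) ∈ Q l := by
    intro l a x hx
    refine Finset.mem_biUnion.mpr ⟨a, Finset.mem_univ _, ?_⟩
    rw [hx]
    exact Finset.mem_singleton_self _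
  have hQX : ∀ l, Q l ⊆ X := by
    intro l v hv
    obtain ⟨a, -, ha⟩ := Finset.mem_biUnion.mp hv
    cases hψ : ψ l a with
    | none => rw [hψ] at ha; simp at ha
    | some x =>
      rw [hψ] at ha
      rw [Finset.mem_singleton.mp ha]
      exact x.2
  have hQc : ∀ l, (Q l).card ≤ Fintype.card ι := by
    intro l
    refine Finset.card_biUnion_le.trans ?_
    calc _ ≤ ∑ _a : ι, 1 := Finset.sum_le_sum (fun a _ => by
            cases hψ : ψ l a <;> simp)
      _ = Fintype.card ι := by simp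
  have hcand : ∀ p : Fin n × ι, Fintype.card (Fin n × ι) ≤
      (A.filter (fun a => ∀ v ∈ Q p.1, c v a = !b)).card := by
    intro p
    have h4 := common (c := c) b (A := A) (Q := Q p.1) (θ := θ) (fun v hv => hX v (hQX _ hv))
    have h5 : (Q p.1).card * θ ≤ Fintype.card ι * θ := Nat.mul_le_mul_right _ (hQc _)
    rw [Fintype.card_prod, Fintype.card_fin]
    omega
  obtain ⟨g, hg1, hg2⟩ := choice (fun p : Fin n × ι =>
    A.filter (fun a => ∀ v ∈ Q p.1, c v a = !b)) hcand
  have hgA : ∀ p, g p ∈ A := fun p => (Finset.mem_filter.mp (hg2 p)).1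
  have hgc : ∀ l a x a', ψ l a = some x → c x (g (l, a')) = !b := fun l a x a' hx =>
    (Finset.mem_filter.mp (hg2 (l, a'))).2 _ (hQmem l a x hx)
  let f : Fin n → ι → V := fun l a =>
    match ψ l a with
    | some x => (x : V)
    | none => g (l, a)
  have hfs : ∀ l a x, ψ l a = some x → f l a = x := by
    intro l a x hx
    simp only [f, hx]
  have hfn : ∀ l a, ψ l a = none → f l a = g (l, a) := by
    intro l a hx
    simp only [f, hx]
  refine ⟨f, ?_, ?_, ?_⟩
  · intro l a
    cases hψ : ψ l a with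
    | none => rw [hfn l a hψ]; exact Finset.mem_union_right _ (hgA _)
    | some x => rw [hfs l a x hψ]; exact Finset.mem_union_left _ x.2
  · intro l a l' a' hff
    cases hψ : ψ l a with
    | none =>
      cases hψ' : ψ l' a' with
      | none =>
        rw [hfn l a hψ, hfn l' a' hψ'] at hff
        have := hg1 hff
        exact ⟨(Prod.ext_iff.mp this).1, (Prod.ext_iff.mp this).2⟩
      | some x' =>
        rw [hfn l a hψ, hfs l' a' x' hψ'] at hff
        exact absurd x'.2 (fun h => Finset.disjoint_left.mp hd (hgA (l, a)) (hff ▸ h))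
    | some x =>
      cases hψ' : ψ l' a' with
      | none =>
        rw [hfs l a x hψ, hfn l' a' hψ'] at hff
        exact absurd x.2 (fun h => Finset.disjoint_left.mp hd (hgA (l', a')) (hff ▸ h))
      | some x' =>
        rw [hfs l a x hψ, hfs l' a' x' hψ'] at hff
        have hxx : x = x' := Subtype.ext hff
        rw [← hxx] at hψ'
        exact h1 l a l' a' x hψ hψ'
  · intro l a a' hadj
    cases hψ : ψ l a with
    | none =>
      cases hψ' : ψ l a' with
      | none => exact absurd ⟨hψ, hψ'⟩ (h2 l a a' hadj)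
      | some x' =>
        rw [hfn l a hψ, hfs l a' x' hψ', hc]
        exact hgc l a' x' a hψ'
    | some x =>
      cases hψ' : ψ l a' with
      | none =>
        rw [hfs l a x hψ, hfn l a' hψ']
        exact hgc l a x a' hψ
      | some x' =>
        rw [hfs l a x hψ, hfs l a' x' hψ']
        exact h3 l a a' hadj x x' hψ hψ'

theorem PFam.snoc [DecidableEq V] {G : SimpleGraph ι} {c : V → V → Bool} {b : Bool}
    {X : Finset V} {m : ℕ}
    {S : Fin m → Finset ι} {φ : Fin m → ι → V} (h : PFam G c b X m S φ) {S₀ : Finset ι}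
    (hcl : Closed G S₀) (hne : S₀.Nonempty) {φ₀ : ι → V} (hX : ∀ a ∈ S₀, φ₀ a ∈ X \ cov S φ)
    (hinj : ∀ a ∈ S₀, ∀ a' ∈ S₀, φ₀ a = φ₀ a' → a = a')
    (hcol : ∀ a ∈ S₀, ∀ a' ∈ S₀, G.Adj a a' → c (φ₀ a) (φ₀ a') = b) :
    ∃ (S' : Fin (m + 1) → Finset ι) (φ' : Fin (m + 1) → ι → V), PFam G c b X (m + 1) S' φ' := by
  refine ⟨Fin.cons S₀ S, Fin.cons φ₀ φ, ?_, ?_, ?_, ?_, ?_⟩
  · intro l
    refine Fin.cases ?_ (fun l => ?_) l
    · exact hcl
    · exact h.closed l
  · intro l
    refine Fin.cases ?_ (fun l => ?_) l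
    · exact hne
    · exact h.nonempty l
  · intro l
    refine Fin.cases ?_ (fun l => ?_) l
    · exact fun a ha => (Finset.mem_sdiff.mp (hX a ha)).1
    · exact fun a ha => h.mem l a ha
  · intro l a ha l' a' ha' hff
    revert ha ha' hff
    refine Fin.cases ?_ (fun l => ?_) l <;> refine Fin.cases ?_ (fun l' => ?_) l'
    · simp only [Fin.cons_zero]
      exact fun ha ha' hff => ⟨trivial, hinj a ha a' ha' hff⟩
    · simp only [Fin.cons_zero, Fin.cons_succ]
      intro ha ha' hff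
      exact absurd (mem_cov.mpr ⟨l', a', ha', hff.symm⟩) (Finset.mem_sdiff.mp (hX a ha)).2
    · simp only [Fin.cons_zero, Fin.cons_succ]
      intro ha ha' hff
      exact absurd (mem_cov.mpr ⟨l, a, ha, hff⟩) (Finset.mem_sdiff.mp (hX a' ha')).2
    · simp only [Fin.cons_succ]
      intro ha ha' hff
      obtain ⟨h1, h2⟩ := h.inj l a ha l' a' ha' hff
      exact ⟨by rw [h1], h2⟩
  · intro l
    refine Fin.cases ?_ (fun l => ?_) l
    · exact hcol
    · exact h.col l

/-- Existence of the gadget on `r(nG) - kn` vertices for all large `n`. -/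
theorem gadget_exists [Fintype ι] [DecidableEq ι] {G : SimpleGraph ι}
    (hiso : ∀ a, ∃ a', G.Adj a a') {I : Finset ι} (hI : ∀ a ∈ I, ∀ a' ∈ I, ¬ G.Adj a a')
    (hmax : ∀ S : Finset ι, (∀ a ∈ S, ∀ a' ∈ S, ¬ G.Adj a a') → S.card ≤ I.card)
    (hi : 0 < I.card) (hj : 0 < Iᶜ.card) :
    ∃ n₀ : ℕ, ∀ n, n₀ ≤ n → ∃ (X : Type) (_ : Fintype X) (d : X → X → Bool), Gad G n d ∧
      RN G n ≤ Fintype.card X + Fintype.card ι * n := by
  classical
  have hij : I.card + Iᶜ.card = Fintype.card ι := by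
    rw [Finset.card_compl]
    have := Finset.card_le_univ I
    omega
  have hk : 0 < Fintype.card ι := by omega
  set k := Fintype.card ι with hkdef
  set M₁ := bipM (k * k) with hM₁
  have hM₁k : k * k ≤ M₁ := le_bipM _
  have hkk : k ≤ k * k := Nat.le_mul_of_pos_left _ hk
  set q₀ := 4 * k * k * M₁ with hq₀
  obtain ⟨n₂, hst⟩ := stable hiso hI hmax hj
  obtain ⟨M₃, hM₃⟩ := removal G hI M₁ q₀ (by omega)
  obtain ⟨C₁, hC₁⟩ := fam_bound G I (bipM M₁)
  obtain ⟨Ra, hRa⟩ := greedy G hk true q₀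
  obtain ⟨Rb, hRb⟩ := greedy G hk false q₀
  obtain ⟨Rc, hRc⟩ := greedy' G hk true (bipM M₁)
  obtain ⟨Rd, hRd⟩ := greedy' G hk false (bipM M₁)
  refine ⟨n₂ + M₃ + 1, fun n hn => ?_⟩
  -- the threshold and the size of the big clique
  obtain ⟨θ, hθ⟩ : ∃ θ, θ = q₀ * 2 ^ q₀ + k * (Ra + Rb) + k * C₁ + k * n + k * k := ⟨_, rfl⟩
  obtain ⟨t, ht⟩ : ∃ t, t = 2 * k * k * θ := ⟨_, rfl⟩
  have htθ : k * k * θ + k * k * θ = t := by rw [ht]; ring
  have hθkkθ : θ ≤ k * k * θ := by
    have : 1 ≤ k * k := Nat.mul_pos hk hk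
    calc θ = 1 * θ := (one_mul _).symm
      _ ≤ k * k * θ := Nat.mul_le_mul_right _ this
  have hkθ : k * θ ≤ k * k * θ := Nat.mul_le_mul_right _ hkk
  obtain ⟨Re, hRe⟩ := both_cliques G hk (bipM (bipM M₁ + t))
  -- the big level
  obtain ⟨N, hN⟩ : ∃ N, N = n + n₂ + k + Re + t + M₃ + k * C₁ + Rc + Rd + k + 2 := ⟨_, rfl⟩
  have hlow := lower hiso hij hmax hj N
  have hjN : N ≤ Iᶜ.card * N := Nat.le_mul_of_pos_left _ hj
  have hkjN : (k + Iᶜ.card) * N = k * N + Iᶜ.card * N := by ring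
  rw [← hkdef] at hlow
  have hRNpos : 0 < RN G N := by omega
  have hnarr : ¬ Arr G (RN G N - 1) N := by
    intro h
    have := RN_le h
    omega
  unfold Arr at hnarr
  push Not at hnarr
  obtain ⟨c, hc, hno⟩ := hnarr
  set W : Finset (Fin (RN G N - 1)) := Finset.univ with hW
  have hWc : W.card + 1 = RN G N := by
    rw [hW, Finset.card_univ, Fintype.card_fin]; omega
  have hOE : OE G c Iᶜ.card W := by
    intro s hs T hT hcop
    exact no_overefficient hst hc (W := W) (n := N) hWc.ge hno (s := s) (by omega) hT hcop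
  have ctx : Ctx G c I W := ⟨hc, hI, hi, hj, hOE⟩
  -- large cliques with a monochromatic join
  have hNk : N * Fintype.card ι + Re ≤ W.card := by
    rw [← hkdef]
    have : N * k = k * N := mul_comm _ _
    omega
  obtain ⟨P, hPW, hPc, hPq⟩ := hRe c hc W N hno hNk true
  obtain ⟨Q, hQW, hQc, hQq⟩ := hRe c hc W N hno hNk false
  obtain ⟨P', hP', Q', hQ', hP'c, hQ'c, hdPQ, d, hd⟩ := bipM_spec (bipM M₁ + t) c P Q hPc.ge hQc.ge
  obtain ⟨b, A₁, B₁, hA₁c, hB₁c, hA₁, hB₁, hAB, hdAB⟩ : ∃ (b : Bool)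
      (A₁ B₁ : Finset (Fin (RN G N - 1))), A₁.card = t ∧ bipM M₁ + t ≤ B₁.card ∧ Clq c b A₁ ∧
      Clq c (!b) B₁ ∧ Jn c (!b) A₁ B₁ ∧ Disjoint A₁ B₁ := by
    cases d
    · obtain ⟨A₁, hA₁, hA₁c⟩ := Finset.exists_subset_card_eq (s := P') (n := t) (by omega)
      exact ⟨true, A₁, Q', hA₁c, hQ'c.ge, hPq.mono (hA₁.trans hP'), hQq.mono hQ',
        hd.mono hA₁ (Finset.Subset.refl _), hdPQ.mono_left hA₁⟩
    · obtain ⟨A₁, hA₁, hA₁c⟩ := Finset.exists_subset_card_eq (s := Q') (n := t) (by omega)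
      exact ⟨false, A₁, P', hA₁c, hP'c.ge, hQq.mono (hA₁.trans hQ'), hPq.mono hP',
        (hd.mono (Finset.Subset.refl _) hA₁).symm hc, (hdPQ.mono_right hA₁).symm⟩
  have hM₂ : M₁ ≤ bipM M₁ := le_bipM _
  have hA₁M : M₁ ≤ A₁.card := by
    -- t ≥ θ ≥ M₁
    have h1 : M₁ ≤ q₀ := by
      rw [hq₀]
      exact Nat.le_mul_of_pos_left _ (by positivity)
    have h2 : q₀ ≤ q₀ * 2 ^ q₀ := Nat.le_mul_of_pos_right _ (by positivity)
    omega
  have hP := propP ctx b (Finset.subset_univ A₁) (Finset.subset_univ B₁) hA₁ hB₁ hAB hdAB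
    (by rw [← hkdef, ← hM₁]; exact hA₁M) (by rw [← hkdef, ← hM₁]; omega)
  rw [← hkdef, ← hM₁] at hP
  -- near and far vertices
  set A₂ := (W \ A₁).filter (fun v => θ ≤ (A₁.filter (fun a => c v a = b)).card) with hA₂
  set X := (W \ A₁).filter (fun v => ¬ θ ≤ (A₁.filter (fun a => c v a = b)).card) with hX
  have hA₂W : A₂ ⊆ W := Finset.subset_univ _
  have hXW : X ⊆ W := Finset.subset_univ _
  have hdA : Disjoint A₁ A₂ := by
    rw [Finset.disjoint_right]
    intro x hx
    exact (Finset.mem_sdiff.mp (Finset.mem_filter.mp hx).1).2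
  have hdX : Disjoint A₁ X := by
    rw [Finset.disjoint_right]
    intro x hx
    exact (Finset.mem_sdiff.mp (Finset.mem_filter.mp hx).1).2
  have hdAX : Disjoint A₂ X := Finset.disjoint_filter_filter_not _ _ _
  have hsum : A₂.card + X.card + A₁.card = W.card := by
    rw [Finset.card_filter_add_card_filter_not]
    exact Finset.card_sdiff_add_card_eq_card (Finset.subset_univ _)
  have hA₂θ : ∀ v ∈ A₂, θ ≤ (A₁.filter (fun a => c v a = b)).card := fun v hv =>
    (Finset.mem_filter.mp hv).2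
  have hXθ : ∀ v ∈ X, (A₁.filter (fun a => c v a = b)).card ≤ θ := fun v hv => by
    have := (Finset.mem_filter.mp hv).2
    omega
  have hM₁pos : 0 < M₁ := by omega
  have hnoA : NoClq c (!b) q₀ A₂ := by
    refine A2_noclq hc hP (Finset.subset_univ A₁) hA₂W hA₁ hdA (hA₁c.trans ht) ?_ hM₁pos hk hA₂θ
    rw [hA₁c, ← hq₀]
    omega
  have hnoX : NoClq c b (bipM M₁) X := by
    refine X_noclq ctx hP hM₁k (Finset.subset_univ A₁) (Finset.subset_univ B₁) hXW hA₁ hB₁ hAB
      hdAB hdX hXθ (by omega) ?_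
    rw [hA₁c, ← hkdef]
    omega
  -- a maximal family of partial copies in X
  have hfb : ∀ (m : ℕ) (S : Fin m → Finset ι) (φ : Fin m → ι → Fin (RN G N - 1)),
      PFam G c b X m S φ → m ≤ C₁ := by
    refine hC₁ c W ctx b A₁ X θ (Finset.subset_univ A₁) hXW hA₁ hdX hXθ ?_ hnoX
    rw [hA₁c, ← hkdef]
    omega
  obtain ⟨m, S, φ, hfam, hmaxfam⟩ : ∃ (m : ℕ) (S : Fin m → Finset ι)
      (φ : Fin m → ι → Fin (RN G N - 1)), PFam G c b X m S φ ∧
      ¬ ∃ (S' : Fin (m + 1) → Finset ι) (φ' : Fin (m + 1) → ι → Fin (RN G N - 1)),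
        PFam G c b X (m + 1) S' φ' := by
    by_contra hcon
    push Not at hcon
    have hall : ∀ m : ℕ, ∃ (S : Fin m → Finset ι) (φ : Fin m → ι → Fin (RN G N - 1)),
        PFam G c b X m S φ := by
      intro m
      induction m with
      | zero =>
        exact ⟨fun l => l.elim0, fun l => l.elim0, fun l => l.elim0, fun l => l.elim0,
          fun l => l.elim0, fun l => l.elim0, fun l => l.elim0⟩
      | succ m ih =>
        obtain ⟨S, φ, h⟩ := ih
        exact hcon m S φ h
    obtain ⟨S, φ, h⟩ := hall (C₁ + 1)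
    have := hfb _ S φ h
    omega
  have hmC := hfb m S φ hfam
  set U := cov S φ with hU
  have hUX : U ⊆ X := by
    intro x hx
    obtain ⟨l, a, ha, rfl⟩ := mem_cov.mp hx
    exact hfam.mem l a ha
  have hUc : U.card ≤ k * C₁ := by
    rw [hU, hfam.card_cov]
    calc ∑ l, (S l).card ≤ ∑ _l : Fin m, k := Finset.sum_le_sum (fun l _ => Finset.card_le_univ _)
      _ = m * k := by simp
      _ ≤ k * C₁ := by rw [mul_comm]; exact Nat.mul_le_mul_left _ hmC
  -- the near part is small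
  have hkRab : k * (Ra + Rb) = k * Ra + k * Rb := by ring
  have hnear : A₁.card + A₂.card + U.card < k * N := by
    by_contra hcon
    push Not at hcon
    have hR : ∀ W' : Finset (Fin (RN G N - 1)), NoClq c (!b) q₀ W' → ∃ z : ℕ, ∃ W'' ⊆ W',
        W''.card = z * Fintype.card ι ∧ Cop G c b z W'' ∧ (W' \ W'').card < Ra + Rb := by
      intro W' hW'
      cases b
      · obtain ⟨z, W'', h1, h2, h3, h4⟩ := hRb c hc W' hW'
        exact ⟨z, W'', h1, h2, h3, by omega⟩
      · obtain ⟨z, W'', h1, h2, h3, h4⟩ := hRa c hc W' hW'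
        exact ⟨z, W'', h1, h2, h3, by omega⟩
    have hk1 : (k - 1) * (Ra + Rb) ≤ k * (Ra + Rb) := Nat.mul_le_mul_right _ (Nat.sub_le _ _)
    have hk2 : k * (Ra + Rb + C₁) = k * (Ra + Rb) + k * C₁ := by ring
    have hNC : C₁ ≤ N := by
      have : C₁ ≤ k * C₁ := Nat.le_mul_of_pos_left _ hk
      omega
    have hfill := fill (G := G) hk hc (b := b) (q := q₀) (R := Ra + Rb) (C₁ := C₁) (θ := θ)
      (n := N) (m := m) hR hA₁ hdA hfam hdX hdAX hnoA hA₂θ (by rw [← hkdef]; omega)
      (by rw [← hkdef, hk2, hA₁c]; omega) hmC (by omega) (by rw [← hkdef, ← hU]; omega)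
    exact hno b (hfill.mono (Finset.subset_univ _))
  -- the far part
  set X' := X \ U with hX'
  have hX'X : X' ⊆ X := Finset.sdiff_subset
  have hX'c : X'.card + U.card = X.card := Finset.card_sdiff_add_card_eq_card hUX
  have hX'big : RN G N ≤ X'.card + k * N := by omega
  have hnoX' : NoClq c b (bipM M₁) X' := hnoX.mono hX'X
  have hdAX' : Disjoint A₂ X' := hdAX.mono_right hX'X
  obtain ⟨y, hy⟩ : ∃ y, N = n + y := ⟨N - n, by omega⟩
  have hstN := hst n (by omega) y
  rw [← hkdef, ← hy] at hstN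
  have hky : k * N = k * n + k * y := by rw [hy]; ring
  have hkjy : (k + Iᶜ.card) * y = k * y + Iᶜ.card * y := by ring
  have hjNy : Iᶜ.card * N = Iᶜ.card * n + Iᶜ.card * y := by rw [hy]; ring
  have hjn : n ≤ Iᶜ.card * n := Nat.le_mul_of_pos_left _ hj
  -- X' is large enough for y removals
  have hXy : M₃ + Iᶜ.card * y ≤ X'.card := by omega
  have hAy : M₃ + I.card * y ≤ A₂.card := by
    by_contra hcon
    push Not at hcon
    -- largest number of efficient removals
    obtain ⟨y₀, hy₀1, hy₀2, hy₀y⟩ : ∃ y₀, (y₀ = 0 ∨ M₃ + I.card * y₀ ≤ A₂.card) ∧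
        A₂.card < M₃ + I.card * (y₀ + 1) ∧ y₀ ≤ y := by
      have hex : ∃ z, A₂.card < M₃ + I.card * (z + 1) := by
        refine ⟨y, hcon.trans_le ?_⟩
        exact Nat.add_le_add_left (Nat.mul_le_mul_left _ (Nat.le_succ _)) _
      refine ⟨Nat.find hex, ?_, Nat.find_spec hex, ?_⟩
      · rcases Nat.eq_zero_or_pos (Nat.find hex) with h | h
        · exact Or.inl h
        · right
          have h1 := Nat.find_min hex (m := Nat.find hex - 1) (by omega)
          rw [not_lt] at h1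
          have h2 : Nat.find hex - 1 + 1 = Nat.find hex := by omega
          rwa [h2] at h1
      · refine Nat.find_min' hex (hcon.trans_le ?_)
        exact Nat.add_le_add_left (Nat.mul_le_mul_left _ (Nat.le_succ _)) _
    have hjy₀ : Iᶜ.card * y₀ ≤ Iᶜ.card * y := Nat.mul_le_mul_left _ hy₀y
    obtain ⟨YA, hYA, YX, hYX, hYAc, hYXc, hcop⟩ := hM₃ c hc b W A₂ X' hP hA₂W
      (Finset.subset_univ _) hdAX' hnoA hnoX' y₀ hy₀1 (Or.inr (by omega))
    have hrem : (X' \ YX).card = X'.card - Iᶜ.card * y₀ := by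
      rw [Finset.card_sdiff_of_subset hYX, hYXc]
    obtain ⟨s, hs⟩ : ∃ s, N = y₀ + s := ⟨N - y₀, by omega⟩
    have hks : k * N = k * y₀ + s * k := by rw [hs]; ring
    have hiy : I.card * (y₀ + 1) = I.card * y₀ + I.card := by ring
    have hijy : I.card * y₀ + Iᶜ.card * y₀ = k * y₀ := by rw [← add_mul, hij]
    have hmany : s * k + Rc + Rd ≤ (X' \ YX).card := by
      rw [hrem]
      omega
    have hcop2 : Cop G c (!b) s (X' \ YX) := by
      cases b
      · exact hRc c hc (X' \ YX) s (hnoX'.mono Finset.sdiff_subset) (by rw [← hkdef]; omega)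
      · exact hRd c hc (X' \ YX) s (hnoX'.mono Finset.sdiff_subset) (by rw [← hkdef]; omega)
    have hfin := hcop.add hcop2 (by
      rw [Finset.disjoint_union_left]
      exact ⟨hdAX'.mono hYA Finset.sdiff_subset, Finset.disjoint_sdiff⟩)
    rw [← hs] at hfin
    exact hno (!b) (hfin.mono (Finset.subset_univ _))
  obtain ⟨YA, hYA, YX, hYX, hYAc, hYXc, hcop⟩ := hM₃ c hc b W A₂ X' hP hA₂W
    (Finset.subset_univ _) hdAX' hnoA hnoX' y (Or.inr hAy) (Or.inr hXy)
  set Z := X' \ YX with hZ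
  have hZc : Z.card = X'.card - Iᶜ.card * y := by
    rw [hZ, Finset.card_sdiff_of_subset hYX, hYXc]
  have hZX : Z ⊆ X := Finset.sdiff_subset.trans hX'X
  refine ⟨{x // x ∈ Z}, inferInstance, fun x y => decide (c x y = b), ⟨?_, ?_, ?_⟩, ?_⟩
  · intro x y
    simp only [hc x y]
  · intro S₀ hcl hne φ₀ hinj hcol
    refine hmaxfam (hfam.snoc hcl hne (φ₀ := fun a => (φ₀ a : Fin (RN G N - 1))) ?_ ?_ ?_)
    · intro a _
      exact Finset.sdiff_subset (φ₀ a).2
    · intro a ha a' ha' h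
      exact hinj a ha a' ha' (Subtype.ext h)
    · intro a ha a' ha' hadj
      have := hcol a ha a' ha' hadj
      simpa using this
  · intro ψ h1 h2 h3
    have hreal : Cop G c (!b) n (Z ∪ A₁) := by
      refine realize hc (hdX.mono_right hZX) (fun v hv => hXθ v (hZX hv)) ?_ ψ h1 h2 ?_
      · rw [hA₁c, ← hkdef]
        have : n * k = k * n := mul_comm _ _
        omega
      · intro l a a' hadj x y hx hy
        have := h3 l a a' hadj x y hx hy
        rw [decide_eq_false_iff_not] at this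
        exact eq_not_of_ne' this
    have hfin := hreal.add hcop (by
      rw [Finset.disjoint_union_left, Finset.disjoint_union_right, Finset.disjoint_union_right]
      exact ⟨⟨(hdAX.mono hYA hZX).symm, Finset.sdiff_disjoint⟩, hdA.mono_right hYA,
        hdX.mono_right (hYX.trans hX'X)⟩)
    rw [← hy] at hfin
    exact hno (!b) (hfin.mono (Finset.subset_univ _))
  · rw [Fintype.card_coe, hZc]
    omega

end Pool.Agent.H56.RT
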