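import Pool.Agent.H56.RTStruct

/-! Extraction of the gadget from an extremal colouring. -/

set_option autoImplicit false

namespace Pool.Agent.H56.RT

variable {ι : Type} {V : Type}

/-- A bipartite pigeonhole number. -/
noncomputable def bipM (w : ℕ) : ℕ := Classical.choose (bip w)

theorem le_bipM (w : ℕ) : w ≤ bipM w := (Classical.choose_spec (bip w)).1

theorem bipM_spec (w : ℕ) {V : Type} (c : V → V → Bool) (P Q : Finset V)
    (hP : bipM w ≤ P.card) (hQ : bipM w ≤ Q.card) : ∃ P' ⊆ P, ∃ Q' ⊆ Q, P'.card = w ∧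
      Q'.card = w ∧ Disjoint P' Q' ∧ ∃ b, Jn c b P' Q' :=
  (Classical.choose_spec (bip w)).2 c P Q hP hQ

/-- The standing assumptions on a colouring. -/
structure Ctx [Fintype ι] [DecidableEq ι] (G : SimpleGraph ι) (c : V → V → Bool) (I : Finset ι)
    (W : Finset V) : Prop where
  symm : ∀ x y, c x y = c y x
  indep : ∀ a ∈ I, ∀ a' ∈ I, ¬ G.Adj a a'
  ipos : 0 < I.card
  jpos : 0 < Iᶜ.card
  oe : OE G c Iᶜ.card W

/-- No large `b`-coloured join between a `b`-clique and a `!b`-clique. -/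
def PropP (c : V → V → Bool) (b : Bool) (M : ℕ) (W : Finset V) : Prop :=
  ∀ R ⊆ W, ∀ B ⊆ W, Clq c b R → Clq c (!b) B → Disjoint R B → M ≤ R.card → M ≤ B.card →
    ¬ Jn c b R B

theorem propP [Fintype ι] [DecidableEq ι] [DecidableEq V] {G : SimpleGraph ι}
    {c : V → V → Bool} {I : Finset ι} {W : Finset V} (ctx : Ctx G c I W) (b : Bool)
    {A₁ B₁ : Finset V} (hA₁W : A₁ ⊆ W) (hB₁W : B₁ ⊆ W) (hA₁ : Clq c b A₁)
    (hB₁ : Clq c (!b) B₁) (hAB : Jn c (!b) A₁ B₁) (hd : Disjoint A₁ B₁)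
    (hA₁c : bipM (Fintype.card ι * Fintype.card ι) ≤ A₁.card)
    (hB₁c : bipM (Fintype.card ι * Fintype.card ι) ≤ B₁.card) :
    PropP c b (bipM (Fintype.card ι * Fintype.card ι)) W := by
  classical
  intro R hRW B hBW hR hB hdRB hRc hBc hJ
  have hc := ctx.symm
  have hkk := le_bipM (Fintype.card ι * Fintype.card ι)
  have hk : 0 < Fintype.card ι := by
    have h1 := ctx.ipos
    have h2 := Finset.card_le_univ I
    omega
  have hkk0 : 0 < Fintype.card ι * Fintype.card ι := Nat.mul_pos hk hk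
  obtain ⟨R', hR', B', hB', hR'c, hB'c, hd', d, hd1⟩ :=
    bipM_spec (Fintype.card ι * Fintype.card ι) c R B₁ hRc hB₁c
  have hR'ne : R'.Nonempty := by
    rw [← Finset.card_pos]
    omega
  have hB'ne : B'.Nonempty := by
    rw [← Finset.card_pos]
    omega
  by_cases hdb : d = b
  · -- colour of the join is b
    rw [hdb] at hd1
    have hbb : (!(!b)) = b := Bool.not_not b
    refine configL hc ctx.indep ctx.ipos ctx.jpos ctx.oe (!b) (A := B') (B := R') (Q := A₁)
      (hB'.trans hB₁W) (hR'.trans hRW) hA₁W (hB₁.mono hB') ?_ ?_ ?_ ?_ hd'.symm ?_ ?_ ?_ ?_ ?_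
    · rw [hbb]; exact hR.mono hR'
    · rw [hbb]; exact hA₁
    · rw [hbb]; exact hd1.symm hc
    · exact (hAB.mono (Finset.Subset.refl _) hB').symm hc
    · exact (hd.mono_right hB').symm
    · rw [Finset.disjoint_left]
      intro x hx hx'
      obtain ⟨y, hy⟩ := hB'ne
      have h1 := hd1 x hx y hy
      have h2 := hAB x hx' y (hB' hy)
      rw [h1] at h2
      cases b <;> simp at h2
    · omega
    · omega
    · omega
  · have hdb' : d = !b := by cases b <;> cases d <;> simp_all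
    rw [hdb'] at hd1
    refine configL hc ctx.indep ctx.ipos ctx.jpos ctx.oe b (A := R') (B := B') (Q := B)
      (hR'.trans hRW) (hB'.trans hB₁W) hBW (hR.mono hR') (hB₁.mono hB') hB hd1
      (hJ.mono hR' (Finset.Subset.refl _)) hd' (hdRB.mono_left hR') ?_ ?_ ?_ ?_
    · rw [Finset.disjoint_left]
      intro x hx hx'
      obtain ⟨y, hy⟩ := hR'ne
      have h1 := hd1 y hy x hx
      have h2 := hJ y (hR' hy) x hx'
      rw [h1] at h2
      cases b <;> simp at h2
    · omega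
    · omega
    · omega

/-- Common neighbourhoods in the other colour. -/
theorem common [DecidableEq V] {c : V → V → Bool} (b : Bool) {A Q : Finset V} {θ : ℕ}
    (h : ∀ v ∈ Q, (A.filter (fun a => c v a = b)).card ≤ θ) :
    A.card ≤ (A.filter (fun a => ∀ v ∈ Q, c v a = !b)).card + Q.card * θ := by
  classical
  have h1 : A ⊆ A.filter (fun a => ∀ v ∈ Q, c v a = !b) ∪
      Q.biUnion (fun v => A.filter (fun a => c v a = b)) := by
    intro a ha
    by_cases h : ∀ v ∈ Q, c v a = !b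
    · exact Finset.mem_union_left _ (Finset.mem_filter.mpr ⟨ha, h⟩)
    · push Not at h
      obtain ⟨v, hv, hva⟩ := h
      refine Finset.mem_union_right _ (Finset.mem_biUnion.mpr ⟨v, hv, Finset.mem_filter.mpr
        ⟨ha, ?_⟩⟩)
      cases h : c v a <;> cases b <;> simp_all
  refine (Finset.card_le_card h1).trans ((Finset.card_union_le _ _).trans ?_)
  refine Nat.add_le_add_left (Finset.card_biUnion_le.trans ?_) _
  rw [← smul_eq_mul]
  exact Finset.sum_le_card_nsmul _ _ _ h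

theorem A2_noclq [DecidableEq V] {c : V → V → Bool} (hc : ∀ x y, c x y = c y x) {b : Bool}
    {M k θ : ℕ} {W : Finset V} (hP : PropP c b M W) {A₁ A₂ : Finset V} (hA₁W : A₁ ⊆ W)
    (hA₂W : A₂ ⊆ W) (hA₁ : Clq c b A₁) (hd : Disjoint A₁ A₂) (hA₁c : A₁.card = 2 * k * k * θ)
    (hbig : (4 * k * k * M) * 2 ^ (4 * k * k * M) ≤ A₁.card) (hM : 0 < M) (hk : 0 < k)
    (hA₂ : ∀ v ∈ A₂, θ ≤ (A₁.filter (fun a => c v a = b)).card) :
    NoClq c (!b) (4 * k * k * M) A₂ := by
  classical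
  intro Q hQ hQc hQq
  have hQpos : 0 < Q.card := by
    rw [hQc]; positivity
  obtain ⟨A', hA', Q', hQ', hA'c, hQ'c, hJ⟩ := dens hc b (A := A₁) (Q := Q) (w := M) (θ := θ)
    (fun v hv => hA₂ v (hQ hv)) (by rw [hA₁c, hQc]; exact le_of_eq (by ring))
    (by rw [hQc]; exact hbig) hQpos
  exact hP A' (hA'.trans hA₁W) Q' ((hQ'.trans hQ).trans hA₂W) (hA₁.mono hA') (hQq.mono hQ')
    (hd.mono hA' (hQ'.trans hQ)) hA'c.ge hQ'c.ge hJ

theorem X_noclq [Fintype ι] [DecidableEq ι] [DecidableEq V] {G : SimpleGraph ι}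
    {c : V → V → Bool} {I : Finset ι} {W : Finset V} (ctx : Ctx G c I W) {b : Bool} {M : ℕ}
    (hP : PropP c b M W) (hM : Fintype.card ι * Fintype.card ι ≤ M)
    {A₁ B₁ X : Finset V} (hA₁W : A₁ ⊆ W) (hB₁W : B₁ ⊆ W) (hXW : X ⊆ W)
    (hA₁ : Clq c b A₁) (hB₁ : Clq c (!b) B₁) (hAB : Jn c (!b) A₁ B₁)
    (hdAB : Disjoint A₁ B₁) (hdAX : Disjoint A₁ X) {θ : ℕ}
    (hX : ∀ v ∈ X, (A₁.filter (fun a => c v a = b)).card ≤ θ) (hB₁c : bipM M ≤ B₁.card)
    (hA₁c : Fintype.card ι * Fintype.card ι + Fintype.card ι * θ ≤ A₁.card) :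
    NoClq c b (bipM M) X := by
  classical
  intro Q hQ hQc hQq
  have hc := ctx.symm
  have hk : 0 < Fintype.card ι := by
    have h1 := ctx.ipos
    have h2 := Finset.card_le_univ I
    omega
  obtain ⟨Q', hQ', B', hB', hQ'c, hB'c, hd', d, hd1⟩ := bipM_spec M c Q B₁ hQc.ge hB₁c
  by_cases hdb : d = b
  · rw [hdb] at hd1
    exact hP Q' ((hQ'.trans hQ).trans hXW) B' (hB'.trans hB₁W) (hQq.mono hQ') (hB₁.mono hB') hd'
      hQ'c.ge hB'c.ge hd1
  · have hdb' : d = !b := by cases b <;> cases d <;> simp_all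
    rw [hdb'] at hd1
    have hkk : Fintype.card ι ≤ Fintype.card ι * Fintype.card ι := Nat.le_mul_of_pos_left _ hk
    obtain ⟨Q₂, hQ₂, hQ₂c⟩ := Finset.exists_subset_card_eq (s := Q') (n := Fintype.card ι)
      (by omega)
    have h1 := common (c := c) b (A := A₁) (Q := Q₂) (θ := θ)
      (fun v hv => hX v (hQ (hQ' (hQ₂ hv))))
    rw [hQ₂c] at h1
    set A' := A₁.filter (fun a => ∀ v ∈ Q₂, c v a = !b) with hA'
    have hA'A : A' ⊆ A₁ := Finset.filter_subset _ _
    refine configL2 hc ctx.indep ctx.ipos ctx.jpos ctx.oe b (A := A') (B := B') (Q := Q₂)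
      (hA'A.trans hA₁W) (hB'.trans hB₁W) ((hQ₂.trans (hQ'.trans hQ)).trans hXW)
      (hA₁.mono hA'A) (hB₁.mono hB') (hQq.mono (hQ₂.trans hQ')) (hAB.mono hA'A hB') ?_
      (hd1.mono hQ₂ (Finset.Subset.refl _)) (hdAB.mono hA'A hB')
      (hdAX.mono hA'A (hQ₂.trans (hQ'.trans hQ))) (hd'.mono_left hQ₂).symm ?_ ?_ ?_
    · intro x hx y hy
      rw [hc]
      exact (Finset.mem_filter.mp hx).2 y hy
    · omega
    · omega
    · omega

theorem iterRamsey (b : Bool) (q y : ℕ) (S : Finset ι) : ∃ C : ℕ, ∀ {L : Type}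
    (d : ι → L → L → Bool), (∀ a x y, d a x y = d a y x) → ∀ Λ : Finset L,
      (∀ a ∈ S, NoClq (d a) b q Λ) → C ≤ Λ.card →
      ∃ Λ' ⊆ Λ, Λ'.card = y ∧ ∀ a ∈ S, Clq (d a) (!b) Λ' := by
  classical
  induction S using Finset.induction_on with
  | empty =>
    refine ⟨y, fun {L} d hd Λ _ hΛ => ?_⟩
    obtain ⟨Λ', h1, h2⟩ := Finset.exists_subset_card_eq hΛ
    exact ⟨Λ', h1, h2, by simp⟩
  | insert a S ha ih =>
    obtain ⟨C, hC⟩ := ih
    obtain ⟨R, hR⟩ := ramsey' b q C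
    refine ⟨R, fun {L} d hd Λ hno hΛ => ?_⟩
    rcases hR (d a) (hd a) Λ hΛ with ⟨T, hT, hTc, hTq⟩ | ⟨T, hT, hTc, hTq⟩
    · exact absurd hTq (hno a (Finset.mem_insert_self _ _) T hT hTc)
    · obtain ⟨Λ', h1, h2, h3⟩ := hC d hd T
        (fun a' ha' => (hno a' (Finset.mem_insert_of_mem ha')).mono hT) hTc.ge
      refine ⟨Λ', h1.trans hT, h2, ?_⟩
      intro a' ha'
      rcases Finset.mem_insert.mp ha' with rfl | ha'
      · exact hTq.mono h1
      · exact h3 a' ha'

/-- Families of disjoint partial copies in the far part are bounded. -/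
theorem fam_bound [Fintype ι] [DecidableEq ι] (G : SimpleGraph ι) (I : Finset ι) (q : ℕ) :
    ∃ C₁ : ℕ, ∀ {V : Type} [DecidableEq V] (c : V → V → Bool) (W : Finset V),
      Ctx G c I W → ∀ (b : Bool) (A₁ X : Finset V) (θ : ℕ), A₁ ⊆ W → X ⊆ W → Clq c b A₁ →
      Disjoint A₁ X → (∀ v ∈ X, (A₁.filter (fun a => c v a = b)).card ≤ θ) →
      Fintype.card ι * Fintype.card ι + (Fintype.card ι * Fintype.card ι) * θ ≤ A₁.card →
      NoClq c b q X → ∀ (m : ℕ) (S : Fin m → Finset ι) (φ : Fin m → ι → V),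
        PFam G c b X m S φ → m ≤ C₁ := by
  classical
  have h0 : ∀ (b : Bool) (S : Finset ι), ∃ C : ℕ, ∀ {L : Type}
    (d : ι → L → L → Bool), (∀ a x y, d a x y = d a y x) → ∀ Λ : Finset L,
      (∀ a ∈ S, NoClq (d a) b q Λ) → C ≤ Λ.card →
      ∃ Λ' ⊆ Λ, Λ'.card = Iᶜ.card ∧ ∀ a ∈ S, Clq (d a) (!b) Λ' :=
    fun b S => iterRamsey b q Iᶜ.card S
  choose C hC using h0
  set C₀ : ℕ := ∑ S : Finset ι, (C true S + C false S) with hC₀
  have hCle : ∀ b S, C b S ≤ C₀ := by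
    intro b S
    have h1 : C true S + C false S ≤ C₀ :=
      Finset.single_le_sum (f := fun S => C true S + C false S) (fun _ _ => Nat.zero_le _)
        (Finset.mem_univ S)
    cases b <;> omega
  refine ⟨Fintype.card (Finset ι) * C₀, fun {V} _ c W ctx b A₁ X θ hA₁W hXW hA₁ hdAX hX hA₁c hno
    m S φ hfam => ?_⟩
  by_contra hcon
  push Not at hcon
  have hc := ctx.symm
  obtain ⟨S₀, hS₀⟩ : ∃ S₀ : Finset ι, C₀ ≤ (Finset.univ.filter (fun l => S l = S₀)).card := by
    have hn : Fintype.card (Finset ι) * C₀ ≤ Fintype.card (Fin m) := by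
      rw [Fintype.card_fin]; exact hcon.le
    exact Fintype.exists_le_card_fiber_of_mul_le_card S hn
  set Λ := Finset.univ.filter (fun l => S l = S₀) with hΛ
  have hΛm : ∀ l ∈ Λ, S l = S₀ := fun l hl => (Finset.mem_filter.mp hl).2
  have hnoΛ : ∀ a ∈ S₀, NoClq ((fun a l l' => c (φ l a) (φ l' a)) a) b q Λ := by
    intro a ha T hT hTc hTq
    refine hno (T.image (fun l => φ l a)) ?_ ?_ ?_
    · intro x hx
      obtain ⟨l, hl, rfl⟩ := Finset.mem_image.mp hx
      exact hfam.mem l a (by rw [hΛm l (hT hl)]; exact ha)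
    · rw [Finset.card_image_of_injOn, hTc]
      intro l hl l' hl' h
      exact (hfam.inj l a (by rw [hΛm l (hT hl)]; exact ha) l' a
        (by rw [hΛm l' (hT hl')]; exact ha) h).1
    · intro x hx y hy hxy
      obtain ⟨l, hl, rfl⟩ := Finset.mem_image.mp hx
      obtain ⟨l', hl', rfl⟩ := Finset.mem_image.mp hy
      exact hTq l hl l' hl' (fun h => hxy (by rw [h]))
  obtain ⟨Λ', hΛ', hΛ'c, hclq⟩ := hC b S₀ (fun a l l' => c (φ l a) (φ l' a))
    (fun a l l' => hc _ _) Λ hnoΛ ((hCle b S₀).trans hS₀)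
  have hΛ'm : ∀ l ∈ Λ', S l = S₀ := fun l hl => hΛm l (hΛ' hl)
  have hjpos := ctx.jpos
  have hΛne : Λ'.Nonempty := by
    rw [← Finset.card_pos, hΛ'c]; exact hjpos
  obtain ⟨l₀, hl₀⟩ := hΛne
  have hS₀cl : Closed G S₀ := by
    have := hfam.closed l₀
    rwa [hΛ'm l₀ hl₀] at this
  have hS₀ne : S₀.Nonempty := by
    have := hfam.nonempty l₀
    rwa [hΛ'm l₀ hl₀] at this
  set U := Λ'.biUnion (fun l => S₀.image (φ l)) with hU
  have hUX : U ⊆ X := by
    intro x hx
    obtain ⟨l, hl, hx⟩ := Finset.mem_biUnion.mp hx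
    obtain ⟨a, ha, rfl⟩ := Finset.mem_image.mp hx
    exact hfam.mem l a (by rw [hΛ'm l hl]; exact ha)
  have hUc : U.card ≤ Fintype.card ι * Fintype.card ι := by
    refine Finset.card_biUnion_le.trans ?_
    calc ∑ l ∈ Λ', (S₀.image (φ l)).card ≤ ∑ l ∈ Λ', Fintype.card ι :=
          Finset.sum_le_sum (fun l _ => Finset.card_image_le.trans (Finset.card_le_univ _))
      _ = Iᶜ.card * Fintype.card ι := by rw [Finset.sum_const, hΛ'c, smul_eq_mul]
      _ ≤ _ := Nat.mul_le_mul_right _ (Finset.card_le_univ _)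
  have h1 := common (c := c) b (A := A₁) (Q := U) (θ := θ) (fun v hv => hX v (hUX hv))
  set A' := A₁.filter (fun a => ∀ v ∈ U, c v a = !b) with hA'
  have hA'A : A' ⊆ A₁ := Finset.filter_subset _ _
  have h2 : U.card * θ ≤ (Fintype.card ι * Fintype.card ι) * θ := Nat.mul_le_mul_right _ hUc
  have hmemU : ∀ l ∈ Λ', ∀ a ∈ S₀, φ l a ∈ U := fun l hl a ha =>
    Finset.mem_biUnion.mpr ⟨l, hl, Finset.mem_image.mpr ⟨a, ha, rfl⟩⟩
  refine configL3 hc ctx.indep ctx.ipos ctx.jpos ctx.oe b hS₀cl hS₀ne hΛ'c (φ := φ) ?_ ?_ ?_ ?_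
    (hA'A.trans hA₁W) (hA₁.mono hA'A) ?_ ?_ ?_
  · exact fun l hl a ha => hXW (hUX (hmemU l hl a ha))
  · intro l hl a ha l' hl' a' ha' h
    exact hfam.inj l a (by rw [hΛ'm l hl]; exact ha) l' a' (by rw [hΛ'm l' hl']; exact ha') h
  · intro l hl a ha a' ha' hadj
    exact hfam.col l a (by rw [hΛ'm l hl]; exact ha) a' (by rw [hΛ'm l hl]; exact ha') hadj
  · intro a ha l hl l' hl' hll
    exact hclq a ha l hl l' hl' hll
  · intro l hl a ha h
    exact Finset.disjoint_left.mp hdAX (hA'A h) (hUX (hmemU l hl a ha))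
  · intro x hx l hl a ha
    rw [hc]
    exact (Finset.mem_filter.mp hx).2 _ (hmemU l hl a ha)
  · omega

/-- The near part and the family of partial copies together contain all copies that fit. -/
theorem fill [Fintype ι] [DecidableEq ι] [DecidableEq V] {G : SimpleGraph ι}
    (hk : 0 < Fintype.card ι) {c : V → V → Bool} (hc : ∀ x y, c x y = c y x) {b : Bool}
    {q R C₁ θ n m : ℕ}
    (hR : ∀ W : Finset V, NoClq c (!b) q W → ∃ z : ℕ, ∃ W' ⊆ W, W'.card = z * Fintype.card ι ∧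
        Cop G c b z W' ∧ (W \ W').card < R)
    {A₁ A₂ X : Finset V} (hA₁ : Clq c b A₁) (hd : Disjoint A₁ A₂)
    {S : Fin m → Finset ι} {φ : Fin m → ι → V} (hfam : PFam G c b X m S φ)
    (hX1 : Disjoint A₁ X) (hX2 : Disjoint A₂ X) (hno : NoClq c (!b) q A₂)
    (hA₂ : ∀ v ∈ A₂, θ ≤ (A₁.filter (fun a => c v a = b)).card)
    (hθ : (Fintype.card ι - 1) * R ≤ θ) (hA₁c : Fintype.card ι * (R + C₁) ≤ A₁.card)
    (hm : m ≤ C₁) (hmn : m ≤ n)
    (htot : Fintype.card ι * n ≤ A₁.card + A₂.card + (cov S φ).card) :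
    Cop G c b n (A₁ ∪ A₂ ∪ cov S φ) := by
  classical
  set k := Fintype.card ι with hkdef
  have hcovX : cov S φ ⊆ X := by
    intro x hx
    obtain ⟨l, a, ha, rfl⟩ := mem_cov.mp hx
    exact hfam.mem l a ha
  have hdc1 : Disjoint A₁ (cov S φ) := hX1.mono_right hcovX
  have hdc2 : Disjoint A₂ (cov S φ) := hX2.mono_right hcovX
  obtain ⟨z, A', hA', hA'c, hcop, hrest⟩ := hR A₂ hno
  have hL : (A₂ \ A').card + A'.card = A₂.card := Finset.card_sdiff_add_card_eq_card hA'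
  have hdist : Fintype.card ι * (R + C₁) = k * R + k * C₁ := by rw [← hkdef]; ring
  rw [hdist] at hA₁c
  have hmC : m * k ≤ k * C₁ := by
    rw [mul_comm]; exact Nat.mul_le_mul_left _ hm
  rcases le_or_gt (n - m) z with hz | hz
  · have h1 : Cop G c b m (cov S φ ∪ A₁) :=
      hfam.complete hA₁ hdc1.symm (by rw [← hkdef]; omega)
    have h2 := (hcop.le hz).add h1 (by
      rw [Finset.disjoint_union_right]
      exact ⟨hdc2.mono_left hA', (hd.mono_right hA').symm⟩)
    have h3 : n - m + m = n := by omega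
    rw [h3] at h2
    refine h2.mono ?_
    intro x hx
    simp only [Finset.mem_union] at hx ⊢
    rcases hx with hx | hx | hx
    · exact Or.inl (Or.inr (hA' hx))
    · exact Or.inr hx
    · exact Or.inl (Or.inl hx)
  · obtain ⟨r, hr⟩ : ∃ r, n = z + r + m := ⟨n - m - z, by omega⟩
    set ℓ := min r (A₂ \ A').card with hℓ
    obtain ⟨L₀, hL₀, hL₀c⟩ := Finset.exists_subset_card_eq (s := A₂ \ A') (n := ℓ)
      (min_le_right _ _)
    have hL₀A₂ : L₀ ⊆ A₂ := hL₀.trans Finset.sdiff_subset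
    have hℓR : ℓ ≤ R := (min_le_right _ _).trans hrest.le
    obtain ⟨D, hD, hDc, hcopD⟩ := absorb G hc b hk hA₁ L₀ (hd.symm.mono_left hL₀A₂) (by
      intro v hv
      rw [hL₀c]
      exact (Nat.mul_le_mul_left _ hℓR).trans (hθ.trans (hA₂ v (hL₀A₂ hv))))
    rw [hL₀c] at hDc hcopD
    have hnk : Fintype.card ι * n = z * k + r * k + m * k := by rw [← hkdef, hr]; ring
    rw [hnk] at htot
    -- the key count
    have hcount : (k - 1) * ℓ + (r - ℓ) * k + m * k ≤ (cov S φ).card + A₁.card := by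
      have hℓr : ℓ ≤ r := min_le_left _ _
      have e1 : (k - 1) * ℓ + ℓ = k * ℓ := by
        obtain ⟨k', hk'⟩ : ∃ k', k = k' + 1 := ⟨k - 1, by omega⟩
        rw [hk']; simp; ring
      have e2 : (r - ℓ) * k + ℓ * k = r * k := by
        rw [← add_mul]
        congr 1
        omega
      have e3 : k * ℓ = ℓ * k := mul_comm _ _
      rcases le_total r (A₂ \ A').card with h | h
      · have h1 : ℓ = r := min_eq_left h
        have h2 : k * ℓ ≤ k * R := Nat.mul_le_mul_left _ hℓR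
        have h3 : r - ℓ = 0 := by omega
        rw [h3, zero_mul]
        omega
      · have h1 : ℓ = (A₂ \ A').card := min_eq_right h
        omega
    have hA₁D : (A₁ \ D).card = A₁.card - (k - 1) * ℓ := by
      rw [Finset.card_sdiff_of_subset hD, hDc]
    have hcovc : (cov S φ).card ≤ m * k := by
      rw [hfam.card_cov]
      calc ∑ l, (S l).card ≤ ∑ _l : Fin m, k :=
            Finset.sum_le_sum (fun l _ => Finset.card_le_univ _)
        _ = m * k := by simp
    obtain ⟨E, hE, hEc⟩ := Finset.exists_subset_card_eq (s := A₁ \ D) (n := (r - ℓ) * k) (by omega)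
    have hEA : E ⊆ A₁ := hE.trans Finset.sdiff_subset
    have h1 : Cop G c b (r - ℓ) E := Cop.of_clique (hA₁.mono hEA) hEc.ge
    have hEc2 : ((A₁ \ D) \ E).card = A₁.card - (k - 1) * ℓ - (r - ℓ) * k := by
      rw [Finset.card_sdiff_of_subset hE, hA₁D, hEc]
    have hsub2 : (A₁ \ D) \ E ⊆ A₁ := Finset.sdiff_subset.trans Finset.sdiff_subset
    have h2 : Cop G c b m (cov S φ ∪ ((A₁ \ D) \ E)) := by
      refine hfam.complete (hA₁.mono hsub2) (hdc1.mono_left hsub2).symm ?_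
      rw [hEc2, ← hkdef]
      omega
    have d1 : Disjoint (L₀ ∪ D) E := by
      rw [Finset.disjoint_union_left]
      refine ⟨(hd.mono hEA hL₀A₂).symm, ?_⟩
      rw [Finset.disjoint_right]
      intro x hx
      exact (Finset.mem_sdiff.mp (hE hx)).2
    have h3 := hcopD.add h1 d1
    have d2 : Disjoint (L₀ ∪ D ∪ E) (cov S φ ∪ ((A₁ \ D) \ E)) := by
      rw [Finset.disjoint_union_left, Finset.disjoint_union_left]
      refine ⟨⟨?_, ?_⟩, ?_⟩
      · rw [Finset.disjoint_union_right]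
        exact ⟨hdc2.mono_left hL₀A₂, (hd.mono hsub2 hL₀A₂).symm⟩
      · rw [Finset.disjoint_union_right]
        refine ⟨hdc1.mono_left hD, ?_⟩
        rw [Finset.disjoint_right]
        intro x hx
        exact (Finset.mem_sdiff.mp (Finset.mem_sdiff.mp hx).1).2
      · rw [Finset.disjoint_union_right]
        exact ⟨hdc1.mono_left hEA, Finset.disjoint_sdiff⟩
    have h4 := h3.add h2 d2
    have d3 : Disjoint A' (L₀ ∪ D ∪ E ∪ (cov S φ ∪ ((A₁ \ D) \ E))) := by
      have hA'1 : Disjoint A' A₁ := (hd.mono_right hA').symm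
      simp only [Finset.disjoint_union_right]
      refine ⟨⟨⟨?_, hA'1.mono_right hD⟩, hA'1.mono_right hEA⟩, hdc2.mono_left hA',
        hA'1.mono_right hsub2⟩
      rw [Finset.disjoint_right]
      intro x hx
      exact (Finset.mem_sdiff.mp (hL₀ hx)).2
    have h5 := hcop.add h4 d3
    have h6 : z + (ℓ + (r - ℓ) + m) = n := by
      have hℓr : ℓ ≤ r := min_le_left _ _
      omega
    rw [h6] at h5
    refine h5.mono ?_
    intro x hx
    simp only [Finset.mem_union] at hx ⊢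
    rcases hx with hx | ((hx | hx) | hx) | hx | hx
    · exact Or.inl (Or.inr (hA' hx))
    · exact Or.inl (Or.inr (hL₀A₂ hx))
    · exact Or.inl (Or.inl (hD hx))
    · exact Or.inl (Or.inl (hEA hx))
    · exact Or.inr hx
    · exact Or.inl (Or.inl (hsub2 hx))

/-- Removing efficient copies in the colour `!b`. -/
theorem removal [Fintype ι] [DecidableEq ι] (G : SimpleGraph ι) {I : Finset ι}
    (hI : ∀ a ∈ I, ∀ a' ∈ I, ¬ G.Adj a a') (M q : ℕ) (hM : Fintype.card ι ≤ M) :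
    ∃ M₃ : ℕ, ∀ {V : Type} [DecidableEq V] (c : V → V → Bool), (∀ x y, c x y = c y x) →
      ∀ (b : Bool) (W A₂ X : Finset V), PropP c b M W → A₂ ⊆ W → X ⊆ W → Disjoint A₂ X →
      NoClq c (!b) q A₂ → NoClq c b (bipM M) X → ∀ y : ℕ,
      (y = 0 ∨ M₃ + I.card * y ≤ A₂.card) → (y = 0 ∨ M₃ + Iᶜ.card * y ≤ X.card) →
      ∃ YA ⊆ A₂, ∃ YX ⊆ X, YA.card = I.card * y ∧ YX.card = Iᶜ.card * y ∧
        Cop G c (!b) y (YA ∪ YX) := by
  classical
  obtain ⟨Ra, hRa⟩ := ramsey' true (bipM M) q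
  obtain ⟨Rb, hRb⟩ := ramsey' false (bipM M) q
  obtain ⟨Rc, hRc⟩ := ramsey' true (bipM M) (bipM M)
  refine ⟨Ra + Rb + Rc, fun {V} _ c hc b W A₂ X hP hA₂W hXW hd hnoA hnoX y => ?_⟩
  have hgetA : ∀ A' ⊆ A₂, Ra + Rb ≤ A'.card → ∃ S ⊆ A', S.card = bipM M ∧ Clq c b S := by
    intro A' hA' hA'c
    cases b
    · rcases hRb c hc A' (by omega) with h | ⟨S, hS, hSc, hSq⟩
      · exact h
      · exact absurd hSq (hnoA S (hS.trans hA') hSc)
    · rcases hRa c hc A' (by omega) with h | ⟨S, hS, hSc, hSq⟩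
      · exact h
      · exact absurd hSq (hnoA S (hS.trans hA') hSc)
  have hgetX : ∀ X' ⊆ X, Rc ≤ X'.card → ∃ S ⊆ X', S.card = bipM M ∧ Clq c (!b) S := by
    intro X' hX' hX'c
    cases b
    · rcases hRc c hc X' hX'c with h | ⟨S, hS, hSc, hSq⟩
      · exact h
      · exact absurd hSq (hnoX S (hS.trans hX') hSc)
    · rcases hRc c hc X' hX'c with ⟨S, hS, hSc, hSq⟩ | h
      · exact absurd hSq (hnoX S (hS.trans hX') hSc)
      · exact h
  induction y with
  | zero =>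
    intro _ _
    exact ⟨∅, Finset.empty_subset _, ∅, Finset.empty_subset _, by simp, by simp, Cop.zero _⟩
  | succ y ih =>
    intro h1 h2
    have h1' : Ra + Rb + Rc + I.card * (y + 1) ≤ A₂.card := by
      rcases h1 with h | h
      · omega
      · exact h
    have h2' : Ra + Rb + Rc + Iᶜ.card * (y + 1) ≤ X.card := by
      rcases h2 with h | h
      · omega
      · exact h
    rw [mul_add, mul_one] at h1' h2'
    obtain ⟨YA, hYA, YX, hYX, hYAc, hYXc, hcop⟩ := ih (Or.inr (by omega)) (Or.inr (by omega))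
    obtain ⟨P, hP1, hPc, hPq⟩ := hgetA (A₂ \ YA) Finset.sdiff_subset (by
      rw [Finset.card_sdiff_of_subset hYA]; omega)
    obtain ⟨Q, hQ1, hQc, hQq⟩ := hgetX (X \ YX) Finset.sdiff_subset (by
      rw [Finset.card_sdiff_of_subset hYX]; omega)
    obtain ⟨P', hP', Q', hQ', hP'c, hQ'c, hdPQ, d, hd1⟩ := bipM_spec M c P Q hPc.ge hQc.ge
    have hPA : P' ⊆ A₂ := (hP'.trans hP1).trans Finset.sdiff_subset
    have hQX : Q' ⊆ X := (hQ'.trans hQ1).trans Finset.sdiff_subset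
    have hdb : d = !b := by
      by_contra hne
      have hdb : d = b := by cases b <;> cases d <;> simp_all
      rw [hdb] at hd1
      exact hP P' (hPA.trans hA₂W) Q' (hQX.trans hXW) (hPq.mono hP') (hQq.mono hQ') hdPQ
        hP'c.ge hQ'c.ge hd1
    rw [hdb] at hd1
    obtain ⟨P₂, hP₂, hP₂c⟩ := Finset.exists_subset_card_eq (s := P') (n := I.card) (by
      have := Finset.card_le_univ I
      omega)
    obtain ⟨Q₂, hQ₂, hQ₂c⟩ := Finset.exists_subset_card_eq (s := Q') (n := Iᶜ.card) (by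
      have := Finset.card_le_univ Iᶜ
      omega)
    have hnew : Cop G c (!b) 1 (P₂ ∪ Q₂) := by
      refine Cop.of_two I hI hc (hdPQ.mono hP₂ hQ₂) ?_ ?_ (hQq.mono (hQ₂.trans hQ'))
        (hd1.mono hP₂ hQ₂)
      · rw [hP₂c, one_mul]
      · rw [hQ₂c, one_mul]
    have dA : Disjoint YA P₂ := by
      rw [Finset.disjoint_right]
      intro x hx
      exact (Finset.mem_sdiff.mp (hP1 (hP' (hP₂ hx)))).2
    have dX : Disjoint YX Q₂ := by
      rw [Finset.disjoint_right]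
      intro x hx
      exact (Finset.mem_sdiff.mp (hQ1 (hQ' (hQ₂ hx)))).2
    refine ⟨YA ∪ P₂, Finset.union_subset hYA (hP₂.trans hPA), YX ∪ Q₂,
      Finset.union_subset hYX (hQ₂.trans hQX), ?_, ?_, ?_⟩
    · rw [Finset.card_union_of_disjoint dA, hYAc, hP₂c]; ring
    · rw [Finset.card_union_of_disjoint dX, hYXc, hQ₂c]; ring
    · refine (hcop.add hnew ?_).mono ?_
      · rw [Finset.disjoint_union_left, Finset.disjoint_union_right, Finset.disjoint_union_right]
        exact ⟨⟨dA, hd.mono hYA (hQ₂.trans hQX)⟩, (hd.mono (hP₂.trans hPA) hYX).symm, dX⟩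
      · intro x hx
        simp only [Finset.mem_union] at hx ⊢
        tauto

end Pool.Agent.H56.RT
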