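import Pool.Agent.H56.RTTools

/-! The Ramsey number of `nG` and its linear behaviour. -/

set_option autoImplicit false

namespace Pool.Agent.H56.RT

variable {ι : Type} {V : Type}

theorem greedy' [Fintype ι] (G : SimpleGraph ι) (hk : 0 < Fintype.card ι) (b : Bool) (q : ℕ) :
    ∃ R : ℕ, ∀ {V : Type} [DecidableEq V] (c : V → V → Bool), (∀ x y, c x y = c y x) →
      ∀ (W : Finset V) (s : ℕ), NoClq c (!b) q W → s * Fintype.card ι + R ≤ W.card →
        Cop G c b s W := by
  obtain ⟨R, hR⟩ := greedy G hk b q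
  refine ⟨R, fun {V} _ c hc W s hno hcard => ?_⟩
  obtain ⟨z, W', hW', hW'c, hcop, hrest⟩ := hR c hc W hno
  have h1 : (W \ W').card + W'.card = W.card := Finset.card_sdiff_add_card_eq_card hW'
  have h2 : s ≤ z := by
    by_contra h
    push Not at h
    have : z * Fintype.card ι ≤ s * Fintype.card ι := Nat.mul_le_mul_right _ h.le
    omega
  exact (hcop.le h2).mono hW'

/-- `K_N → nG`. -/
def Arr (G : SimpleGraph ι) (N n : ℕ) : Prop :=
  ∀ c : Fin N → Fin N → Bool, (∀ x y, c x y = c y x) → ∃ b, Cop G c b n Finset.univ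

/-- The Ramsey number `r(nG)`. -/
noncomputable def RN (G : SimpleGraph ι) (n : ℕ) : ℕ := sInf {N | Arr G N n}

theorem exists_arr [Fintype ι] (G : SimpleGraph ι) (n : ℕ) : ∃ N, Arr G N n := by
  obtain ⟨R, hR⟩ := ramsey (n * Fintype.card ι) (n * Fintype.card ι)
  refine ⟨R, fun c hc => ?_⟩
  rcases hR c hc Finset.univ (by simp) with ⟨S, -, hSc, hSq⟩ | ⟨S, -, hSc, hSq⟩
  · exact ⟨true, (Cop.of_clique hSq hSc.ge).mono (Finset.subset_univ _)⟩
  · exact ⟨false, (Cop.of_clique hSq hSc.ge).mono (Finset.subset_univ _)⟩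

theorem arr_RN [Fintype ι] (G : SimpleGraph ι) (n : ℕ) : Arr G (RN G n) n :=
  Nat.sInf_mem (exists_arr G n)

theorem RN_le {G : SimpleGraph ι} {N n : ℕ} (h : Arr G N n) : RN G n ≤ N := Nat.sInf_le h

theorem Arr.apply {G : SimpleGraph ι} {N n : ℕ} (h : Arr G N n) (c : V → V → Bool)
    (hc : ∀ x y, c x y = c y x) (W : Finset V) (hW : N ≤ W.card) : ∃ b, Cop G c b n W := by
  classical
  have h1 : Fintype.card (Fin N) ≤ Fintype.card W := by simpa using hW
  obtain ⟨e⟩ := Function.Embedding.nonempty_of_card_le h1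
  obtain ⟨b, f, -, h3, h4⟩ := h (fun x y => c (e x) (e y)) (fun x y => hc _ _)
  refine ⟨b, fun l a => (e (f l a) : V), fun l a => (e (f l a)).2, ?_, h4⟩
  intro l a l' a' h5
  exact h3 l a l' a' (e.injective (Subtype.ext h5))

/-- Lower bound `(k + j) n ≤ r(nG) + 1` where `j = k - α(G)`, for graphs without isolated
vertices. -/
theorem lower [Fintype ι] {G : SimpleGraph ι} (hiso : ∀ a, ∃ a', G.Adj a a') {i j : ℕ}
    (hij : i + j = Fintype.card ι)
    (hi : ∀ S : Finset ι, (∀ a ∈ S, ∀ a' ∈ S, ¬ G.Adj a a') → S.card ≤ i) (hj : 0 < j) (n : ℕ) :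
    (Fintype.card ι + j) * n ≤ RN G n + 1 := by
  classical
  by_contra hcon
  push Not at hcon
  set k := Fintype.card ι with hk
  set M := RN G n with hM
  have hn : 0 < n := by
    rcases Nat.eq_zero_or_pos n with h | h
    · rw [h] at hcon
      omega
    · exact h
  have hk0 : 0 < k := by omega
  obtain ⟨b, f, -, h2, h3⟩ := arr_RN G n
    (fun x y => decide (x.val + 1 < k * n ∧ y.val + 1 < k * n))
    (fun x y => by simp only [and_comm])
  cases b
  · -- blue copies
    have hS : ∀ l : Fin n, (Finset.univ.filter (fun a => (f l a).val + 1 < k * n)).card ≤ i := by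
      intro l
      refine hi _ (fun a ha a' ha' hadj => ?_)
      have := h3 l a a' hadj
      simp only [Finset.mem_filter, Finset.mem_univ, true_and] at ha ha'
      simp [ha, ha'] at this
    have hS' : ∀ l : Fin n, j ≤ (Finset.univ.filter (fun a => ¬ (f l a).val + 1 < k * n)).card := by
      intro l
      have h4 := Finset.card_filter_add_card_filter_not (s := (Finset.univ : Finset ι))
        (fun a => (f l a).val + 1 < k * n)
      have h5 := hS l
      rw [Finset.card_univ] at h4
      omega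
    have hsum : n * j ≤ (Finset.univ.filter
        (fun p : Fin n × ι => ¬ (f p.1 p.2).val + 1 < k * n)).card := by
      have h4 : (Finset.univ.filter
          (fun p : Fin n × ι => ¬ (f p.1 p.2).val + 1 < k * n)).card =
          ∑ l : Fin n, (Finset.univ.filter (fun a => ¬ (f l a).val + 1 < k * n)).card := by
        simp only [Finset.card_filter]
        rw [← Finset.univ_product_univ, Finset.sum_product]
      rw [h4]
      calc n * j = ∑ _l : Fin n, j := by simp
        _ ≤ _ := Finset.sum_le_sum (fun l _ => hS' l)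
    have hinj : (Finset.univ.filter
        (fun p : Fin n × ι => ¬ (f p.1 p.2).val + 1 < k * n)).card ≤
        (Finset.range (M + 1 - k * n)).card := by
      refine Finset.card_le_card_of_injOn (fun p => (f p.1 p.2).val + 1 - k * n) ?_ ?_
      · intro p hp
        simp only [Finset.coe_filter, Finset.mem_univ, true_and, Set.mem_ofPred_eq, not_lt] at hp
        simp only [Finset.coe_range, Set.mem_Iio]
        have := (f p.1 p.2).2
        omega
      · intro p hp q hq hpq
        simp only [Finset.coe_filter, Finset.mem_univ, true_and, Set.mem_ofPred_eq, not_lt] at hp hq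
        simp only at hpq
        have h6 : f p.1 p.2 = f q.1 q.2 := by
          apply Fin.ext
          omega
        obtain ⟨h7, h8⟩ := h2 _ _ _ _ h6
        exact Prod.ext h7 h8
    rw [Finset.card_range] at hinj
    have h7 : (k + j) * n = k * n + n * j := by ring
    have h8 : 0 < n * j := Nat.mul_pos hn hj
    omega
  · -- red copies
    have hall : ∀ l a, (f l a).val + 1 < k * n := by
      intro l a
      obtain ⟨a', ha'⟩ := hiso a
      have := h3 l a a' ha'
      simp only [decide_eq_true_eq] at this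
      exact this.1
    have hinj : (Finset.univ : Finset (Fin n × ι)).card ≤ (Finset.range (k * n - 1)).card := by
      refine Finset.card_le_card_of_injOn (fun p => (f p.1 p.2).val) ?_ ?_
      · intro p _
        simp only [Finset.coe_range, Set.mem_Iio]
        have := hall p.1 p.2
        omega
      · intro p _ q _ hpq
        obtain ⟨h7, h8⟩ := h2 _ _ _ _ (Fin.ext hpq)
        exact Prod.ext h7 h8
    rw [Finset.card_range, Finset.card_univ, Fintype.card_prod, Fintype.card_fin, ← hk] at hinj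
    have h8 : 0 < k * n := Nat.mul_pos hk0 hn
    have h9 : n * k = k * n := mul_comm _ _
    omega

theorem bow [Fintype ι] [DecidableEq ι] [DecidableEq V] {G : SimpleGraph ι} {c : V → V → Bool}
    (hc : ∀ x y, c x y = c y x) {I : Finset ι} (hI : ∀ a ∈ I, ∀ a' ∈ I, ¬ G.Adj a a') (b : Bool)
    {P Q : Finset V} (hP : Clq c b P) (hQ : Clq c (!b) Q) (hJ : Jn c (!b) P Q)
    (hd : Disjoint P Q) (hPc : Fintype.card ι ≤ P.card) (hQc : Iᶜ.card ≤ Q.card) :
    ∀ b', Cop G c b' 1 (P ∪ Q) := by
  have h1 : Cop G c b 1 (P ∪ Q) :=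
    (Cop.of_clique hP (by omega)).mono Finset.subset_union_left
  have h2 : Cop G c (!b) 1 (P ∪ Q) := by
    refine Cop.of_two I hI hc hd ?_ ?_ hQ hJ
    · have := Finset.card_le_univ I
      omega
    · omega
  intro b'
  by_cases h : b' = b
  · rw [h]; exact h1
  · have : b' = !b := by cases b <;> cases b' <;> simp_all
    rw [this]; exact h2

/-- Bowties exist as soon as both colours have large cliques. -/
theorem exists_bow [Fintype ι] [DecidableEq ι] (G : SimpleGraph ι) {I : Finset ι}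
    (hI : ∀ a ∈ I, ∀ a' ∈ I, ¬ G.Adj a a') : ∃ q : ℕ, ∀ {V : Type} [DecidableEq V]
      (c : V → V → Bool), (∀ x y, c x y = c y x) → ∀ P Q : Finset V, Clq c true P →
      Clq c false Q → q ≤ P.card → q ≤ Q.card → ∃ T ⊆ P ∪ Q, T.card = Fintype.card ι + Iᶜ.card ∧
        ∀ b, Cop G c b 1 T := by
  obtain ⟨M, -, hM⟩ := bip (Fintype.card ι)
  refine ⟨M, fun {V} _ c hc P Q hP hQ hPc hQc => ?_⟩
  obtain ⟨P', hP', Q', hQ', hP'c, hQ'c, hd, b, hb⟩ := hM c P Q hPc hQc
  have hIc : Iᶜ.card ≤ Fintype.card ι := Finset.card_le_univ _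
  cases b
  · obtain ⟨Q'', hQ'', hQ''c⟩ := Finset.exists_subset_card_eq (s := Q') (n := Iᶜ.card) (by omega)
    have hd' : Disjoint P' Q'' := hd.mono_right hQ''
    refine ⟨P' ∪ Q'', Finset.union_subset_union hP' (hQ''.trans hQ'), ?_, ?_⟩
    · rw [Finset.card_union_of_disjoint hd', hP'c, hQ''c]
    · exact bow hc hI true (hP.mono hP') (hQ.mono (hQ''.trans hQ'))
        (hb.mono (Finset.Subset.refl _) hQ'') hd' hP'c.ge hQ''c.ge
  · obtain ⟨P'', hP'', hP''c⟩ := Finset.exists_subset_card_eq (s := P') (n := Iᶜ.card) (by omega)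
    have hd' : Disjoint Q' P'' := (hd.mono_left hP'').symm
    refine ⟨Q' ∪ P'', ?_, ?_, ?_⟩
    · rw [Finset.union_comm]
      exact Finset.union_subset_union (hP''.trans hP') hQ'
    · rw [Finset.card_union_of_disjoint hd', hQ'c, hP''c]
    · exact bow hc hI false (hQ.mono hQ') (hP.mono (hP''.trans hP'))
        ((hb.mono hP'' (Finset.Subset.refl _)).symm hc) hd' hQ'c.ge hP''c.ge

theorem exists_clq_of_not_NoClq {c : V → V → Bool} {b : Bool} {q : ℕ} {W : Finset V}
    (h : ¬ NoClq c b q W) : ∃ S ⊆ W, S.card = q ∧ Clq c b S := by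
  unfold NoClq at h
  push Not at h
  exact h

/-- Large cliques in both colours exist in any colouring without monochromatic `nG` on enough
vertices. -/
theorem both_cliques [Fintype ι] (G : SimpleGraph ι) (hk : 0 < Fintype.card ι) (q : ℕ) :
    ∃ R : ℕ, ∀ {V : Type} [DecidableEq V] (c : V → V → Bool), (∀ x y, c x y = c y x) →
      ∀ (W : Finset V) (n : ℕ), (∀ b, ¬ Cop G c b n W) → n * Fintype.card ι + R ≤ W.card →
        ∀ b, ∃ S ⊆ W, S.card = q ∧ Clq c b S := by
  obtain ⟨R1, hR1⟩ := greedy' G hk true q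
  obtain ⟨R2, hR2⟩ := greedy' G hk false q
  refine ⟨R1 + R2, fun {V} _ c hc W n hno hcard b => ?_⟩
  apply exists_clq_of_not_NoClq
  intro hN
  cases b
  · exact hno true (hR1 c hc W n hN (by omega))
  · exact hno false (hR2 c hc W n hN (by omega))

theorem upper [Fintype ι] [DecidableEq ι] {G : SimpleGraph ι} (hiso : ∀ a, ∃ a', G.Adj a a')
    {I : Finset ι} (hI : ∀ a ∈ I, ∀ a' ∈ I, ¬ G.Adj a a')
    (hmax : ∀ S : Finset ι, (∀ a ∈ S, ∀ a' ∈ S, ¬ G.Adj a a') → S.card ≤ I.card)
    (hj : 0 < Iᶜ.card) :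
    ∃ n₁ : ℕ, ∀ n, n₁ ≤ n → RN G (n + 1) ≤ RN G n + (Fintype.card ι + Iᶜ.card) := by
  classical
  have hk : 0 < Fintype.card ι := by
    have : Iᶜ.card ≤ Fintype.card ι := Finset.card_le_univ _
    omega
  have hij : I.card + Iᶜ.card = Fintype.card ι := by
    rw [Finset.card_compl]
    have := Finset.card_le_univ I
    omega
  obtain ⟨q, hq⟩ := exists_bow G hI
  obtain ⟨R, hR⟩ := both_cliques G hk q
  refine ⟨R + 1, fun n hn => RN_le (fun c hc => ?_)⟩
  by_contra hcon
  push Not at hcon
  have hlow := lower hiso hij hmax hj n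
  have h1 : (n + 1) * Fintype.card ι + R ≤
      (Finset.univ : Finset (Fin (RN G n + (Fintype.card ι + Iᶜ.card)))).card := by
    rw [Finset.card_univ, Fintype.card_fin]
    have h2 : (Fintype.card ι + Iᶜ.card) * n = Fintype.card ι * n + Iᶜ.card * n := by ring
    have h3 : (n + 1) * Fintype.card ι = Fintype.card ι * n + Fintype.card ι := by ring
    have h4 : n ≤ Iᶜ.card * n := Nat.le_mul_of_pos_left n hj
    omega
  have h2 := hR c hc Finset.univ (n + 1) hcon h1
  obtain ⟨P, -, hPc, hP⟩ := h2 true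
  obtain ⟨Q, -, hQc, hQ⟩ := h2 false
  obtain ⟨T, -, hTc, hT⟩ := hq c hc P Q hP hQ hPc.ge hQc.ge
  have h3 : RN G n ≤ (Finset.univ \ T).card := by
    rw [Finset.card_sdiff_of_subset (Finset.subset_univ _), Finset.card_univ, Fintype.card_fin, hTc]
    omega
  obtain ⟨b, hb⟩ := (arr_RN G n).apply c hc _ h3
  exact hcon b ((hb.add (hT b) Finset.sdiff_disjoint).mono (Finset.subset_univ _))

/-- The Ramsey number is eventually exactly linear. -/
theorem stable [Fintype ι] [DecidableEq ι] {G : SimpleGraph ι} (hiso : ∀ a, ∃ a', G.Adj a a')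
    {I : Finset ι} (hI : ∀ a ∈ I, ∀ a' ∈ I, ¬ G.Adj a a')
    (hmax : ∀ S : Finset ι, (∀ a ∈ S, ∀ a' ∈ S, ¬ G.Adj a a') → S.card ≤ I.card)
    (hj : 0 < Iᶜ.card) :
    ∃ n₂ : ℕ, ∀ n, n₂ ≤ n → ∀ s, RN G (n + s) = RN G n + (Fintype.card ι + Iᶜ.card) * s := by
  classical
  have hij : I.card + Iᶜ.card = Fintype.card ι := by
    rw [Finset.card_compl]
    have := Finset.card_le_univ I
    omega
  obtain ⟨n₁, hn₁⟩ := upper hiso hI hmax hj
  set K := Fintype.card ι + Iᶜ.card with hK
  have hlow : ∀ n, K * n ≤ RN G n + 1 := fun n => lower hiso hij hmax hj n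
  have hex : ∃ v, ∃ n, n₁ ≤ n ∧ RN G n + 1 = K * n + v :=
    ⟨RN G n₁ + 1 - K * n₁, n₁, le_rfl, by have := hlow n₁; omega⟩
  obtain ⟨n₂, hn₂, hv⟩ := Nat.find_spec hex
  have hmin : ∀ n, n₁ ≤ n → K * n + Nat.find hex ≤ RN G n + 1 := by
    intro n hn
    have h1 := Nat.find_min' hex (m := RN G n + 1 - K * n) ⟨n, hn, by have := hlow n; omega⟩
    have := hlow n
    omega
  refine ⟨n₂, ?_⟩
  have key : ∀ n, n₂ ≤ n → RN G n + 1 = K * n + Nat.find hex := by
    intro n hn
    induction n, hn using Nat.le_induction with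
    | base => exact hv
    | succ n hn ih =>
      have h1 := hn₁ n (hn₂.trans hn)
      have h2 := hmin (n + 1) ((hn₂.trans hn).trans (Nat.le_succ n))
      have h3 : K * (n + 1) = K * n + K := by ring
      omega
  intro n hn s
  have h1 := key n hn
  have h2 := key (n + s) (hn.trans (Nat.le_add_right _ _))
  have h3 : K * (n + s) = K * n + K * s := by ring
  omega

/-- No over-efficient sets in an extremal colouring. -/
theorem no_overefficient [Fintype ι] {G : SimpleGraph ι} {K n₂ : ℕ}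
    (hst : ∀ n, n₂ ≤ n → ∀ s, RN G (n + s) = RN G n + K * s) [DecidableEq V]
    {c : V → V → Bool} (hc : ∀ x y, c x y = c y x) {W : Finset V} {n : ℕ}
    (hW : RN G n ≤ W.card + 1) (hno : ∀ b, ¬ Cop G c b n W) {s : ℕ} (hs : n₂ + s ≤ n)
    {T : Finset V} (hT : T ⊆ W) (hcop : ∀ b, Cop G c b s T) : K * s ≤ T.card := by
  by_contra hcon
  push Not at hcon
  obtain ⟨d, rfl⟩ : ∃ d, n = d + s := ⟨n - s, by omega⟩
  have h1 := hst d (by omega) s
  have h2 : RN G d ≤ (W \ T).card := by
    rw [Finset.card_sdiff_of_subset hT]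
    omega
  obtain ⟨b, hb⟩ := (arr_RN G d).apply c hc _ h2
  exact hno b ((hb.add (hcop b) Finset.sdiff_disjoint).mono
    (Finset.union_subset Finset.sdiff_subset hT))

end Pool.Agent.H56.RT
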