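import Pool.Agent.H56.RTNumber

/-! Structure of colourings without over-efficient sets. -/

set_option autoImplicit false

namespace Pool.Agent.H56.RT

variable {ι : Type} {V : Type}

/-- Every set containing `s ≤ k` disjoint copies in both colours has at least `(k + j) s`
elements. -/
def OE [Fintype ι] (G : SimpleGraph ι) (c : V → V → Bool) (j : ℕ) (W : Finset V) : Prop :=
  ∀ s ≤ Fintype.card ι, ∀ T ⊆ W, (∀ b, Cop G c b s T) → (Fintype.card ι + j) * s ≤ T.card

theorem cop_both {G : SimpleGraph ι} {c : V → V → Bool} {b : Bool} {s : ℕ} {W : Finset V}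
    (h1 : Cop G c b s W) (h2 : Cop G c (!b) s W) : ∀ b', Cop G c b' s W := by
  intro b'
  by_cases h : b' = b
  · rw [h]; exact h1
  · have : b' = !b := by cases b <;> cases b' <;> simp_all
    rw [this]; exact h2

/-- First over-efficient configuration. -/
theorem configL [Fintype ι] [DecidableEq ι] [DecidableEq V] {G : SimpleGraph ι}
    {c : V → V → Bool} (hc : ∀ x y, c x y = c y x) {I : Finset ι}
    (hI : ∀ a ∈ I, ∀ a' ∈ I, ¬ G.Adj a a') (hIpos : 0 < I.card) (hJpos : 0 < Iᶜ.card)
    {W : Finset V} (hOE : OE G c Iᶜ.card W) (b : Bool) {A B Q : Finset V} (hAW : A ⊆ W)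
    (hBW : B ⊆ W) (hQW : Q ⊆ W) (hA : Clq c b A) (hB : Clq c (!b) B) (hQ : Clq c (!b) Q)
    (hAB : Jn c (!b) A B) (hAQ : Jn c b A Q) (hdAB : Disjoint A B) (hdAQ : Disjoint A Q)
    (hdBQ : Disjoint B Q)
    (hAc : Fintype.card ι * Fintype.card ι ≤ A.card)
    (hBc : Fintype.card ι * Fintype.card ι ≤ B.card)
    (hQc : Fintype.card ι * Fintype.card ι ≤ Q.card) : False := by
  classical
  have hij : I.card + Iᶜ.card = Fintype.card ι := by
    rw [Finset.card_compl]
    have := Finset.card_le_univ I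
    omega
  set k := Fintype.card ι with hk
  set i := I.card with hi
  set j := Iᶜ.card with hj
  obtain ⟨A₀, hA₀, hA₀c⟩ := Finset.exists_subset_card_eq (s := A) (n := k * j) (by nlinarith)
  obtain ⟨Q₀, hQ₀, hQ₀c⟩ := Finset.exists_subset_card_eq (s := Q) (n := k * i) (by nlinarith)
  obtain ⟨B₀, hB₀, hB₀c⟩ := Finset.exists_subset_card_eq (s := B) (n := j * j) (by nlinarith)
  have dAB : Disjoint A₀ B₀ := hdAB.mono hA₀ hB₀
  have dAQ : Disjoint A₀ Q₀ := hdAQ.mono hA₀ hQ₀
  have dBQ : Disjoint B₀ Q₀ := hdBQ.mono hB₀ hQ₀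
  have h1 : Cop G c b k (Q₀ ∪ A₀) := by
    refine Cop.of_two I hI hc dAQ.symm ?_ ?_ (hA.mono hA₀) ((hAQ.mono hA₀ hQ₀).symm hc)
    · rw [hQ₀c]
    · rw [hA₀c]
  have h2 : Cop G c (!b) i Q₀ := Cop.of_clique (hQ.mono hQ₀) (by rw [hQ₀c]; exact (mul_comm _ _).le)
  have h3 : Cop G c (!b) j (A₀ ∪ B₀) := by
    refine Cop.of_two I hI hc dAB ?_ ?_ (hB.mono hB₀) (hAB.mono hA₀ hB₀)
    · rw [hA₀c, ← hi]; nlinarith
    · rw [hB₀c]
  have hd : Disjoint Q₀ (A₀ ∪ B₀) := by
    rw [Finset.disjoint_union_right]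
    exact ⟨dAQ.symm, dBQ.symm⟩
  have h4 : Cop G c (!b) k (Q₀ ∪ (A₀ ∪ B₀)) := by
    have := h2.add h3 hd
    rwa [hij] at this
  have h5 : Cop G c b k (Q₀ ∪ (A₀ ∪ B₀)) :=
    h1.mono (Finset.union_subset_union (Finset.Subset.refl _) Finset.subset_union_left)
  have h6 := hOE k le_rfl (Q₀ ∪ (A₀ ∪ B₀)) (Finset.union_subset (hQ₀.trans hQW)
    (Finset.union_subset (hA₀.trans hAW) (hB₀.trans hBW))) (cop_both h5 h4)
  rw [Finset.card_union_of_disjoint hd, Finset.card_union_of_disjoint dAB, hQ₀c, hA₀c, hB₀c] at h6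
  have h7 : j < k := by omega
  nlinarith

/-- Second over-efficient configuration. -/
theorem configL2 [Fintype ι] [DecidableEq ι] [DecidableEq V] {G : SimpleGraph ι}
    {c : V → V → Bool} (hc : ∀ x y, c x y = c y x) {I : Finset ι}
    (hI : ∀ a ∈ I, ∀ a' ∈ I, ¬ G.Adj a a') (hIpos : 0 < I.card) (hJpos : 0 < Iᶜ.card)
    {W : Finset V} (hOE : OE G c Iᶜ.card W) (b : Bool) {A B Q : Finset V} (hAW : A ⊆ W)
    (hBW : B ⊆ W) (hQW : Q ⊆ W) (hA : Clq c b A) (hB : Clq c (!b) B) (hQ : Clq c b Q)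
    (hAB : Jn c (!b) A B) (hAQ : Jn c (!b) A Q) (hQB : Jn c (!b) Q B)
    (hdAB : Disjoint A B) (hdAQ : Disjoint A Q) (hdBQ : Disjoint B Q)
    (hAc : Fintype.card ι * Fintype.card ι ≤ A.card)
    (hBc : Fintype.card ι * Fintype.card ι ≤ B.card)
    (hQc : Fintype.card ι ≤ Q.card) : False := by
  classical
  have hij : I.card + Iᶜ.card = Fintype.card ι := by
    rw [Finset.card_compl]
    have := Finset.card_le_univ I
    omega
  set k := Fintype.card ι with hk
  set i := I.card with hi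
  set j := Iᶜ.card with hj
  have hk1 : 1 ≤ k := by omega
  obtain ⟨v, hv⟩ := Finset.card_pos.mp hJpos
  have hvI : v ∉ I := Finset.mem_compl.mp hv
  have e1 : k * (k - 1) ≤ k * k := Nat.mul_le_mul_left _ (Nat.sub_le _ _)
  have e2 : k * (j - 1) ≤ k * k := Nat.mul_le_mul_left _ (by omega)
  obtain ⟨A₀, hA₀, hA₀c⟩ := Finset.exists_subset_card_eq (s := A) (n := k * (k - 1)) (by omega)
  obtain ⟨Q₀, hQ₀, hQ₀c⟩ := Finset.exists_subset_card_eq (s := Q) (n := k) (by omega)
  obtain ⟨B₀, hB₀, hB₀c⟩ := Finset.exists_subset_card_eq (s := B) (n := k * (j - 1)) (by omega)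
  have dAB : Disjoint A₀ B₀ := hdAB.mono hA₀ hB₀
  have dAQ : Disjoint A₀ Q₀ := hdAQ.mono hA₀ hQ₀
  have dBQ : Disjoint B₀ Q₀ := hdBQ.mono hB₀ hQ₀
  have hd : Disjoint (A₀ ∪ Q₀) B₀ := by
    rw [Finset.disjoint_union_left]
    exact ⟨dAB, dBQ.symm⟩
  -- colour b copies
  have h1 : Cop G c b ((k - 1) + 1) (A₀ ∪ Q₀) := by
    refine (Cop.of_clique (hA.mono hA₀) ?_).add (Cop.of_clique (hQ.mono hQ₀) ?_) dAQ
    · rw [hA₀c]; exact (mul_comm _ _).le
    · rw [hQ₀c, one_mul]
  have hk2 : k - 1 + 1 = k := by omega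
  rw [hk2] at h1
  -- the other colour
  have h2 : Cop G c (!b) k ((A₀ ∪ Q₀) ∪ B₀) := by
    have h := Cop.of_roles (G := G) (c := c) (b := !b) (s := k) (ρ := Fin 3)
      (fun a : ι => if a ∈ I then 0 else if a = v then 1 else 2)
      (fun r => if r = 0 then A₀ else if r = 1 then Q₀ else B₀) ?_ ?_ ?_
    · refine h.mono ?_
      intro x hx
      simp only [Finset.mem_biUnion, Finset.mem_univ, true_and] at hx
      obtain ⟨r, hr⟩ := hx
      simp only [Finset.mem_union]
      split_ifs at hr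
      · exact Or.inl (Or.inl hr)
      · exact Or.inl (Or.inr hr)
      · exact Or.inr hr
    · intro r r' hrr
      fin_cases r <;> fin_cases r' <;> simp at hrr ⊢
      · exact dAQ
      · exact dAB
      · exact dAQ.symm
      · exact dBQ.symm
      · exact dAB.symm
      · exact dBQ
    · intro r
      have f0 : (Finset.univ.filter (fun a : ι =>
          (if a ∈ I then (0 : Fin 3) else if a = v then 1 else 2) = 0)) = I := by
        ext a
        by_cases h1 : a ∈ I <;> by_cases h2 : a = v <;> simp [h1, h2]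
      have f1 : (Finset.univ.filter (fun a : ι =>
          (if a ∈ I then (0 : Fin 3) else if a = v then 1 else 2) = 1)) = {v} := by
        ext a
        simp only [Finset.mem_filter, Finset.mem_univ, true_and, Finset.mem_singleton]
        constructor
        · intro h
          split_ifs at h with h1 h2
          · simp at h
          · exact h2
          · simp at h
        · rintro rfl
          simp [hvI]
      have f2 : (Finset.univ.filter (fun a : ι =>
          (if a ∈ I then (0 : Fin 3) else if a = v then 1 else 2) = 2)) = Iᶜ.erase v := by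
        ext a
        simp only [Finset.mem_filter, Finset.mem_univ, true_and, Finset.mem_erase,
          Finset.mem_compl]
        constructor
        · intro h
          split_ifs at h with h1 h2
          · simp at h
          · simp at h
          · exact ⟨h2, h1⟩
        · rintro ⟨h1, h2⟩
          simp [h1, h2]
      fin_cases r
      · simp only [Fin.zero_eta, if_true]
        rw [f0, hA₀c, ← hi]
        exact Nat.mul_le_mul_left _ (by omega)
      · simp only [Fin.mk_one]
        rw [f1]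
        simp [hQ₀c]
      · simp only [Fin.reduceFinMk]
        rw [f2, Finset.card_erase_of_mem hv, ← hj]
        simp [hB₀c]
    · intro a a' hadj x hx y hy hxy
      have hAQ' := hAQ.mono hA₀ hQ₀
      have hAB' := hAB.mono hA₀ hB₀
      have hQB' := hQB.mono hQ₀ hB₀
      have hBB' := hB.mono hB₀
      by_cases ha : a ∈ I
      · by_cases ha' : a' ∈ I
        · exact absurd hadj (hI a ha a' ha')
        · by_cases hav : a' = v
          · simp [ha, ha', hav, hvI] at hx hy
            exact hAQ' x hx y hy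
          · simp [ha, ha', hav] at hx hy
            exact hAB' x hx y hy
      · by_cases hav : a = v
        · by_cases ha' : a' ∈ I
          · simp [ha, ha', hav, hvI] at hx hy
            rw [hc]
            exact hAQ' y hy x hx
          · have hav' : a' ≠ v := fun h => hadj.ne (hav.trans h.symm)
            simp [ha, ha', hav, hav', hvI] at hx hy
            exact hQB' x hx y hy
        · by_cases ha' : a' ∈ I
          · simp [ha, ha', hav] at hx hy
            rw [hc]
            exact hAB' y hy x hx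
          · by_cases hav' : a' = v
            · simp [ha, ha', hav, hav', hvI] at hx hy
              rw [hc]
              exact hQB' y hy x hx
            · simp [ha, ha', hav, hav'] at hx hy
              exact hBB' x hx y hy hxy
  have h6 := hOE k le_rfl ((A₀ ∪ Q₀) ∪ B₀) (Finset.union_subset
    (Finset.union_subset (hA₀.trans hAW) (hQ₀.trans hQW)) (hB₀.trans hBW))
    (cop_both (h1.mono Finset.subset_union_left) h2)
  rw [Finset.card_union_of_disjoint hd, Finset.card_union_of_disjoint dAQ, hQ₀c, hA₀c, hB₀c] at h6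
  have e3 : k * (k - 1) + k = k * k := by
    obtain ⟨m, hm⟩ : ∃ m, k = m + 1 := ⟨k - 1, by omega⟩
    rw [hm]; simp; ring
  have e4 : k * (j - 1) + k = k * j := by
    obtain ⟨m, hm⟩ : ∃ m, j = m + 1 := ⟨j - 1, by omega⟩
    rw [hm]; simp; ring
  have e5 : (k + j) * k = k * k + k * j := by ring
  rw [← hk] at h6
  omega

/-- Third over-efficient configuration: `|Iᶜ|` disjoint partial copies of a closed set `S`. -/
theorem configL3 [Fintype ι] [DecidableEq ι] [DecidableEq V] {G : SimpleGraph ι}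
    {c : V → V → Bool} (hc : ∀ x y, c x y = c y x) {I : Finset ι}
    (hI : ∀ a ∈ I, ∀ a' ∈ I, ¬ G.Adj a a') (hIpos : 0 < I.card) (hJpos : 0 < Iᶜ.card)
    {W : Finset V} (hOE : OE G c Iᶜ.card W) (b : Bool) {S : Finset ι} (hS : Closed G S)
    (hSne : S.Nonempty) {L : Type} {Λ : Finset L} (hΛ : Λ.card = Iᶜ.card) {φ : L → ι → V}
    (hφW : ∀ l ∈ Λ, ∀ a ∈ S, φ l a ∈ W)
    (hinj : ∀ l ∈ Λ, ∀ a ∈ S, ∀ l' ∈ Λ, ∀ a' ∈ S, φ l a = φ l' a' → l = l' ∧ a = a')
    (hcol : ∀ l ∈ Λ, ∀ a ∈ S, ∀ a' ∈ S, G.Adj a a' → c (φ l a) (φ l a') = b)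
    (hclq : ∀ a ∈ S, ∀ l ∈ Λ, ∀ l' ∈ Λ, l ≠ l' → c (φ l a) (φ l' a) = !b)
    {A : Finset V} (hAW : A ⊆ W) (hA : Clq c b A) (hAφ : ∀ l ∈ Λ, ∀ a ∈ S, φ l a ∉ A)
    (hjn : ∀ x ∈ A, ∀ l ∈ Λ, ∀ a ∈ S, c x (φ l a) = !b)
    (hAc : Fintype.card ι * Fintype.card ι ≤ A.card) : False := by
  classical
  have hij : I.card + Iᶜ.card = Fintype.card ι := by
    rw [Finset.card_compl]
    have := Finset.card_le_univ I
    omega
  set k := Fintype.card ι with hk
  set i := I.card with hi
  set j := Iᶜ.card with hj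
  have hσ : 0 < S.card := Finset.card_pos.mpr hSne
  have hσk : S.card ≤ k := Finset.card_le_univ _
  set σ := S.card with hσdef
  have hk0 : 0 < k := by omega
  have hkσ : 0 < k * σ := Nat.mul_pos hk0 hσ
  have e1 : k * σ ≤ k * k := Nat.mul_le_mul_left _ hσk
  obtain ⟨A₀, hA₀, hA₀c⟩ := Finset.exists_subset_card_eq (s := A) (n := k * σ - 1) (by omega)
  let C : ι → Finset V := fun a => Λ.image (fun l => φ l a)
  have hCc : ∀ a ∈ S, (C a).card = j := by
    intro a ha
    rw [← hΛ]
    refine Finset.card_image_of_injOn ?_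
    intro l hl l' hl' h
    exact (hinj l hl a ha l' hl' a ha h).1
  have hCclq : ∀ a ∈ S, Clq c (!b) (C a) := by
    intro a ha x hx y hy hxy
    obtain ⟨l, hl, rfl⟩ := Finset.mem_image.mp hx
    obtain ⟨l', hl', rfl⟩ := Finset.mem_image.mp hy
    exact hclq a ha l hl l' hl' (fun h => hxy (by rw [h]))
  have hCA : ∀ a ∈ S, Disjoint A (C a) := by
    intro a ha
    rw [Finset.disjoint_right]
    intro x hx
    obtain ⟨l, hl, rfl⟩ := Finset.mem_image.mp hx
    exact hAφ l hl a ha
  have hCjn : ∀ a ∈ S, Jn c (!b) A (C a) := by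
    intro a ha x hx y hy
    obtain ⟨l, hl, rfl⟩ := Finset.mem_image.mp hy
    exact hjn x hx l hl a ha
  have hCdisj : ∀ a ∈ S, ∀ a' ∈ S, a ≠ a' → Disjoint (C a) (C a') := by
    intro a ha a' ha' haa
    rw [Finset.disjoint_left]
    intro x hx hx'
    obtain ⟨l, hl, rfl⟩ := Finset.mem_image.mp hx
    obtain ⟨l', hl', h⟩ := Finset.mem_image.mp hx'
    exact haa (hinj l' hl' a' ha' l hl a ha h).2.symm
  -- copies in the other colour
  have hblue : ∀ S' ⊆ S, ∀ A' ⊆ A, i * S'.card ≤ A'.card →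
      Cop G c (!b) S'.card (A' ∪ S'.biUnion C) := by
    intro S' hS'
    induction S' using Finset.induction_on with
    | empty => intro A' _ _; simpa using Cop.zero _
    | insert a S' ha ih =>
      intro A' hA' hcard
      rw [Finset.card_insert_of_notMem ha] at hcard ⊢
      have haS : a ∈ S := hS' (Finset.mem_insert_self _ _)
      have hS'' : S' ⊆ S := (Finset.subset_insert _ _).trans hS'
      obtain ⟨A₁, hA₁, hA₁c⟩ := Finset.exists_subset_card_eq (s := A') (n := i)
        (by rw [mul_add, mul_one] at hcard; omega)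
      have h1 := ih hS'' (A' \ A₁) (Finset.sdiff_subset.trans hA') (by
        rw [Finset.card_sdiff_of_subset hA₁, hA₁c]
        rw [mul_add, mul_one] at hcard
        omega)
      have h2 : Cop G c (!b) 1 (A₁ ∪ C a) := by
        refine Cop.of_two I hI hc ((hCA a haS).mono_left (hA₁.trans hA')) ?_ ?_ (hCclq a haS)
          ((hCjn a haS).mono (hA₁.trans hA') (Finset.Subset.refl _))
        · rw [hA₁c, one_mul]
        · rw [hCc a haS, one_mul]
      have hd : Disjoint ((A' \ A₁) ∪ S'.biUnion C) (A₁ ∪ C a) := by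
        rw [Finset.disjoint_union_left, Finset.disjoint_union_right, Finset.disjoint_union_right]
        refine ⟨⟨Finset.sdiff_disjoint, (hCA a haS).mono_left (Finset.sdiff_subset.trans hA')⟩,
          ?_, ?_⟩
        · rw [Finset.disjoint_biUnion_left]
          intro a' ha'
          exact ((hCA a' (hS'' ha')).mono_left (hA₁.trans hA')).symm
        · rw [Finset.disjoint_biUnion_left]
          intro a' ha'
          exact hCdisj a' (hS'' ha') a haS (fun h => ha (h ▸ ha'))
      refine (h1.add h2 hd).mono ?_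
      intro x hx
      rw [Finset.biUnion_insert]
      simp only [Finset.mem_union, Finset.mem_sdiff] at hx ⊢
      rcases hx with (hx | hx) | (hx | hx)
      · exact Or.inl hx.1
      · exact Or.inr (Or.inr hx)
      · exact Or.inl (hA₁ hx)
      · exact Or.inr (Or.inl hx)
  have hb2 : Cop G c (!b) σ (A₀ ∪ S.biUnion C) := by
    refine hblue S (Finset.Subset.refl _) A₀ hA₀ ?_
    rw [hA₀c]
    have : i * σ + 1 ≤ k * σ := by
      have h7 : i + 1 ≤ k := by omega
      have h8 : (i + 1) * σ ≤ k * σ := Nat.mul_le_mul_right _ h7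
      have h9 : (i + 1) * σ = i * σ + σ := by ring
      omega
    rw [← hσdef]
    omega
  -- copies in colour b
  have hΛne : Λ.Nonempty := by
    rw [← Finset.card_pos, hΛ]
    exact hJpos
  obtain ⟨l₀, hl₀⟩ := hΛne
  have hfam : PFam G c b W 1 (fun _ => S) (fun _ => φ l₀) := by
    refine ⟨fun _ => hS, fun _ => hSne, fun _ a ha => hφW l₀ hl₀ a ha, ?_, ?_⟩
    · intro l a ha l' a' ha' h
      exact ⟨Subsingleton.elim _ _, (hinj l₀ hl₀ a ha l₀ hl₀ a' ha' h).2⟩
    · intro _ a ha a' ha' hadj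
      exact hcol l₀ hl₀ a ha a' ha' hadj
  have hcovc : (cov (fun _ : Fin 1 => S) (fun _ => φ l₀)).card = σ := by
    rw [hfam.card_cov]
    simp [hσdef]
  have e2 : k - σ ≤ k * σ - 1 := by
    have : k * 1 ≤ k * σ := Nat.mul_le_mul_left _ hσ
    omega
  obtain ⟨A₁, hA₁, hA₁c⟩ := Finset.exists_subset_card_eq (s := A₀) (n := k - σ) (by omega)
  have hcovS : cov (fun _ : Fin 1 => S) (fun _ => φ l₀) ⊆ S.biUnion C := by
    intro x hx
    obtain ⟨_, a, ha, rfl⟩ := mem_cov.mp hx
    exact Finset.mem_biUnion.mpr ⟨a, ha, Finset.mem_image.mpr ⟨l₀, hl₀, rfl⟩⟩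
  have hdS : Disjoint A (S.biUnion C) := by
    rw [Finset.disjoint_biUnion_right]
    exact fun a ha => hCA a ha
  have hr1 : Cop G c b 1 (cov (fun _ : Fin 1 => S) (fun _ => φ l₀) ∪ A₁) := by
    refine hfam.complete (hA.mono (hA₁.trans hA₀)) ?_ ?_
    · exact (hdS.mono (hA₁.trans hA₀) hcovS).symm
    · rw [hcovc, hA₁c]
      omega
  have hr2 : Cop G c b (σ - 1) (A₀ \ A₁) := by
    refine Cop.of_clique (hA.mono (Finset.sdiff_subset.trans hA₀)) ?_
    rw [Finset.card_sdiff_of_subset hA₁, hA₀c, hA₁c]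
    have h8 : (σ - 1) * k + k = k * σ := by
      obtain ⟨m, hm⟩ : ∃ m, σ = m + 1 := ⟨σ - 1, by omega⟩
      rw [hm]; simp; ring
    rw [← hk]
    omega
  have hr : Cop G c b σ (A₀ ∪ S.biUnion C) := by
    have h := hr1.add hr2 (by
      rw [Finset.disjoint_union_left]
      refine ⟨(hdS.mono (Finset.sdiff_subset.trans hA₀) hcovS).symm, Finset.disjoint_sdiff⟩)
    have h9 : 1 + (σ - 1) = σ := by omega
    rw [h9] at h
    refine h.mono ?_
    intro x hx
    simp only [Finset.mem_union, Finset.mem_sdiff] at hx ⊢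
    rcases hx with (hx | hx) | hx
    · exact Or.inr (hcovS hx)
    · exact Or.inl (hA₁ hx)
    · exact Or.inl hx.1
  have hT : A₀ ∪ S.biUnion C ⊆ W := by
    refine Finset.union_subset (hA₀.trans hAW) ?_
    intro x hx
    obtain ⟨a, ha, hx⟩ := Finset.mem_biUnion.mp hx
    obtain ⟨l, hl, rfl⟩ := Finset.mem_image.mp hx
    exact hφW l hl a ha
  have h6 := hOE σ hσk _ hT (cop_both hr hb2)
  have h7 : (A₀ ∪ S.biUnion C).card ≤ (k * σ - 1) + σ * j := by
    refine (Finset.card_union_le _ _).trans ?_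
    rw [hA₀c]
    refine Nat.add_le_add_left ?_ _
    refine Finset.card_biUnion_le.trans ?_
    rw [Finset.sum_congr rfl (fun a ha => hCc a ha)]
    simp [hσdef]
  have h8 : (k + j) * σ = k * σ + σ * j := by ring
  rw [← hk] at h6
  omega

end Pool.Agent.H56.RT
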