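import Pool.Agent.H56.RTBasic

/-! Greedy packing, density pigeonhole, absorption and completion lemmas. -/

set_option autoImplicit false

namespace Pool.Agent.H56.RT

variable {ι : Type} {V : Type}

/-- `W` contains no clique of colour `b` with exactly `q` vertices. -/
def NoClq (c : V → V → Bool) (b : Bool) (q : ℕ) (W : Finset V) : Prop :=
  ∀ S ⊆ W, S.card = q → ¬ Clq c b S

theorem NoClq.mono {c : V → V → Bool} {b : Bool} {q : ℕ} {W W' : Finset V}
    (h : NoClq c b q W) (hW : W' ⊆ W) : NoClq c b q W' :=
  fun S hS hq => h S (hS.trans hW) hq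

/-- Greedy packing: without a large clique of the other colour almost everything is covered by
disjoint copies in colour `b`. -/
theorem greedy [Fintype ι] (G : SimpleGraph ι) (hk : 0 < Fintype.card ι) (b : Bool) (q : ℕ) :
    ∃ R : ℕ, ∀ {V : Type} [DecidableEq V] (c : V → V → Bool), (∀ x y, c x y = c y x) →
      ∀ W : Finset V, NoClq c (!b) q W → ∃ z : ℕ, ∃ W' ⊆ W, W'.card = z * Fintype.card ι ∧
        Cop G c b z W' ∧ (W \ W').card < R := by
  classical
  obtain ⟨R, hR⟩ := ramsey' b (Fintype.card ι) q
  refine ⟨R + 1, fun {V} _ c hc W => ?_⟩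
  induction W using Finset.strongInduction with
  | H W ih =>
    intro hno
    rcases lt_or_ge W.card (R + 1) with h | h
    · exact ⟨0, ∅, Finset.empty_subset _, by simp, Cop.zero _, by simpa using h⟩
    · rcases hR c hc W (by omega) with ⟨S, hS, hSc, hSq⟩ | ⟨S, hS, hSc, hSq⟩
      · have hSne : S.Nonempty := by
          rw [← Finset.card_pos]
          omega
        have hss : W \ S ⊂ W := Finset.sdiff_ssubset hS hSne
        obtain ⟨z, W', hW', hW'c, hcop, hrest⟩ := ih (W \ S) hss (hno.mono Finset.sdiff_subset)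
        have hd : Disjoint W' S := by
          rw [Finset.disjoint_left]
          intro x hx
          exact (Finset.mem_sdiff.mp (hW' hx)).2
        refine ⟨z + 1, W' ∪ S, Finset.union_subset (hW'.trans Finset.sdiff_subset) hS, ?_, ?_, ?_⟩
        · rw [Finset.card_union_of_disjoint hd, hW'c, hSc]
          ring
        · exact hcop.add (Cop.of_clique hSq (by omega)) hd
        · have : W \ (W' ∪ S) = (W \ S) \ W' := by
            ext x
            simp only [Finset.mem_sdiff, Finset.mem_union, not_or]
            tauto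
          rw [this]
          exact hrest
      · exact absurd hSq (hno S hS hSc)

/-- Density pigeonhole. -/
theorem dens [DecidableEq V] {c : V → V → Bool} (hc : ∀ x y, c x y = c y x) (b : Bool)
    {A Q : Finset V} {w θ : ℕ} (h1 : ∀ v ∈ Q, θ ≤ (A.filter (fun a => c v a = b)).card)
    (h2 : 2 * A.card * w ≤ θ * Q.card) (h3 : Q.card * 2 ^ Q.card ≤ A.card) (hQ : 0 < Q.card) :
    ∃ A' ⊆ A, ∃ Q' ⊆ Q, A'.card = w ∧ Q'.card = w ∧ Jn c b A' Q' := by
  classical
  -- good elements of A
  set good := A.filter (fun a => w ≤ (Q.filter (fun q => c q a = b)).card) with hgood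
  have hsum : θ * Q.card ≤ ∑ a ∈ A, (Q.filter (fun q => c q a = b)).card := by
    have e1 : ∑ a ∈ A, (Q.filter (fun q => c q a = b)).card =
        ∑ q ∈ Q, (A.filter (fun a => c q a = b)).card := by
      simp only [Finset.card_filter]
      exact Finset.sum_comm
    rw [e1, mul_comm, ← smul_eq_mul]
    exact Finset.card_nsmul_le_sum _ _ _ h1
  have hsum2 : ∑ a ∈ A, (Q.filter (fun q => c q a = b)).card ≤
      good.card * Q.card + A.card * w := by
    rw [← Finset.sum_filter_add_sum_filter_not A
      (fun a => w ≤ (Q.filter (fun q => c q a = b)).card)]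
    refine Nat.add_le_add ?_ ?_
    · rw [← hgood, ← smul_eq_mul]
      exact Finset.sum_le_card_nsmul _ _ _ (fun a _ => Finset.card_filter_le _ _)
    · calc ∑ a ∈ A with ¬ w ≤ (Q.filter (fun q => c q a = b)).card,
            (Q.filter (fun q => c q a = b)).card
          ≤ (A.filter (fun a => ¬ w ≤ (Q.filter (fun q => c q a = b)).card)).card * w := by
            rw [← smul_eq_mul]
            refine Finset.sum_le_card_nsmul _ _ _ (fun a ha => ?_)
            have := (Finset.mem_filter.mp ha).2
            omega
        _ ≤ A.card * w := Nat.mul_le_mul_right _ (Finset.card_filter_le _ _)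
  have hg1 : A.card * w ≤ good.card * Q.card := by nlinarith
  have hg2 : 2 ^ Q.card * w ≤ good.card := by
    have : Q.card * (2 ^ Q.card * w) ≤ Q.card * good.card := by
      calc Q.card * (2 ^ Q.card * w) = (Q.card * 2 ^ Q.card) * w := by ring
        _ ≤ A.card * w := Nat.mul_le_mul_right _ h3
        _ ≤ good.card * Q.card := hg1
        _ = Q.card * good.card := by ring
    exact Nat.le_of_mul_le_mul_left this hQ
  have hmaps : ∀ a ∈ good, Q.filter (fun q => c q a = b) ∈ Q.powerset := fun a _ =>
    Finset.mem_powerset.mpr (Finset.filter_subset _ _)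
  have hpow : Q.powerset.card * w ≤ good.card := by
    rw [Finset.card_powerset]
    exact hg2
  rcases Nat.eq_zero_or_pos w with hw | hw
  · exact ⟨∅, Finset.empty_subset _, ∅, Finset.empty_subset _, by simp [hw], by simp [hw],
      by intro x hx; simp at hx⟩
  have hne : Q.powerset.Nonempty := ⟨∅, by simp⟩
  obtain ⟨S, hS, hSw⟩ := Finset.exists_le_card_fiber_of_mul_le_card_of_maps_to hmaps hne hpow
  obtain ⟨A', hA', hA'c⟩ := Finset.exists_subset_card_eq hSw
  have hfib : ∀ a ∈ A', a ∈ good ∧ Q.filter (fun q => c q a = b) = S := fun a ha =>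
    Finset.mem_filter.mp (hA' ha)
  have hSw2 : w ≤ S.card := by
    have hne : A'.Nonempty := by
      rw [← Finset.card_pos]
      omega
    obtain ⟨a, ha⟩ := hne
    obtain ⟨h4, h5⟩ := hfib a ha
    rw [← h5]
    exact (Finset.mem_filter.mp h4).2
  obtain ⟨Q', hQ', hQ'c⟩ := Finset.exists_subset_card_eq hSw2
  have hSQ : S ⊆ Q := Finset.mem_powerset.mp hS
  refine ⟨A', fun a ha => (Finset.mem_filter.mp (hfib a ha).1).1, Q', hQ'.trans hSQ, hA'c, hQ'c,
    ?_⟩
  intro a ha q hq
  have : q ∈ Q.filter (fun q => c q a = b) := by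
    rw [(hfib a ha).2]
    exact hQ' hq
  rw [hc]
  exact (Finset.mem_filter.mp this).2

/-- Absorption of a small set `L` by a clique `A`. -/
theorem absorb [Fintype ι] [DecidableEq V] (G : SimpleGraph ι) {c : V → V → Bool}
    (hc : ∀ x y, c x y = c y x) (b : Bool) (hk : 0 < Fintype.card ι)
    {A : Finset V} (hA : Clq c b A) (L : Finset V) (hd : Disjoint L A)
    (h : ∀ v ∈ L, (Fintype.card ι - 1) * L.card ≤ (A.filter (fun a => c v a = b)).card) :
    ∃ D ⊆ A, D.card = (Fintype.card ι - 1) * L.card ∧ Cop G c b L.card (L ∪ D) := by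
  classical
  induction L using Finset.induction_on with
  | empty => exact ⟨∅, Finset.empty_subset _, by simp, by simpa using Cop.zero _⟩
  | insert v L hv ih =>
    have hd' : Disjoint L A := hd.mono_left (Finset.subset_insert _ _)
    have hvA : v ∉ A := Finset.disjoint_left.mp hd (Finset.mem_insert_self _ _)
    obtain ⟨D, hD, hDc, hcop⟩ := ih hd' (by
      intro u hu
      refine le_trans ?_ (h u (Finset.mem_insert_of_mem hu))
      exact Nat.mul_le_mul_left _ (Finset.card_le_card (Finset.subset_insert _ _)))
    have h1 := h v (Finset.mem_insert_self _ _)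
    rw [Finset.card_insert_of_notMem hv, mul_add, mul_one] at h1
    have h2 : Fintype.card ι - 1 ≤ ((A.filter (fun a => c v a = b)) \ D).card := by
      have := Finset.le_card_sdiff D (A.filter (fun a => c v a = b))
      omega
    obtain ⟨E, hE, hEc⟩ := Finset.exists_subset_card_eq h2
    have hEA : E ⊆ A := (hE.trans Finset.sdiff_subset).trans (Finset.filter_subset _ _)
    have hED : Disjoint D E := by
      rw [Finset.disjoint_right]
      intro x hx
      exact (Finset.mem_sdiff.mp (hE hx)).2
    have hvE : v ∉ E := fun h => hvA (hEA h)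
    refine ⟨D ∪ E, Finset.union_subset hD hEA, ?_, ?_⟩
    · rw [Finset.card_union_of_disjoint hED, hDc, hEc, Finset.card_insert_of_notMem hv]
      ring
    · have hclq : Clq c b (insert v E) := by
        intro x hx y hy hxy
        have hvy : ∀ y ∈ E, c v y = b := fun y hy =>
          (Finset.mem_filter.mp (Finset.mem_sdiff.mp (hE hy)).1).2
        rcases Finset.mem_insert.mp hx with hxv | hxE <;>
          rcases Finset.mem_insert.mp hy with hyv | hyE
        · exact absurd (hxv.trans hyv.symm) hxy
        · rw [hxv]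
          exact hvy y hyE
        · rw [hc, hyv]
          exact hvy x hxE
        · exact hA x (hEA hxE) y (hEA hyE) hxy
      have hcop1 : Cop G c b 1 (insert v E) := by
        refine Cop.of_clique hclq ?_
        rw [Finset.card_insert_of_notMem hvE, hEc]
        omega
      have hdis : Disjoint (L ∪ D) (insert v E) := by
        rw [Finset.disjoint_left]
        intro x hx hx'
        rcases Finset.mem_union.mp hx with hxL | hxD <;>
          rcases Finset.mem_insert.mp hx' with hxv | hxE
        · exact hv (hxv ▸ hxL)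
        · exact Finset.disjoint_left.mp hd' hxL (hEA hxE)
        · exact hvA (hxv ▸ hD hxD)
        · exact Finset.disjoint_left.mp hED hxD hxE
      rw [Finset.card_insert_of_notMem hv]
      refine (hcop.add hcop1 hdis).mono ?_
      intro x hx
      simp only [Finset.mem_union, Finset.mem_insert] at hx ⊢
      tauto

/-- Distinct representatives when every candidate set is large. -/
theorem choice {P : Type} [Fintype P] [DecidableEq V] (C : P → Finset V)
    (h : ∀ p, Fintype.card P ≤ (C p).card) : ∃ f : P → V, Function.Injective f ∧ ∀ p, f p ∈ C p := by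
  classical
  rw [← Finset.all_card_le_biUnion_card_iff_exists_injective]
  intro s
  rcases s.eq_empty_or_nonempty with rfl | ⟨p, hp⟩
  · simp
  · calc s.card ≤ Fintype.card P := Finset.card_le_univ s
      _ ≤ (C p).card := h p
      _ ≤ _ := Finset.card_le_card (Finset.subset_biUnion_of_mem C hp)

/-- A set of vertices of `G` without edges to its complement. -/
def Closed (G : SimpleGraph ι) (S : Finset ι) : Prop := ∀ a ∈ S, ∀ a', G.Adj a a' → a' ∈ S

/-- A family of `m` disjoint partial copies, the `l`-th one being a copy of `G[S l]` for a closed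
nonempty set `S l`. -/
structure PFam (G : SimpleGraph ι) (c : V → V → Bool) (b : Bool) (X : Finset V) (m : ℕ)
    (S : Fin m → Finset ι) (φ : Fin m → ι → V) : Prop where
  closed : ∀ l, Closed G (S l)
  nonempty : ∀ l, (S l).Nonempty
  mem : ∀ l, ∀ a ∈ S l, φ l a ∈ X
  inj : ∀ l, ∀ a ∈ S l, ∀ l', ∀ a' ∈ S l', φ l a = φ l' a' → l = l' ∧ a = a'
  col : ∀ l, ∀ a ∈ S l, ∀ a' ∈ S l, G.Adj a a' → c (φ l a) (φ l a') = b

/-- Vertices covered by a family of partial copies. -/
def cov [DecidableEq V] {m : ℕ} (S : Fin m → Finset ι) (φ : Fin m → ι → V) : Finset V :=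
  Finset.univ.biUnion (fun l => (S l).image (φ l))

theorem mem_cov [DecidableEq V] {m : ℕ} {S : Fin m → Finset ι} {φ : Fin m → ι → V} {x : V} :
    x ∈ cov S φ ↔ ∃ l, ∃ a ∈ S l, φ l a = x := by
  simp [cov]

theorem PFam.card_cov [DecidableEq V] {G : SimpleGraph ι} {c : V → V → Bool} {b : Bool}
    {X : Finset V} {m : ℕ} {S : Fin m → Finset ι} {φ : Fin m → ι → V}
    (h : PFam G c b X m S φ) : (cov S φ).card = ∑ l, (S l).card := by
  classical
  unfold cov
  rw [Finset.card_biUnion]
  · refine Finset.sum_congr rfl (fun l _ => ?_)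
    rw [Finset.card_image_of_injOn]
    intro a ha a' ha' haa
    exact (h.inj l a ha l a' ha' haa).2
  · intro l _ l' _ hll
    rw [Function.onFun, Finset.disjoint_left]
    intro x hx hx'
    obtain ⟨a, ha, rfl⟩ := Finset.mem_image.mp hx
    obtain ⟨a', ha', h'⟩ := Finset.mem_image.mp hx'
    exact hll (h.inj l' a' ha' l a ha h').1.symm

/-- Completing a family of partial copies inside a clique. -/
theorem PFam.complete [Fintype ι] [DecidableEq ι] [DecidableEq V] {G : SimpleGraph ι}
    {c : V → V → Bool} {b : Bool}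
    {X : Finset V} {m : ℕ} {S : Fin m → Finset ι} {φ : Fin m → ι → V}
    (h : PFam G c b X m S φ) {A : Finset V} (hA : Clq c b A) (hd : Disjoint (cov S φ) A)
    (hcard : m * Fintype.card ι ≤ (cov S φ).card + A.card) :
    Cop G c b m (cov S φ ∪ A) := by
  classical
  have h1 : Fintype.card (Σ l : Fin m, {a : ι // a ∉ S l}) ≤ Fintype.card A := by
    rw [Fintype.card_sigma, Fintype.card_coe]
    have h2 : ∀ l : Fin m, Fintype.card {a : ι // a ∉ S l} + (S l).card = Fintype.card ι := by
      intro l
      have h3 : Fintype.card {a : ι // a ∉ S l} = (S l)ᶜ.card := by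
        rw [Fintype.card_subtype]
        congr 1
        ext a
        simp
      rw [h3, Finset.card_compl]
      have := Finset.card_le_univ (S l)
      omega
    have h3 : ∑ l : Fin m, (Fintype.card {a : ι // a ∉ S l} + (S l).card) =
        m * Fintype.card ι := by
      rw [Finset.sum_congr rfl (fun l _ => h2 l)]
      simp
    rw [Finset.sum_add_distrib, ← h.card_cov] at h3
    omega
  obtain ⟨e⟩ := Function.Embedding.nonempty_of_card_le h1
  let f : Fin m → ι → V := fun l a => if ha : a ∈ S l then φ l a else (e ⟨l, ⟨a, ha⟩⟩ : V)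
  have hf1 : ∀ l a, a ∈ S l → f l a = φ l a := fun l a ha => by simp [f, ha]
  have hf2 : ∀ l a (ha : a ∉ S l), f l a = (e ⟨l, ⟨a, ha⟩⟩ : V) := fun l a ha => by simp [f, ha]
  have hcov : ∀ l a, a ∈ S l → f l a ∈ cov S φ := fun l a ha => by
    rw [hf1 l a ha]
    exact mem_cov.mpr ⟨l, a, ha, rfl⟩
  have hAm : ∀ l a, a ∉ S l → f l a ∈ A := fun l a ha => by
    rw [hf2 l a ha]
    exact (e _).2
  refine ⟨f, ?_, ?_, ?_⟩
  · intro l a
    by_cases ha : a ∈ S l
    · exact Finset.mem_union_left _ (hcov l a ha)
    · exact Finset.mem_union_right _ (hAm l a ha)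
  · intro l a l' a' hff
    by_cases ha : a ∈ S l <;> by_cases ha' : a' ∈ S l'
    · rw [hf1 l a ha, hf1 l' a' ha'] at hff
      exact h.inj l a ha l' a' ha' hff
    · exact absurd (hff ▸ hcov l a ha) (fun h' => Finset.disjoint_left.mp hd h' (hAm l' a' ha'))
    · exact absurd (hff.symm ▸ hcov l' a' ha')
        (fun h' => Finset.disjoint_left.mp hd h' (hAm l a ha))
    · rw [hf2 l a ha, hf2 l' a' ha'] at hff
      have h3 := e.injective (Subtype.ext hff)
      rw [Sigma.mk.injEq] at h3
      obtain ⟨h4, h5⟩ := h3
      subst h4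
      rw [heq_eq_eq, Subtype.mk.injEq] at h5
      exact ⟨rfl, h5⟩
  · intro l a a' hadj
    by_cases ha : a ∈ S l
    · have ha' : a' ∈ S l := h.closed l a ha a' hadj
      rw [hf1 l a ha, hf1 l a' ha']
      exact h.col l a ha a' ha' hadj
    · have ha' : a' ∉ S l := fun ha' => ha (h.closed l a' ha' a hadj.symm)
      refine hA _ (hAm l a ha) _ (hAm l a' ha') ?_
      rw [hf2 l a ha, hf2 l a' ha']
      intro hff
      have h3 := e.injective (Subtype.ext hff)
      rw [Sigma.mk.injEq] at h3
      have h5 := h3.2
      rw [heq_eq_eq, Subtype.mk.injEq] at h5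
      exact hadj.ne h5

end Pool.Agent.H56.RT
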