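import Mathlib

/-!
Helper file for MP_71be06_co: sup-norm and operator-norm calculus on `ℝ[X]`, the elementary
symmetric polynomials `B d m = e_d(X, X^2, ..., X^m)`, Newton's identities and bounds on
first and second differences.
-/

namespace Pool.Agent.H56.U71

open Polynomial Finset

/-- sup norm bound on coefficients -/
def Li (f : ℝ[X]) (K : ℝ) : Prop := ∀ n, |f.coeff n| ≤ K

/-- operator norm bound: multiplication by `f` increases the sup norm by at most the factor `C`. -/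
def Op (f : ℝ[X]) (C : ℝ) : Prop := ∀ g K, Li g K → Li (f * g) (C * K)

lemma Li.nonneg {f : ℝ[X]} {K : ℝ} (h : Li f K) : 0 ≤ K := le_trans (abs_nonneg _) (h 0)

lemma Li.mono {f : ℝ[X]} {K K' : ℝ} (h : Li f K) (hK : K ≤ K') : Li f K' :=
  fun n => (h n).trans hK

lemma Li.add {f g : ℝ[X]} {K L : ℝ} (hf : Li f K) (hg : Li g L) : Li (f + g) (K + L) := by
  intro n
  rw [coeff_add]
  exact (abs_add_le _ _).trans (add_le_add (hf n) (hg n))

lemma Li.sub {f g : ℝ[X]} {K L : ℝ} (hf : Li f K) (hg : Li g L) : Li (f - g) (K + L) := by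
  intro n
  rw [coeff_sub]
  exact (abs_sub _ _).trans (add_le_add (hf n) (hg n))

lemma Li.neg {f : ℝ[X]} {K : ℝ} (hf : Li f K) : Li (-f) K := by
  intro n
  rw [coeff_neg, abs_neg]
  exact hf n

lemma Li.zero : Li 0 0 := by
  intro n; simp

lemma Li.sum {ι : Type*} (s : Finset ι) {f : ι → ℝ[X]} {K : ι → ℝ}
    (h : ∀ i ∈ s, Li (f i) (K i)) : Li (∑ i ∈ s, f i) (∑ i ∈ s, K i) := by
  intro n
  rw [finsetSum_coeff]
  exact (abs_sum_le_sum_abs _ _).trans (Finset.sum_le_sum fun i hi => h i hi n)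

lemma Li.smul {f : ℝ[X]} {K : ℝ} (c : ℝ) (h : Li f K) : Li (C c * f) (|c| * K) := by
  intro n
  rw [coeff_C_mul, abs_mul]
  exact mul_le_mul_of_nonneg_left (h n) (abs_nonneg _)

lemma Op.mul_Li {f g : ℝ[X]} {A K : ℝ} (hf : Op f A) (hg : Li g K) : Li (f * g) (A * K) :=
  hf g K hg

lemma Op.mul_Li' {f g : ℝ[X]} {A K : ℝ} (hf : Op f A) (hg : Li g K) : Li (g * f) (A * K) := by
  rw [mul_comm]; exact hf g K hg

lemma Op.mul {f g : ℝ[X]} {A B : ℝ} (hf : Op f A) (hg : Op g B) : Op (f * g) (A * B) := by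
  intro k K hk
  rw [mul_assoc, mul_assoc]
  exact hf _ _ (hg _ _ hk)

lemma Op.add {f g : ℝ[X]} {A B : ℝ} (hf : Op f A) (hg : Op g B) : Op (f + g) (A + B) := by
  intro k K hk
  rw [add_mul, add_mul]
  exact (hf _ _ hk).add (hg _ _ hk)

lemma Op.sub {f g : ℝ[X]} {A B : ℝ} (hf : Op f A) (hg : Op g B) : Op (f - g) (A + B) := by
  intro k K hk
  rw [sub_mul, add_mul]
  exact (hf _ _ hk).sub (hg _ _ hk)

lemma Op.mono {f : ℝ[X]} {A B : ℝ} (hf : Op f A) (h : A ≤ B) : Op f B := by
  intro k K hk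
  exact (hf _ _ hk).mono (mul_le_mul_of_nonneg_right h hk.nonneg)

lemma Op.sum {ι : Type*} (s : Finset ι) {f : ι → ℝ[X]} {K : ι → ℝ}
    (h : ∀ i ∈ s, Op (f i) (K i)) : Op (∑ i ∈ s, f i) (∑ i ∈ s, K i) := by
  intro g L hg
  rw [Finset.sum_mul, Finset.sum_mul]
  exact Li.sum s fun i hi => h i hi g L hg

lemma Op.X_pow (k : ℕ) : Op (X ^ k) 1 := by
  intro g K hg n
  rw [coeff_X_pow_mul', one_mul]
  split_ifs with h
  · exact hg _
  · simpa using hg.nonneg

lemma Op.X_one : Op X 1 := by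
  simpa using Op.X_pow 1

lemma Op.one : Op 1 1 := by
  simpa using Op.X_pow 0

lemma Op.zero : Op 0 0 := by
  intro g K hg
  simpa using Li.zero

lemma Op.one_sub_X : Op (1 - Polynomial.X) 2 := by
  have := Op.one.sub Op.X_one
  norm_num at this
  exact this

lemma Li.one : Li 1 1 := by
  intro n
  rw [coeff_one]
  split_ifs <;> simp

lemma Li.X_pow (k : ℕ) : Li (X ^ k) 1 := by
  have := (Op.X_pow k).mul_Li Li.one
  simpa using this

/-- an injectively indexed sum of monomials has sup norm at most `1` -/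
lemma Li.sum_X_pow {ι : Type*} (s : Finset ι) (w : ι → ℕ)
    (hw : ∀ i ∈ s, ∀ j ∈ s, w i = w j → i = j) : Li (∑ i ∈ s, X ^ (w i)) 1 := by
  intro n
  rw [finsetSum_coeff]
  simp only [coeff_X_pow]
  rw [Finset.sum_boole]
  rw [abs_of_nonneg (by positivity)]
  have : #{x ∈ s | n = w x} ≤ 1 := by
    rw [Finset.card_le_one]
    intro a ha b hb
    rw [Finset.mem_filter] at ha hb
    exact hw a ha.1 b hb.1 (by rw [← ha.2, ← hb.2])
  exact_mod_cast this

/-- power sums in the variables `X, X^2, ..., X^m` -/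
noncomputable def ps (i m : ℕ) : ℝ[X] := ∑ z ∈ range m, X ^ (i * (z + 1))

lemma ps_succ (i m : ℕ) : ps i (m + 1) = ps i m + (X ^ (m + 1)) ^ i := by
  unfold ps
  rw [Finset.sum_range_succ, ← pow_mul, mul_comm i (m + 1)]

lemma Li.ps {i : ℕ} (hi : 1 ≤ i) (m : ℕ) : Li (ps i m) 1 := by
  apply Li.sum_X_pow
  intro a _ b _ h
  have := Nat.eq_of_mul_eq_mul_left (by omega) h
  omega

lemma Op.ps (i m : ℕ) : Op (ps i m) m := by
  have := Op.sum (range m) (f := fun z => (Polynomial.X : ℝ[X]) ^ (i * (z + 1)))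
    (K := fun _ => (1 : ℝ)) (fun z _ => Op.X_pow _)
  simpa [Pool.Agent.H56.U71.ps] using this

lemma one_sub_X_mul_ps (m : ℕ) : (1 - X) * ps 1 m = X - X ^ (m + 1) := by
  induction m with
  | zero => simp [ps]
  | succ m ih =>
    rw [ps_succ, mul_add, ih, pow_one]
    ring

lemma Op.dps (m : ℕ) : Op ((1 - Polynomial.X) * Pool.Agent.H56.U71.ps 1 m) 2 := by
  rw [one_sub_X_mul_ps]
  have := Op.X_one.sub (Op.X_pow (m + 1))
  norm_num at this
  exact this

/-- elementary symmetric polynomials in the variables `X, X^2, ..., X^m` -/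
noncomputable def B : ℕ → ℕ → ℝ[X]
  | 0, _ => 1
  | (_ + 1), 0 => 0
  | (d + 1), (m + 1) => B (d + 1) m + X ^ (m + 1) * B d m

@[simp] lemma B_zero (m : ℕ) : B 0 m = 1 := by
  cases m <;> rfl

@[simp] lemma B_succ_zero (d : ℕ) : B (d + 1) 0 = 0 := rfl

lemma B_succ_succ (d m : ℕ) : B (d + 1) (m + 1) = B (d + 1) m + X ^ (m + 1) * B d m := rfl

/-- alternating Newton sum -/
noncomputable def NS (d m : ℕ) : ℝ[X] := ∑ i ∈ range (d + 1), (-1) ^ i * (B (d - i) m * ps (i + 1) m)

lemma alt_tele (d m : ℕ) (x : ℝ[X]) :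
    (∑ i ∈ range (d + 2), (-1) ^ i * (B (d + 1 - i) m * x ^ (i + 1)))
      + (∑ i ∈ range (d + 1), (-1) ^ i * (B (d - i) m * x ^ (i + 2))) = x * B (d + 1) m := by
  rw [Finset.sum_range_succ']
  have : ∀ i ∈ range (d + 1), (-1 : ℝ[X]) ^ (i + 1) * (B (d + 1 - (i + 1)) m * x ^ (i + 1 + 1))
      = - ((-1) ^ i * (B (d - i) m * x ^ (i + 2))) := by
    intro i _
    rw [Nat.add_sub_add_right]
    ring
  rw [Finset.sum_congr rfl this, Finset.sum_neg_distrib]
  simp
  ring

lemma newton (d m : ℕ) : ((d + 1 : ℕ) : ℝ[X]) * B (d + 1) m = NS d m := by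
  induction m generalizing d with
  | zero => simp [NS, ps]
  | succ m ih =>
    -- expand NS d (m+1)
    set x : ℝ[X] := X ^ (m + 1) with hx
    cases d with
    | zero =>
      have h0 := ih 0
      simp only [NS, zero_add, range_one, sum_singleton, pow_zero, Nat.sub_zero, B_zero, one_mul,
        Nat.cast_one] at h0 ⊢
      rw [B_succ_succ, ps_succ, B_zero, h0, pow_one, mul_one]
    | succ d =>
      have h1 := ih (d + 1)
      have h0 := ih d
      have key : NS (d + 1) (m + 1) = NS (d + 1) m + x * NS d m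
          + ((∑ i ∈ range (d + 2), (-1) ^ i * (B (d + 1 - i) m * x ^ (i + 1)))
            + (∑ i ∈ range (d + 1), (-1) ^ i * (B (d - i) m * x ^ (i + 2)))) := by
        unfold NS
        have e1 : ∀ i ∈ range (d + 1), (-1 : ℝ[X]) ^ i * (B (d + 1 - i) (m + 1) * ps (i + 1) (m + 1))
            = (-1) ^ i * (B (d + 1 - i) m * ps (i + 1) m)
              + x * ((-1) ^ i * (B (d - i) m * ps (i + 1) m))
              + (-1) ^ i * (B (d + 1 - i) m * x ^ (i + 1))
              + (-1) ^ i * (B (d - i) m * x ^ (i + 2)) := by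
          intro i hi
          have hi' : i ≤ d := by
            have := Finset.mem_range.mp hi; omega
          have e : d + 1 - i = (d - i) + 1 := by omega
          rw [e, B_succ_succ, ps_succ, ← hx]
          ring
        have s1 : ∑ i ∈ range (d + 2), (-1 : ℝ[X]) ^ i * (B (d + 1 - i) m * ps (i + 1) m)
            = ∑ i ∈ range (d + 1), (-1 : ℝ[X]) ^ i * (B (d + 1 - i) m * ps (i + 1) m)
              + (-1) ^ (d + 1) * ps (d + 2) m := by
          rw [Finset.sum_range_succ]; simp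
        have s2 : ∑ i ∈ range (d + 2), (-1 : ℝ[X]) ^ i * (B (d + 1 - i) m * x ^ (i + 1))
            = ∑ i ∈ range (d + 1), (-1 : ℝ[X]) ^ i * (B (d + 1 - i) m * x ^ (i + 1))
              + (-1) ^ (d + 1) * x ^ (d + 2) := by
          rw [Finset.sum_range_succ]; simp
        have s3 : ∑ i ∈ range (d + 2), (-1 : ℝ[X]) ^ i * (B (d + 1 - i) (m + 1) * ps (i + 1) (m + 1))
            = ∑ i ∈ range (d + 1), (-1 : ℝ[X]) ^ i * (B (d + 1 - i) (m + 1) * ps (i + 1) (m + 1))
              + (-1) ^ (d + 1) * (ps (d + 2) m + x ^ (d + 2)) := by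
          rw [Finset.sum_range_succ]; simp [ps_succ, hx]
        rw [show d + 1 + 1 = d + 2 from rfl, s1, s2, s3, Finset.sum_congr rfl e1]
        simp only [Finset.sum_add_distrib, ← Finset.mul_sum]
        ring
      rw [key, alt_tele, ← h1, ← h0, B_succ_succ, ← hx]
      push_cast
      ring

/-! ### Asymptotic predicates -/

/-- sup norm of the family is `O(m^e)` -/
def BL (f : ℕ → ℝ[X]) (e : ℕ) : Prop := ∃ C : ℝ, 0 ≤ C ∧ ∀ m : ℕ, 1 ≤ m → Li (f m) (C * (m : ℝ) ^ e)

/-- operator norm of the family is `O(m^e)` -/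
def BO (f : ℕ → ℝ[X]) (e : ℕ) : Prop := ∃ C : ℝ, 0 ≤ C ∧ ∀ m : ℕ, 1 ≤ m → Op (f m) (C * (m : ℝ) ^ e)

lemma pow_mono_nat {m : ℕ} (hm : 1 ≤ m) {e e' : ℕ} (h : e ≤ e') : (m : ℝ) ^ e ≤ (m : ℝ) ^ e' :=
  pow_le_pow_right₀ (by exact_mod_cast hm) h

lemma BL.mono {f : ℕ → ℝ[X]} {e e' : ℕ} (hf : BL f e) (h : e ≤ e') : BL f e' := by
  obtain ⟨C, hC, H⟩ := hf
  exact ⟨C, hC, fun m hm => (H m hm).mono (mul_le_mul_of_nonneg_left (pow_mono_nat hm h) hC)⟩

lemma BO.mono {f : ℕ → ℝ[X]} {e e' : ℕ} (hf : BO f e) (h : e ≤ e') : BO f e' := by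
  obtain ⟨C, hC, H⟩ := hf
  exact ⟨C, hC, fun m hm => (H m hm).mono (mul_le_mul_of_nonneg_left (pow_mono_nat hm h) hC)⟩

lemma BL.add {f g : ℕ → ℝ[X]} {e : ℕ} (hf : BL f e) (hg : BL g e) : BL (fun m => f m + g m) e := by
  obtain ⟨C, hC, H⟩ := hf
  obtain ⟨D, hD, K⟩ := hg
  refine ⟨C + D, by positivity, fun m hm => ?_⟩
  rw [add_mul]
  exact (H m hm).add (K m hm)

lemma BL.sub {f g : ℕ → ℝ[X]} {e : ℕ} (hf : BL f e) (hg : BL g e) : BL (fun m => f m - g m) e := by
  obtain ⟨C, hC, H⟩ := hf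
  obtain ⟨D, hD, K⟩ := hg
  refine ⟨C + D, by positivity, fun m hm => ?_⟩
  rw [add_mul]
  exact (H m hm).sub (K m hm)

lemma BL.zero (e : ℕ) : BL (fun _ => 0) e :=
  ⟨0, le_rfl, fun m _ => by rw [zero_mul]; exact Li.zero⟩

lemma BL.smul {f : ℕ → ℝ[X]} {e : ℕ} (c : ℝ) (hf : BL f e) : BL (fun m => Polynomial.C c * f m) e := by
  obtain ⟨C, hC, H⟩ := hf
  refine ⟨|c| * C, by positivity, fun m hm => ?_⟩
  rw [mul_assoc]
  exact (H m hm).smul c

lemma BL.sum {ι : Type*} (s : Finset ι) {f : ι → ℕ → ℝ[X]} {e : ℕ} (h : ∀ i ∈ s, BL (f i) e) :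
    BL (fun m => ∑ i ∈ s, f i m) e := by
  classical
  induction s using Finset.induction_on with
  | empty => simpa using BL.zero e
  | insert a s ha ih =>
    have h1 := (h a (Finset.mem_insert_self a s)).add
      (ih (fun i hi => h i (Finset.mem_insert_of_mem hi)))
    obtain ⟨C, hC, H⟩ := h1
    refine ⟨C, hC, fun m hm => ?_⟩
    have h2 := H m hm
    have e3 : ∑ i ∈ insert a s, f i m = f a m + ∑ i ∈ s, f i m := Finset.sum_insert ha
    show Li (∑ i ∈ insert a s, f i m) _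
    rw [e3]
    exact h2

lemma BL.congr {f g : ℕ → ℝ[X]} {e : ℕ} (hf : BL f e) (h : ∀ m, f m = g m) : BL g e := by
  have : f = g := funext h
  rwa [← this]

lemma BO.congr {f g : ℕ → ℝ[X]} {e : ℕ} (hf : BO f e) (h : ∀ m, f m = g m) : BO g e := by
  have : f = g := funext h
  rwa [← this]

lemma BO.mulL {f g : ℕ → ℝ[X]} {e e' : ℕ} (hf : BO f e) (hg : BL g e') :
    BL (fun m => f m * g m) (e + e') := by
  obtain ⟨C, hC, H⟩ := hf
  obtain ⟨D, hD, K⟩ := hg
  refine ⟨C * D, by positivity, fun m hm => ?_⟩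
  have := (H m hm).mul_Li (K m hm)
  refine this.mono (le_of_eq ?_)
  rw [pow_add]; ring

lemma BO.mul {f g : ℕ → ℝ[X]} {e e' : ℕ} (hf : BO f e) (hg : BO g e') :
    BO (fun m => f m * g m) (e + e') := by
  obtain ⟨C, hC, H⟩ := hf
  obtain ⟨D, hD, K⟩ := hg
  refine ⟨C * D, by positivity, fun m hm => ?_⟩
  have := (H m hm).mul (K m hm)
  refine this.mono (le_of_eq ?_)
  rw [pow_add]; ring

lemma BO.const {f : ℝ[X]} {K : ℝ} (h : Op f K) (hK : 0 ≤ K) : BO (fun _ => f) 0 :=
  ⟨K, hK, fun m _ => by simpa using h⟩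

lemma BL.const {f : ℝ[X]} {K : ℝ} (h : Li f K) : BL (fun _ => f) 0 :=
  ⟨K, h.nonneg, fun m _ => by simpa using h⟩

lemma BO.oneSubX : BO (fun _ => 1 - X) 0 := BO.const Op.one_sub_X (by norm_num)

lemma BO.ps (i : ℕ) : BO (Pool.Agent.H56.U71.ps i) 1 :=
  ⟨1, zero_le_one, fun m _ => by simpa using Op.ps i m⟩

lemma BL.ps {i : ℕ} (hi : 1 ≤ i) : BL (Pool.Agent.H56.U71.ps i) 0 :=
  ⟨1, zero_le_one, fun m _ => by simpa using Li.ps hi m⟩

lemma BO.dps : BO (fun m => (1 - X) * Pool.Agent.H56.U71.ps 1 m) 0 :=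
  ⟨2, zero_le_two, fun m _ => by simpa using Op.dps m⟩

lemma BO.dpsi (i : ℕ) : BO (fun m => (1 - X) * Pool.Agent.H56.U71.ps i m) 1 := by
  simpa using BO.oneSubX.mul (BO.ps i)

lemma BL.dpsi {i : ℕ} (hi : 1 ≤ i) : BL (fun m => (1 - X) * Pool.Agent.H56.U71.ps i m) 0 := by
  simpa using BO.oneSubX.mulL (BL.ps hi)

lemma Op.B (d m : ℕ) : Op (B d m) ((m : ℝ) ^ d) := by
  induction m generalizing d with
  | zero =>
    cases d with
    | zero => simpa using Op.one
    | succ d => simpa using Op.zero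
  | succ m ih =>
    cases d with
    | zero => simpa using Op.one
    | succ d =>
      rw [B_succ_succ]
      have h := (ih (d + 1)).add ((Op.X_pow (m + 1)).mul (ih d))
      refine h.mono ?_
      have h1 : (m : ℝ) ^ d ≤ ((m : ℝ) + 1) ^ d := by
        apply pow_le_pow_left₀ (by positivity)
        linarith
      push_cast
      have : (m : ℝ) ^ (d + 1) + 1 * (m : ℝ) ^ d = (m : ℝ) ^ d * ((m : ℝ) + 1) := by ring
      rw [this, pow_succ]
      exact mul_le_mul_of_nonneg_right h1 (by positivity)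

lemma BO.B (d : ℕ) : BO (Pool.Agent.H56.U71.B d) d :=
  ⟨1, zero_le_one, fun m _ => by simpa using Op.B d m⟩

/-- Newton reduction. -/
lemma BL_newton (q : ℝ[X]) (d e : ℕ)
    (h : ∀ i ≤ d, BL (fun m => q * (B (d - i) m * ps (i + 1) m)) e) :
    BL (fun m => q * B (d + 1) m) e := by
  have h1 : BL (fun m => ∑ i ∈ range (d + 1),
      Polynomial.C ((-1 : ℝ) ^ i) * (q * (B (d - i) m * ps (i + 1) m))) e :=
    BL.sum _ fun i hi => (h i (by have := Finset.mem_range.mp hi; omega)).smul _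
  have h2 := h1.smul (((d + 1 : ℕ) : ℝ)⁻¹)
  refine h2.congr fun m => ?_
  have hN := newton d m
  unfold NS at hN
  have e1 : ∑ i ∈ range (d + 1), Polynomial.C ((-1 : ℝ) ^ i) * (q * (B (d - i) m * ps (i + 1) m))
      = q * (((d + 1 : ℕ) : ℝ[X]) * B (d + 1) m) := by
    rw [hN, Finset.mul_sum]
    refine Finset.sum_congr rfl fun i _ => ?_
    simp only [map_pow, map_neg, map_one]
    ring
  rw [e1]
  have e2 : (Polynomial.C (((d + 1 : ℕ) : ℝ)⁻¹)) * ((d + 1 : ℕ) : ℝ[X]) = 1 := by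
    rw [← Polynomial.C_eq_natCast, ← Polynomial.C_mul, inv_mul_cancel₀ (by positivity),
      Polynomial.C_1]
  calc _ = q * ((Polynomial.C (((d + 1 : ℕ) : ℝ)⁻¹)) * ((d + 1 : ℕ) : ℝ[X])) * B (d + 1) m := by ring
    _ = _ := by rw [e2, mul_one]

lemma BL0_B (d : ℕ) : BL (B d) (d - 1) := by
  cases d with
  | zero => exact (BL.const Li.one).congr fun m => by simp
  | succ d =>
    have := BL_newton 1 d d (fun i hi => ?_)
    · simpa using this
    · simp only [one_mul]
      exact ((BO.B (d - i)).mulL (BL.ps (by omega))).mono (by omega)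

lemma BL1_B (d : ℕ) : BL (fun m => (1 - X) * B d m) (d - 2) := by
  cases d with
  | zero =>
    simpa using BL.const (Op.one_sub_X.mul_Li Li.one)
  | succ d =>
    refine BL_newton _ d _ (fun i hi => ?_)
    cases i with
    | zero =>
      refine ((BO.dps.mulL (BL0_B d)).congr fun m => ?_).mono (by omega)
      simp; ring
    | succ i =>
      exact (BO.oneSubX.mulL ((BO.B (d - (i + 1))).mulL (BL.ps (by omega)))).mono (by omega)

lemma BL2_B (d : ℕ) : BL (fun m => (1 - X) ^ 2 * B d m) (d - 3) := by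
  cases d with
  | zero =>
    have := BL.const (Op.one_sub_X.mul_Li (Op.one_sub_X.mul_Li Li.one))
    refine this.congr fun m => ?_
    simp; ring
  | succ d =>
    refine BL_newton _ d _ (fun i hi => ?_)
    match i with
    | 0 =>
      refine ((BO.dps.mulL (BL1_B d)).congr fun m => ?_).mono (by omega)
      simp; ring
    | 1 =>
      rcases Nat.lt_or_ge d 3 with h3 | h3
      · -- d = 1 or 2
        have hd : d = 1 ∨ d = 2 := by omega
        rcases hd with rfl | rfl
        · have := BO.oneSubX.mulL (BL.dpsi (i := 2) (by norm_num))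
          refine this.congr fun m => ?_
          simp; ring
        · have := BO.dps.mulL (BL.dpsi (i := 2) (by norm_num))
          refine this.congr fun m => ?_
          have hB1 : B 1 m = ps 1 m := by
            have := newton 0 m
            simpa [NS] using this
          simp [hB1]; ring
      · refine (((BO.dpsi 2).mulL (BL1_B (d - 1))).congr fun m => ?_).mono (by omega)
        ring
    | (i + 2) =>
      refine ((BO.oneSubX.mulL (BO.oneSubX.mulL ((BO.B (d - (i + 2))).mulL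
        (BL.ps (i := i + 3) (by omega))))).congr fun m => ?_).mono (by omega)
      ring

/-- remainder `d! e_d - p_1^d` -/
noncomputable def R (d m : ℕ) : ℝ[X] := ((d.factorial : ℕ) : ℝ[X]) * B d m - ps 1 m ^ d

lemma R_succ (d m : ℕ) : R (d + 1) m = R d m * ps 1 m
    + ((d.factorial : ℕ) : ℝ[X]) * ∑ i ∈ range d, (-1) ^ (i + 1) * (B (d - (i + 1)) m * ps (i + 2) m) := by
  have hN := newton d m
  unfold NS at hN
  rw [Finset.sum_range_succ'] at hN
  simp only [pow_zero, Nat.sub_zero, one_mul, zero_add] at hN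
  unfold R
  rw [Nat.factorial_succ, Nat.cast_mul, mul_comm ((d + 1 : ℕ) : ℝ[X]), mul_assoc, hN]
  ring

/-- Reduction for `R`. -/
lemma BL_R (q : ℝ[X]) (d e : ℕ) (h0 : BL (fun m => q * (R d m * ps 1 m)) e)
    (h : ∀ i < d, BL (fun m => q * (B (d - (i + 1)) m * ps (i + 2) m)) e) :
    BL (fun m => q * R (d + 1) m) e := by
  have h1 : BL (fun m => ∑ i ∈ range d,
      Polynomial.C ((-1 : ℝ) ^ (i + 1)) * (q * (B (d - (i + 1)) m * ps (i + 2) m))) e :=
    BL.sum _ fun i hi => (h i (Finset.mem_range.mp hi)).smul _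
  have h2 := h0.add (h1.smul ((d.factorial : ℕ) : ℝ))
  refine h2.congr fun m => ?_
  rw [R_succ]
  have e1 : ∑ i ∈ range d,
      Polynomial.C ((-1 : ℝ) ^ (i + 1)) * (q * (B (d - (i + 1)) m * ps (i + 2) m))
      = q * ∑ i ∈ range d, (-1) ^ (i + 1) * (B (d - (i + 1)) m * ps (i + 2) m) := by
    rw [Finset.mul_sum]
    refine Finset.sum_congr rfl fun i _ => ?_
    simp only [map_pow, map_neg, map_one]
    ring
  rw [e1, Polynomial.C_eq_natCast]
  ring

@[simp] lemma R_zero (m : ℕ) : R 0 m = 0 := by simp [R]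

lemma B_one (m : ℕ) : B 1 m = ps 1 m := by
  have := newton 0 m
  simpa [NS] using this

@[simp] lemma R_one (m : ℕ) : R 1 m = 0 := by simp [R, B_one]

lemma BL0_R (d : ℕ) : BL (R d) (d - 2) := by
  induction d with
  | zero => exact (BL.zero _).congr fun m => by simp
  | succ d ih =>
    rcases Nat.eq_zero_or_pos d with rfl | hd
    · exact (BL.zero _).congr fun m => by simp
    have := BL_R 1 d (d - 1) ?_ ?_
    · simpa using this
    · rcases Nat.lt_or_ge d 2 with h | h
      · have : d = 1 := by omega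
        subst this
        exact (BL.zero _).congr fun m => by simp
      · refine (((BO.ps 1).mulL ih).congr fun m => ?_).mono (by omega)
        ring
    · intro i hi
      simp only [one_mul]
      exact ((BO.B (d - (i + 1))).mulL (BL.ps (by omega))).mono (by omega)

lemma BL1_R (d : ℕ) : BL (fun m => (1 - X) * R d m) (d - 3) := by
  cases d with
  | zero => exact (BL.zero _).congr fun m => by simp
  | succ d =>
    refine BL_R _ d _ ?_ ?_
    · refine ((BO.dps.mulL (BL0_R d)).congr fun m => ?_).mono (by omega)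
      ring
    · intro i hi
      cases i with
      | zero =>
        rcases Nat.lt_or_ge d 3 with h3 | h3
        · have hd : d = 1 ∨ d = 2 := by omega
          rcases hd with rfl | rfl
          · refine (BL.dpsi (i := 2) (by norm_num)).congr fun m => ?_
            simp
          · refine (BO.dps.mulL (BL.ps (i := 2) (by norm_num))).congr fun m => ?_
            simp [B_one]; ring
        · refine (((BO.ps 2).mulL (BL1_B (d - 1))).congr fun m => ?_).mono (by omega)
          simp; ring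
      | succ i =>
        exact (BO.oneSubX.mulL ((BO.B (d - (i + 1 + 1))).mulL (BL.ps (by omega)))).mono (by omega)

lemma BL2_R {d : ℕ} (hd : 5 ≤ d) : BL (fun m => (1 - X) ^ 2 * R d m) (d - 4) := by
  obtain ⟨d, rfl⟩ : ∃ k, d = k + 1 := ⟨d - 1, by omega⟩
  refine BL_R _ d _ ?_ ?_
  · refine ((BO.dps.mulL (BL1_R d)).congr fun m => ?_).mono (by omega)
    ring
  · intro i hi
    match i with
    | 0 =>
      refine (((BO.ps 2).mulL (BL2_B (d - 1))).congr fun m => ?_).mono (by omega)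
      simp; ring
    | 1 =>
      refine (((BO.dpsi 3).mulL (BL1_B (d - 2))).congr fun m => ?_).mono (by omega)
      simp; ring
    | (i + 2) =>
      refine ((BO.oneSubX.mulL (BO.oneSubX.mulL ((BO.B (d - (i + 3))).mulL
        (BL.ps (i := i + 4) (by omega))))).congr fun m => ?_).mono (by omega)
      ring

end Pool.Agent.H56.U71
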