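import Mathlib
import Pool.Agent.H56.U71Poly

/-!
Helper file for MP_71be06_co: the number `W m r x` of `r`-tuples in `{0,...,m-1}` with sum `x`,
its symmetry, unimodality, and a quantitative strict growth before the middle.
-/

namespace Pool.Agent.H56.U71

open Finset

/-- number of `r`-tuples of elements of `{0,...,m-1}` with sum `x` -/
noncomputable def W (m : ℕ) : ℕ → ℤ → ℝ
  | 0, x => if x = 0 then 1 else 0
  | (r + 1), x => ∑ z ∈ range m, W m r (x - z)

lemma W_succ (m r : ℕ) (x : ℤ) : W m (r + 1) x = ∑ z ∈ range m, W m r (x - z) := rfl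

lemma W_neg (m r : ℕ) {x : ℤ} (hx : x < 0) : W m r x = 0 := by
  induction r generalizing x with
  | zero => simp [W]; omega
  | succ r ih =>
    rw [W_succ]
    exact Finset.sum_eq_zero fun z _ => ih (by omega)

lemma W_symm {m : ℕ} (r : ℕ) (x : ℤ) : W m r (r * ((m : ℤ) - 1) - x) = W m r x := by
  induction r generalizing x with
  | zero => simp [W]
  | succ r ih =>
    rw [W_succ, W_succ, ← Finset.sum_range_reflect]
    refine Finset.sum_congr rfl fun z hz => ?_
    have hz' := Finset.mem_range.mp hz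
    rw [← ih (x - z)]
    congr 1
    push_cast [Nat.cast_sub (show 1 ≤ m by omega), Nat.cast_sub (show z ≤ m - 1 by omega)]
    ring

lemma W_diff (m r : ℕ) (x : ℤ) :
    W m (r + 1) x - W m (r + 1) (x - 1) = W m r x - W m r (x - m) := by
  rw [W_succ, W_succ, ← Finset.sum_sub_distrib]
  have := Finset.sum_range_sub' (fun z : ℕ => W m r (x - z)) m
  simp only [Nat.cast_zero, sub_zero] at this
  rw [← this]
  refine Finset.sum_congr rfl fun z _ => ?_
  congr 2
  push_cast
  ring

lemma W_mono (m r : ℕ) : ∀ x y : ℤ, x ≤ y → x + y ≤ r * ((m : ℤ) - 1) → W m r x ≤ W m r y := by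
  induction r with
  | zero =>
    intro x y hxy h
    simp only [Nat.cast_zero, zero_mul] at h
    simp only [W]
    split_ifs with h1 h2
    · exact le_rfl
    · exfalso; omega
    · exact zero_le_one
    · exact le_rfl
  | succ r ih =>
    -- single steps
    have step : ∀ j : ℤ, 2 * j - 1 ≤ (r + 1 : ℕ) * ((m : ℤ) - 1) → W m (r + 1) (j - 1) ≤ W m (r + 1) j := by
      intro j hj
      have h := W_diff m r j
      have h2 := ih (j - m) j (by omega) (by push_cast at hj; linarith)
      linarith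
    have chain : ∀ (x : ℤ) (n : ℕ), 2 * (x + n) - 1 ≤ (r + 1 : ℕ) * ((m : ℤ) - 1) →
        W m (r + 1) x ≤ W m (r + 1) (x + n) := by
      intro x n
      induction n with
      | zero => intro _; simp
      | succ n ihn =>
        intro h
        push_cast at h ⊢
        refine (ihn (by push_cast; linarith)).trans ?_
        have := step (x + (n + 1)) (by push_cast; linarith)
        rwa [show x + ((n : ℤ) + 1) - 1 = x + n by ring] at this
    intro x y hxy h
    rcases le_or_gt (2 * y - 1) ((r + 1 : ℕ) * ((m : ℤ) - 1)) with hy | hy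
    · have := chain x (y - x).toNat (by rw [Int.toNat_of_nonneg (by omega)]; linarith)
      rwa [Int.toNat_of_nonneg (by omega), show x + (y - x) = y by ring] at this
    · rw [← W_symm (r + 1) y]
      set y' : ℤ := (r + 1 : ℕ) * ((m : ℤ) - 1) - y with hy'
      have hxy' : x ≤ y' := by linarith
      have := chain x (y' - x).toNat (by rw [Int.toNat_of_nonneg (by omega)]; linarith)
      rwa [Int.toNat_of_nonneg (by omega), show x + (y' - x) = y' by ring] at this

lemma W_one (m : ℕ) (x : ℤ) : W m 1 x = if 0 ≤ x ∧ x < m then 1 else 0 := by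
  rw [W_succ]
  simp only [W]
  split_ifs with h
  · rw [Finset.sum_eq_single (x.toNat)]
    · rw [if_pos]; omega
    · intro b _ hb
      rw [if_neg]; omega
    · intro hb
      exfalso
      apply hb
      rw [Finset.mem_range]; omega
  · refine Finset.sum_eq_zero fun z hz => ?_
    rw [if_neg]
    have := Finset.mem_range.mp hz
    omega

/-- first difference -/
noncomputable def G (m r : ℕ) (x : ℤ) : ℝ := W m r x - W m r (x - 1)

lemma G_antisymm (m r : ℕ) (x : ℤ) : G m r (r * ((m : ℤ) - 1) + 1 - x) = - G m r x := by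
  unfold G
  have h1 := W_symm (m := m) r (x - 1)
  have h2 := W_symm (m := m) r x
  rw [show (r : ℤ) * ((m : ℤ) - 1) + 1 - x = r * ((m : ℤ) - 1) - (x - 1) by ring, h1,
    show (r : ℤ) * ((m : ℤ) - 1) - (x - 1) - 1 = r * ((m : ℤ) - 1) - x by ring, h2]
  ring

lemma growth_sum (m r : ℕ) (c : ℝ) (u : ℤ) (n : ℕ)
    (h : ∀ j : ℤ, u < j → j ≤ u + n → c ≤ G m r j) : c * n ≤ W m r (u + n) - W m r u := by
  induction n with
  | zero => simp
  | succ n ih =>
    have h1 := ih (fun j hj hj' => h j hj (by push_cast; omega))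
    have h2 := h (u + (n + 1)) (by omega) (by push_cast; omega)
    unfold G at h2
    rw [show u + ((n : ℤ) + 1) - 1 = u + n by ring] at h2
    push_cast
    linarith

/-- Strict growth before the middle. -/
theorem growth (r : ℕ) (hr : 2 ≤ r) : ∀ δ : ℝ, 0 < δ → δ ≤ 1 → ∃ c : ℝ, 0 < c ∧ ∃ m0 : ℕ, 1 ≤ m0 ∧ ∀ m : ℕ, m0 ≤ m →
    ∀ x : ℤ, δ * m ≤ x → (x : ℝ) ≤ (r / 2 - δ) * m → c * (m : ℝ) ^ (r - 2) ≤ G m r x := by
  induction r, hr using Nat.le_induction with
  | base =>
    intro δ hδ _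
    refine ⟨1, one_pos, 1, le_rfl, fun m hm x h1 h2 => ?_⟩
    have hmR : (0 : ℝ) < m := by exact_mod_cast (show 0 < m by omega)
    have hx0 : (0 : ℝ) < x := lt_of_lt_of_le (by positivity) h1
    have hxm : (x : ℝ) < m := by
      refine h2.trans_lt ?_
      push_cast
      nlinarith
    have hx0' : 0 < x := by exact_mod_cast hx0
    have hxm' : x < m := by exact_mod_cast hxm
    unfold G
    rw [W_diff m 1 x, W_one, W_one, if_pos ⟨hx0'.le, hxm'⟩, if_neg (by omega)]
    norm_num
  | succ r hr ih =>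
    intro δ hδ hδ1
    obtain ⟨c, hc, m0, hm0, H⟩ := ih (δ / 4) (by positivity) (by linarith)
    -- thresholds
    obtain ⟨m1, hm1⟩ := exists_nat_ge ((4 * (r + 4)) / δ + 8 + 4 * (r + 4))
    refine ⟨c * (δ / 2), by positivity, max m0 m1, le_trans hm0 (le_max_left _ _), fun m hm x h1 h2 => ?_⟩
    have hmm0 : m0 ≤ m := (le_max_left _ _).trans hm
    have hmm1 : (m1 : ℝ) ≤ m := by exact_mod_cast (le_max_right _ _).trans hm
    have hmpos : (0 : ℝ) < m := by
      have : 1 ≤ m := hm0.trans hmm0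
      exact_mod_cast this
    have hrpos : (2 : ℝ) ≤ r := by exact_mod_cast hr
    have hmbig : (4 * (r + 4)) / δ + 8 + 4 * (r + 4) ≤ (m : ℝ) := hm1.trans hmm1
    have hδm : 4 * ((r : ℝ) + 4) ≤ δ * m := by
      have : (4 * (r + 4)) / δ ≤ (m : ℝ) := by
        have : (0:ℝ) ≤ 8 + 4 * (r + 4) := by positivity
        linarith
      rw [div_le_iff₀ hδ] at this
      linarith
    have hm8 : 8 + 4 * ((r : ℝ) + 4) ≤ m := by
      have : (0:ℝ) ≤ (4 * (r + 4)) / δ := by positivity
      linarith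
    push_cast at h2
    -- δ ≤ (r+1)/4
    have hδle : δ ≤ (r + 1) / 4 := by
      have h3 := h1.trans h2
      have h4 : δ ≤ ((r : ℝ) + 1) / 2 - δ := le_of_mul_le_mul_right h3 hmpos
      linarith
    -- the reflected point
    set s : ℤ := r * ((m : ℤ) - 1) with hs
    have hsR : (s : ℝ) = r * (m - 1) := by rw [hs]; push_cast; ring
    obtain ⟨xs, hxs_le, hxs_W, hxs1, hxs2⟩ : ∃ xs : ℤ, 2 * xs ≤ s ∧ W m r xs = W m r x ∧
        (x : ℝ) - m + δ * m / 2 ≤ xs ∧ δ * m / 4 + 1 + δ * m / 2 ≤ xs := by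
      rcases le_or_gt (2 * x) s with hx | hx
      · refine ⟨x, hx, rfl, ?_, ?_⟩
        · nlinarith
        · nlinarith
      · refine ⟨s - x, by omega, W_symm r x, ?_, ?_⟩
        · push_cast
          rw [hsR]
          nlinarith
        · push_cast
          rw [hsR]
          nlinarith
    set u : ℤ := max (x - m) ⌈δ * m / 4⌉ with hu
    set v : ℤ := min xs ⌊((r : ℝ) / 2 - δ / 4) * m⌋ with hv
    have hu1 : x - m ≤ u := le_max_left _ _
    have hu2 : δ * m / 4 ≤ u := (Int.le_ceil _).trans (by exact_mod_cast le_max_right _ _)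
    have hv1 : v ≤ xs := min_le_left _ _
    have hv2 : (v : ℝ) ≤ ((r : ℝ) / 2 - δ / 4) * m :=
      le_trans (by exact_mod_cast min_le_right _ _) (Int.floor_le _)
    have huv : δ * m / 2 ≤ (v : ℝ) - u := by
      have a1 := Int.ceil_lt_add_one (δ * (m : ℝ) / 4)
      have a2 := Int.sub_one_lt_floor (((r : ℝ) / 2 - δ / 4) * m)
      have hvR : (v : ℝ) = min (xs : ℝ) (⌊((r : ℝ) / 2 - δ / 4) * m⌋ : ℝ) := by
        rw [hv]; push_cast; rfl
      have huR : (u : ℝ) = max ((x : ℝ) - m) (⌈δ * (m : ℝ) / 4⌉ : ℝ) := by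
        rw [hu]; push_cast; rfl
      rw [hvR, huR]
      have hmδ : δ * m ≤ (r + 1) / 4 * m := mul_le_mul_of_nonneg_right hδle hmpos.le
      rcases le_total (xs : ℝ) (⌊((r : ℝ) / 2 - δ / 4) * m⌋ : ℝ) with c1 | c1 <;>
      rcases le_total ((x : ℝ) - m) (⌈δ * (m : ℝ) / 4⌉ : ℝ) with c2 | c2
      · rw [min_eq_left c1, max_eq_right c2]; linarith
      · rw [min_eq_left c1, max_eq_left c2]; linarith
      · rw [min_eq_right c1, max_eq_right c2]
        nlinarith
      · rw [min_eq_right c1, max_eq_left c2]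
        nlinarith
    have huv' : u ≤ v := by
      have : (0 : ℝ) ≤ (v : ℝ) - u := le_trans (by positivity) huv
      have : (u : ℝ) ≤ v := by linarith
      exact_mod_cast this
    have hgrow := growth_sum m r (c * (m : ℝ) ^ (r - 2)) u (v - u).toNat (by
      intro j hj1 hj2
      rw [Int.toNat_of_nonneg (by omega)] at hj2
      refine H m hmm0 j ?_ ?_
      · have : (u : ℝ) ≤ j := by exact_mod_cast hj1.le
        linarith
      · have : (j : ℝ) ≤ v := by exact_mod_cast (show j ≤ v by omega)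
        linarith)
    have hcast : (((v - u).toNat : ℕ) : ℝ) = (v : ℝ) - u := by
      have : (((v - u).toNat : ℕ) : ℤ) = v - u := Int.toNat_of_nonneg (by omega)
      exact_mod_cast this
    rw [hcast, Int.toNat_of_nonneg (by omega), show u + (v - u) = v by ring] at hgrow
    have hWv : W m r v ≤ W m r xs := W_mono m r v xs hv1 (by omega)
    have hWu : W m r (x - m) ≤ W m r u := W_mono m r _ u hu1 (by omega)
    unfold G
    rw [W_diff, ← hxs_W]
    have hfin : c * (δ / 2) * (m : ℝ) ^ (r + 1 - 2) ≤ c * (m : ℝ) ^ (r - 2) * ((v : ℝ) - u) := by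
      rw [show r + 1 - 2 = (r - 2) + 1 by omega, pow_succ]
      calc c * (δ / 2) * ((m : ℝ) ^ (r - 2) * m) = c * (m : ℝ) ^ (r - 2) * (δ * m / 2) := by ring
        _ ≤ _ := mul_le_mul_of_nonneg_left huv (by positivity)
    linarith

end Pool.Agent.H56.U71

namespace Pool.Agent.H56.U71

open Finset Polynomial

lemma coeff_ps_pow (m r k : ℕ) : (ps 1 m ^ r).coeff k = W m r ((k : ℤ) - r) := by
  induction r generalizing k with
  | zero =>
    simp only [pow_zero, coeff_one, W, Nat.cast_zero, sub_zero]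
    norm_cast
  | succ r ih =>
    have e : ps 1 m ^ (r + 1) = ∑ z ∈ range m, ps 1 m ^ r * X ^ (1 * (z + 1)) := by
      rw [pow_succ, ← Finset.mul_sum]; rfl
    rw [e, finsetSum_coeff, W_succ]
    refine Finset.sum_congr rfl fun z _ => ?_
    rw [one_mul, coeff_mul_X_pow']
    split_ifs with h
    · rw [ih]
      congr 1
      push_cast [Nat.cast_sub h]
      ring
    · rw [W_neg]
      push_cast
      omega

lemma coeff_one_sub_X_mul (f : ℝ[X]) (k : ℕ) :
    ((1 - X) * f).coeff (k + 1) = f.coeff (k + 1) - f.coeff k := by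
  rw [sub_mul, one_mul, coeff_sub, coeff_X_mul]

lemma coeff_one_sub_X_sq_mul (f : ℝ[X]) (k : ℕ) :
    ((1 - X) ^ 2 * f).coeff (k + 2) = (f.coeff (k + 2) - f.coeff (k + 1)) - (f.coeff (k + 1) - f.coeff k) := by
  rw [pow_two, mul_assoc, coeff_one_sub_X_mul, coeff_one_sub_X_mul, coeff_one_sub_X_mul]

lemma coeff_d1 (m r k : ℕ) : ((1 - X) * ps 1 m ^ r).coeff (k + 1) = G m r (((k + 1 : ℕ) : ℤ) - r) := by
  rw [coeff_one_sub_X_mul, coeff_ps_pow, coeff_ps_pow, G]
  congr 2
  push_cast
  ring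

lemma coeff_d2 (m r k : ℕ) : ((1 - X) ^ 2 * ps 1 m ^ (r + 1)).coeff (k + 2)
    = G m r (((k + 2 : ℕ) : ℤ) - (r + 1)) - G m r (((k + 2 : ℕ) : ℤ) - (r + 1) - m) := by
  rw [coeff_one_sub_X_sq_mul, coeff_ps_pow, coeff_ps_pow, coeff_ps_pow]
  have h1 := W_diff m r (((k + 2 : ℕ) : ℤ) - (r + 1))
  have h2 := W_diff m r (((k + 1 : ℕ) : ℤ) - (r + 1))
  have e1 : (((k + 2 : ℕ) : ℤ) - (r + 1)) - 1 = ((k + 1 : ℕ) : ℤ) - (r + 1) := by push_cast; ring
  have e2 : (((k + 1 : ℕ) : ℤ) - (r + 1)) - 1 = (k : ℤ) - (r + 1) := by push_cast; ring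
  have e3 : ((k + 2 : ℕ) : ℤ) - (r + 1) - m - 1 = ((k + 1 : ℕ) : ℤ) - (r + 1) - m := by push_cast; ring
  rw [e1] at h1
  rw [e2] at h2
  unfold G
  rw [e1, e3]
  push_cast at h1 h2 ⊢
  linarith

end Pool.Agent.H56.U71
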