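import Mathlib
import Pool.Agent.H56.U71W

/-!
Helper file for MP_71be06_co: the generating function of strict partitions below `lam`,
its decomposition at the smallest part, and the error bounds.
-/

namespace Pool.Agent.H56.U71

open Finset Polynomial

/-- generating function of strict partitions contained in `lam` with all parts at most `y` -/
noncomputable def A : (k : ℕ) → (Fin k → ℕ) → ℕ → ℝ[X]
  | 0, _, _ => 1
  | (k + 1), lam, y => 1 + ∑ x ∈ Icc 1 (min (lam 0) y), X ^ x * A k (Fin.tail lam) (x - 1)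

lemma A_succ (k : ℕ) (lam : Fin (k + 1) → ℕ) (y : ℕ) :
    A (k + 1) lam y = 1 + ∑ x ∈ Icc 1 (min (lam 0) y), X ^ x * A k (Fin.tail lam) (x - 1) := rfl

/-- `e_0 + ... + e_k` -/
noncomputable def E (k y : ℕ) : ℝ[X] := ∑ r ∈ range (k + 1), B r y

lemma B_eq_sum (r y : ℕ) : B (r + 1) y = ∑ x ∈ Icc 1 y, X ^ x * B r (x - 1) := by
  induction y with
  | zero => simp
  | succ y ih =>
    rw [B_succ_succ, ih, Finset.sum_Icc_succ_top (by omega)]
    simp

lemma E_succ (k y : ℕ) : E (k + 1) y = 1 + ∑ x ∈ Icc 1 y, X ^ x * E k (x - 1) := by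
  unfold E
  rw [Finset.sum_range_succ']
  simp only [B_zero, B_eq_sum, Finset.mul_sum]
  rw [Finset.sum_comm, add_comm]

lemma A_small (k : ℕ) (lam : Fin k → ℕ) (y : ℕ) (h : ∀ i, y ≤ lam i) : A k lam y = E k y := by
  induction k generalizing y with
  | zero => simp [A, E]
  | succ k ih =>
    rw [A_succ, E_succ, min_eq_right (h 0)]
    congr 1
    refine Finset.sum_congr rfl fun x hx => ?_
    rw [Finset.mem_Icc] at hx
    rw [ih (Fin.tail lam) (x - 1) (fun i => le_trans (by omega) (h i.succ))]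

lemma A_split (k m : ℕ) (lam : Fin (k + 1) → ℕ) (y : ℕ) (h : ∀ i, m ≤ lam i) (hy : m ≤ y) :
    A (k + 1) lam y = E (k + 1) m
      + ∑ x ∈ Icc (m + 1) (min (lam 0) y), X ^ x * A k (Fin.tail lam) (x - 1) := by
  have hm : m ≤ min (lam 0) y := le_min (h 0) hy
  have e : Icc 1 (min (lam 0) y) = Icc 1 m ∪ Icc (m + 1) (min (lam 0) y) := by
    ext x; simp only [Finset.mem_union, Finset.mem_Icc]; omega
  have hd : Disjoint (Icc 1 m) (Icc (m + 1) (min (lam 0) y)) := by
    rw [Finset.disjoint_left]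
    intro x hx hx'
    rw [Finset.mem_Icc] at hx hx'
    omega
  rw [A_succ, e, Finset.sum_union hd, E_succ, ← add_assoc]
  congr 2
  refine Finset.sum_congr rfl fun x hx => ?_
  rw [Finset.mem_Icc] at hx
  rw [A_small k (Fin.tail lam) (x - 1) (fun i => le_trans (by omega) (h i.succ))]

/-- `X^{m+1} + ... + X^t` -/
noncomputable def P (m t : ℕ) : ℝ[X] := ∑ x ∈ Icc (m + 1) t, X ^ x

lemma Li.P (m t : ℕ) : Li (P m t) 1 :=
  Li.sum_X_pow _ _ fun _ _ _ _ h => h

lemma one_sub_X_mul_P {m t : ℕ} (h : m ≤ t) : (1 - X) * P m t = X ^ (m + 1) - X ^ (t + 1) := by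
  induction t, h using Nat.le_induction with
  | base => simp [P]
  | succ t ht ih =>
    unfold P at *
    rw [Finset.sum_Icc_succ_top (by omega), mul_add, ih]
    ring

lemma Op.dP {m t : ℕ} (h : m ≤ t) : Op ((1 - Polynomial.X) * Pool.Agent.H56.U71.P m t) 2 := by
  rw [one_sub_X_mul_P h]
  have := (Op.X_pow (m + 1)).sub (Op.X_pow (t + 1))
  norm_num at this
  exact this

lemma A_one {m : ℕ} (lam : Fin 1 → ℕ) (h0 : lam 0 = m) {y : ℕ} (hy : m ≤ y) :
    A 1 lam y = E 1 m := by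
  have hall : ∀ i, m ≤ lam i := by
    intro i
    have : i = 0 := Fin.fin_one_eq_zero i
    rw [this, h0]
  have h := A_split 0 m lam y hall hy
  rw [h0, min_eq_left hy, Finset.Icc_eq_empty (by omega), Finset.sum_empty, add_zero] at h
  exact h

lemma A_two {m : ℕ} (lam : Fin 2 → ℕ) (h0 : m ≤ lam 0) (h1 : lam 1 = m) {y : ℕ} (hy : m ≤ y) :
    A 2 lam y = E 2 m + P m (min (lam 0) y) * E 1 m := by
  have hall : ∀ i, m ≤ lam i := by
    intro i
    fin_cases i
    · exact h0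
    · exact h1.ge
  have h := A_split 1 m lam y hall hy
  have e : ∑ x ∈ Icc (m + 1) (min (lam 0) y), (X : ℝ[X]) ^ x * A 1 (Fin.tail lam) (x - 1)
      = P m (min (lam 0) y) * E 1 m := by
    unfold P
    rw [Finset.sum_mul]
    refine Finset.sum_congr rfl fun x hx => ?_
    rw [Finset.mem_Icc] at hx
    rw [A_one (Fin.tail lam) h1 (show m ≤ x - 1 by omega)]
  rw [e] at h
  exact h

/-- generating function of pairs above `m`. -/
noncomputable def P2 (m l t : ℕ) : ℝ[X] := ∑ x ∈ Icc (m + 1) t, X ^ x * P m (min l (x - 1))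

lemma A_three {m : ℕ} (lam : Fin 3 → ℕ) (h0 : m ≤ lam 0) (h1 : m ≤ lam 1) (h2 : lam 2 = m) {y : ℕ}
    (hy : m ≤ y) :
    A 3 lam y = E 3 m + P m (min (lam 0) y) * E 2 m + P2 m (lam 1) (min (lam 0) y) * E 1 m := by
  have hall : ∀ i, m ≤ lam i := by
    intro i; fin_cases i
    · exact h0
    · exact h1
    · exact h2.ge
  have h := A_split 2 m lam y hall hy
  have e : ∑ x ∈ Icc (m + 1) (min (lam 0) y), (X : ℝ[X]) ^ x * A 2 (Fin.tail lam) (x - 1)
      = P m (min (lam 0) y) * E 2 m + P2 m (lam 1) (min (lam 0) y) * E 1 m := by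
    unfold P2
    conv_rhs => rw [show P m (min (lam 0) y) = ∑ x ∈ Icc (m + 1) (min (lam 0) y), (X : ℝ[X]) ^ x from rfl]
    rw [Finset.sum_mul, Finset.sum_mul, ← Finset.sum_add_distrib]
    refine Finset.sum_congr rfl fun x hx => ?_
    rw [Finset.mem_Icc] at hx
    have e2 := A_two (m := m) (Fin.tail lam) h1 h2 (y := x - 1) (by omega)
    have e3 : Fin.tail lam 0 = lam 1 := rfl
    rw [e2, e3]
    ring
  rw [e, ← add_assoc] at h
  exact h

lemma Li.dP2 {m l t : ℕ} (hl : m ≤ l) : Li ((1 - Polynomial.X) * Pool.Agent.H56.U71.P2 m l t) 2 := by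
  have e : (1 - Polynomial.X) * Pool.Agent.H56.U71.P2 m l t
      = (∑ x ∈ Icc (m + 1) t, (Polynomial.X : ℝ[X]) ^ (x + (m + 1)))
        - ∑ x ∈ Icc (m + 1) t, (Polynomial.X : ℝ[X]) ^ (x + (min l (x - 1) + 1)) := by
    unfold P2
    rw [Finset.mul_sum, ← Finset.sum_sub_distrib]
    refine Finset.sum_congr rfl fun x hx => ?_
    rw [Finset.mem_Icc] at hx
    calc (1 - Polynomial.X : ℝ[X]) * (Polynomial.X ^ x * Pool.Agent.H56.U71.P m (min l (x - 1)))
        = Polynomial.X ^ x * ((1 - Polynomial.X) * Pool.Agent.H56.U71.P m (min l (x - 1))) := by ring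
      _ = _ := by
        rw [one_sub_X_mul_P (le_min hl (by omega))]
        ring
  rw [e]
  have h1 : Li (∑ x ∈ Icc (m + 1) t, (Polynomial.X : ℝ[X]) ^ (x + (m + 1))) 1 :=
    Li.sum_X_pow _ _ (fun i _ j _ h => by omega)
  have h2 : Li (∑ x ∈ Icc (m + 1) t, (Polynomial.X : ℝ[X]) ^ (x + (min l (x - 1) + 1))) 1 := by
    refine Li.sum_X_pow _ _ (fun i hi j hj h => ?_)
    rw [Finset.mem_Icc] at hi hj
    rcases lt_trichotomy i j with hij | hij | hij
    · have : min l (i - 1) ≤ min l (j - 1) := min_le_min le_rfl (by omega)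
      omega
    · exact hij
    · have : min l (j - 1) ≤ min l (i - 1) := min_le_min le_rfl (by omega)
      omega
  have := h1.sub h2
  norm_num at this
  exact this

lemma BL1_E (k : ℕ) : BL (fun m => (1 - X) * E k m) (k - 2) := by
  have := BL.sum (range (k + 1)) (f := fun r m => (1 - X) * B r m) (e := k - 2)
    (fun r hr => (BL1_B r).mono (by have := Finset.mem_range.mp hr; omega))
  refine this.congr fun m => ?_
  rw [E, Finset.mul_sum]

lemma BL2_E (k : ℕ) : BL (fun m => (1 - X) ^ 2 * E k m) (k - 3) := by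
  have := BL.sum (range (k + 1)) (f := fun r m => (1 - X) ^ 2 * B r m) (e := k - 3)
    (fun r hr => (BL2_B r).mono (by have := Finset.mem_range.mp hr; omega))
  refine this.congr fun m => ?_
  rw [E, Finset.mul_sum]

lemma E_one (m : ℕ) : E 1 m = 1 + ps 1 m := by
  simp [E, Finset.sum_range_succ, B_one]

lemma two_B_two (m : ℕ) : B 2 m = C (1/2) * (ps 1 m ^ 2 - ps 2 m) := by
  have h := newton 1 m
  simp only [NS, Finset.sum_range_succ, Finset.sum_range_zero] at h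
  simp [B_one] at h
  have h2 : ps 1 m ^ 2 - ps 2 m = 2 * B 2 m := by
    first
      | (rw [h]; ring)
      | (have : (1 : ℝ[X]) + 1 = 2 := by norm_num
         rw [this] at h
         rw [h]; ring)
  rw [h2]
  have : (C (1/2 : ℝ) : ℝ[X]) * 2 = 1 := by
    rw [show (2 : ℝ[X]) = C 2 from (Polynomial.C_ofNat 2).symm, ← C_mul]
    norm_num
  rw [← mul_assoc, this, one_mul]

lemma E_two (m : ℕ) : E 2 m = 1 + ps 1 m + C (1/2) * (ps 1 m ^ 2 - ps 2 m) := by
  simp [E, Finset.sum_range_succ, B_one, two_B_two]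

/-- sum of `n ≤ h` shifted bounded polynomials. -/
lemma Li.shift_sum {m t h : ℕ} {K : ℝ} (hK : 0 ≤ K) (ht : t ≤ m + h) (f : ℕ → ℝ[X])
    (hf : ∀ x, m + 1 ≤ x → Li (f x) K) :
    Li (∑ x ∈ Icc (m + 1) t, X ^ x * f x) (h * K) := by
  have := Li.sum (Icc (m + 1) t) (f := fun x => X ^ x * f x) (K := fun _ => K) (fun x hx => by
    rw [Finset.mem_Icc] at hx
    simpa using (Op.X_pow x).mul_Li (hf x hx.1))
  refine this.mono ?_
  rw [Finset.sum_const, Nat.card_Icc, nsmul_eq_mul]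
  refine mul_le_mul_of_nonneg_right ?_ hK
  exact_mod_cast (by omega : t + 1 - (m + 1) ≤ h)

/-- admissible shapes of length `k + 1`: all parts between `m` and `m + h`, last part `m` -/
def Good (m h k : ℕ) (lam : Fin (k + 1) → ℕ) : Prop :=
  (∀ i, m ≤ lam i) ∧ (∀ i, lam i ≤ m + h) ∧ lam (Fin.last k) = m

lemma Good.tail {m h k : ℕ} {lam : Fin (k + 2) → ℕ} (H : Good m h (k + 1) lam) :
    Good m h k (Fin.tail lam) := by
  refine ⟨fun i => H.1 _, fun i => H.2.1 _, ?_⟩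
  have := H.2.2
  rwa [← Fin.succ_last] at this

lemma bound1 (k : ℕ) : ∃ C : ℝ, 0 ≤ C ∧ ∀ m h : ℕ, 1 ≤ m → h ≤ m → ∀ lam : Fin (k + 2) → ℕ,
    Good m h (k + 1) lam → ∀ y, m ≤ y → Li ((1 - X) * A (k + 2) lam y) (C * (m : ℝ) ^ k) := by
  induction k with
  | zero =>
    obtain ⟨C, hC, H⟩ := BL1_E 2
    refine ⟨C + 4, by positivity, fun m h hm _ lam hg y hy => ?_⟩
    have h1 := H m hm
    simp only [Nat.sub_self, pow_zero, mul_one] at h1
    rw [A_two lam (hg.1 0) hg.2.2 hy, mul_add, pow_zero, mul_one]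
    refine h1.add ?_
    rw [← mul_assoc, E_one]
    have := (Op.dP (le_min (hg.1 0) hy)).mul_Li (Li.one.add (Li.ps (i := 1) le_rfl m))
    norm_num at this
    exact this
  | succ k ih =>
    obtain ⟨C, hC, H⟩ := BL1_E (k + 3)
    obtain ⟨C', hC', H'⟩ := ih
    refine ⟨C + C', by positivity, fun m h hm hh lam hg y hy => ?_⟩
    rw [A_split _ m lam y hg.1 hy, mul_add, add_mul, Finset.mul_sum]
    refine (H m hm).add ?_
    have h1 := Li.shift_sum (K := C' * (m : ℝ) ^ k) (by positivity)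
      (show min (lam 0) y ≤ m + h from (min_le_left _ _).trans (hg.2.1 0))
      (fun x => (1 - X) * A (k + 2) (Fin.tail lam) (x - 1))
      (fun x hx => H' m h hm hh _ hg.tail (x - 1) (by omega))
    have e : ∀ x ∈ Icc (m + 1) (min (lam 0) y), (1 - X) * (X ^ x * A (k + 2) (Fin.tail lam) (x - 1))
        = X ^ x * ((1 - X) * A (k + 2) (Fin.tail lam) (x - 1)) := fun x _ => by ring
    rw [Finset.sum_congr rfl e]
    refine h1.mono ?_
    have hh' : (h : ℝ) ≤ m := by exact_mod_cast hh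
    calc (h : ℝ) * (C' * (m : ℝ) ^ k) ≤ m * (C' * (m : ℝ) ^ k) :=
          mul_le_mul_of_nonneg_right hh' (by positivity)
      _ = C' * (m : ℝ) ^ (k + 1) := by ring

lemma bound2 (k : ℕ) : ∃ C : ℝ, 0 ≤ C ∧ ∀ m h : ℕ, 1 ≤ m → h ≤ m → ∀ lam : Fin (k + 3) → ℕ,
    Good m h (k + 2) lam → ∀ y, m ≤ y → Li ((1 - X) ^ 2 * A (k + 3) lam y) (C * (m : ℝ) ^ k) := by
  induction k with
  | zero =>
    obtain ⟨C, hC, H⟩ := BL2_E 3
    refine ⟨C + 12 + 8, by positivity, fun m h hm _ lam hg y hy => ?_⟩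
    have h1 := H m hm
    simp only [Nat.sub_self, pow_zero, mul_one] at h1
    rw [A_three lam (hg.1 0) (hg.1 1) hg.2.2 hy, mul_add, mul_add, pow_zero, mul_one]
    have hmin := le_min (hg.1 0) hy
    set t := min (lam 0) y with ht
    refine (h1.add ?_).add ?_
    · rw [E_two]
      have a1 := (Op.one_sub_X.mul (Op.dP hmin)).mul_Li Li.one
      have a2 := ((Op.dps m).mul (Op.dP hmin)).mul_Li Li.one
      have a3 := ((Op.dps m).mul (Op.dps m)).mul_Li (Li.P m t)
      have a4 := (Op.one_sub_X.mul (Op.dP hmin)).mul_Li (Li.ps (i := 2) (by norm_num) m)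
      have a5 := (a3.sub a4).smul (1/2)
      have a6 := (a1.add a2).add a5
      have e : (1 - X) ^ 2 * (P m t * (1 + ps 1 m + Polynomial.C (1/2) * (ps 1 m ^ 2 - ps 2 m)))
          = (1 - X) * ((1 - X) * P m t) * 1 + (1 - X) * ps 1 m * ((1 - X) * P m t) * 1
            + Polynomial.C (1/2) * ((1 - X) * ps 1 m * ((1 - X) * ps 1 m) * P m t
              - (1 - X) * ((1 - X) * P m t) * ps 2 m) := by
        ring
      rw [e]
      refine a6.mono ?_
      rw [abs_of_nonneg (by norm_num)]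
      norm_num
    · have b1 := (Op.one_sub_X.add (Op.dps m)).mul_Li (Li.dP2 (t := t) (hg.1 1))
      have e : (1 - X) ^ 2 * (P2 m (lam 1) t * E 1 m)
          = (1 - X + (1 - X) * ps 1 m) * ((1 - X) * P2 m (lam 1) t) := by
        rw [E_one]; ring
      rw [e]
      refine b1.mono ?_
      norm_num
  | succ k ih =>
    obtain ⟨C, hC, H⟩ := BL2_E (k + 4)
    obtain ⟨C', hC', H'⟩ := ih
    refine ⟨C + C', by positivity, fun m h hm hh lam hg y hy => ?_⟩
    rw [A_split _ m lam y hg.1 hy, mul_add, add_mul, Finset.mul_sum]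
    refine (H m hm).add ?_
    have h1 := Li.shift_sum (K := C' * (m : ℝ) ^ k) (by positivity)
      (show min (lam 0) y ≤ m + h from (min_le_left _ _).trans (hg.2.1 0))
      (fun x => (1 - X) ^ 2 * A (k + 3) (Fin.tail lam) (x - 1))
      (fun x hx => H' m h hm hh _ hg.tail (x - 1) (by omega))
    have e : ∀ x ∈ Icc (m + 1) (min (lam 0) y), (1 - X) ^ 2 * (X ^ x * A (k + 3) (Fin.tail lam) (x - 1))
        = X ^ x * ((1 - X) ^ 2 * A (k + 3) (Fin.tail lam) (x - 1)) := fun x _ => by ring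
    rw [Finset.sum_congr rfl e]
    refine h1.mono ?_
    have hh' : (h : ℝ) ≤ m := by exact_mod_cast hh
    calc (h : ℝ) * (C' * (m : ℝ) ^ k) ≤ m * (C' * (m : ℝ) ^ k) :=
          mul_le_mul_of_nonneg_right hh' (by positivity)
      _ = C' * (m : ℝ) ^ (k + 1) := by ring

/-- The error term for the `s`-th difference. -/
lemma error_decomp (b m : ℕ) (lam : Fin (b + 1) → ℕ) (y : ℕ) (h : ∀ i, m ≤ lam i) (hy : m ≤ y)
    (q : ℝ[X]) :
    (((b + 1).factorial : ℕ) : ℝ[X]) * (q * A (b + 1) lam y) - q * ps 1 m ^ (b + 1)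
      = q * R (b + 1) m + (C (((b + 1).factorial : ℕ) : ℝ)) * (q * E b m)
        + C (((b + 1).factorial : ℕ) : ℝ) *
          ∑ x ∈ Icc (m + 1) (min (lam 0) y), X ^ x * (q * A b (Fin.tail lam) (x - 1)) := by
  rw [A_split b m lam y h hy, R]
  have e : ∑ x ∈ Icc (m + 1) (min (lam 0) y), X ^ x * (q * A b (Fin.tail lam) (x - 1))
      = q * ∑ x ∈ Icc (m + 1) (min (lam 0) y), X ^ x * A b (Fin.tail lam) (x - 1) := by
    rw [Finset.mul_sum]
    exact Finset.sum_congr rfl fun x _ => by ring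
  have e2 : E (b + 1) m = E b m + B (b + 1) m := by
    unfold E
    rw [Finset.sum_range_succ]
  rw [e, e2, Polynomial.C_eq_natCast]
  ring

theorem error1 (k : ℕ) : ∃ C : ℝ, 0 ≤ C ∧ ∀ m h : ℕ, 1 ≤ m → h ≤ m → ∀ lam : Fin (k + 3) → ℕ,
    Good m h (k + 2) lam → ∀ y, m ≤ y →
    Li ((((k + 3).factorial : ℕ) : ℝ[X]) * ((1 - X) * A (k + 3) lam y) - (1 - X) * ps 1 m ^ (k + 3))
      (C * (1 + h) * (m : ℝ) ^ k) := by
  obtain ⟨C1, hC1, H1⟩ := BL1_R (k + 3)
  obtain ⟨C2, hC2, H2⟩ := (BL1_E (k + 2)).smul (((k + 3).factorial : ℕ) : ℝ)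
  obtain ⟨C3, hC3, H3⟩ := bound1 k
  refine ⟨C1 + C2 + ((k + 3).factorial : ℕ) * C3, by positivity, fun m h hm hh lam hg y hy => ?_⟩
  rw [error_decomp (k + 2) m lam y hg.1 hy]
  have h1 := H1 m hm
  have h2 := H2 m hm
  have h3 := (Li.shift_sum (K := C3 * (m : ℝ) ^ k) (by positivity)
      (show min (lam 0) y ≤ m + h from (min_le_left _ _).trans (hg.2.1 0))
      (fun x => (1 - X) * A (k + 2) (Fin.tail lam) (x - 1))
      (fun x hx => H3 m h hm hh _ hg.tail (x - 1) (by omega))).smul (((k + 3).factorial : ℕ) : ℝ)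
  refine ((h1.add h2).add h3).mono ?_
  rw [abs_of_nonneg (by positivity)]
  have hh0 : (0 : ℝ) ≤ h := by positivity
  have hmk : (0 : ℝ) ≤ (m : ℝ) ^ k := by positivity
  simp only [Nat.add_sub_cancel]
  have : 0 ≤ (C1 + C2) * (h : ℝ) * (m : ℝ) ^ k := by positivity
  have : 0 ≤ ((k + 3).factorial : ℕ) * C3 * (m : ℝ) ^ k := by positivity
  nlinarith

theorem error2 (k : ℕ) : ∃ C : ℝ, 0 ≤ C ∧ ∀ m h : ℕ, 1 ≤ m → h ≤ m → ∀ lam : Fin (k + 5) → ℕ,
    Good m h (k + 4) lam → ∀ y, m ≤ y →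
    Li ((((k + 5).factorial : ℕ) : ℝ[X]) * ((1 - X) ^ 2 * A (k + 5) lam y) - (1 - X) ^ 2 * ps 1 m ^ (k + 5))
      (C * (1 + h) * (m : ℝ) ^ (k + 1)) := by
  obtain ⟨C1, hC1, H1⟩ := BL2_R (d := k + 5) (by omega)
  obtain ⟨C2, hC2, H2⟩ := (BL2_E (k + 4)).smul (((k + 5).factorial : ℕ) : ℝ)
  obtain ⟨C3, hC3, H3⟩ := bound2 (k + 1)
  refine ⟨C1 + C2 + ((k + 5).factorial : ℕ) * C3, by positivity, fun m h hm hh lam hg y hy => ?_⟩
  rw [error_decomp (k + 4) m lam y hg.1 hy]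
  have h1 := H1 m hm
  have h2 := H2 m hm
  have h3 := (Li.shift_sum (K := C3 * (m : ℝ) ^ (k + 1)) (by positivity)
      (show min (lam 0) y ≤ m + h from (min_le_left _ _).trans (hg.2.1 0))
      (fun x => (1 - X) ^ 2 * A (k + 4) (Fin.tail lam) (x - 1))
      (fun x hx => H3 m h hm hh _ hg.tail (x - 1) (by omega))).smul (((k + 5).factorial : ℕ) : ℝ)
  refine ((h1.add h2).add h3).mono ?_
  rw [abs_of_nonneg (by positivity)]
  have hh0 : (0 : ℝ) ≤ h := by positivity
  have hmk : (0 : ℝ) ≤ (m : ℝ) ^ (k + 1) := by positivity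
  rw [show k + 5 - 4 = k + 1 by omega, show k + 4 - 3 = k + 1 by omega]
  have : 0 ≤ (C1 + C2) * (h : ℝ) * (m : ℝ) ^ (k + 1) := by positivity
  have : 0 ≤ ((k + 5).factorial : ℕ) * C3 * (m : ℝ) ^ (k + 1) := by positivity
  nlinarith

end Pool.Agent.H56.U71
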