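import Mathlib
import Pool.Agent.H56.U71Gen

/-!
Helper file for MP_71be06_co: the definition of `F_lam`, its identification with the
generating function `A`, and the monotonicity at both ends.
-/

namespace Pool.Agent.H56.U71

open Finset

/-- The partitions `μ ⊆ lam` (written as weakly decreasing functions on `Fin b`, padded by zeros)
whose nonzero parts are pairwise distinct. -/
noncomputable def strictSub {b : ℕ} (lam : Fin b → ℕ) : Finset (Fin b → ℕ) := by
  classical
  exact (Fintype.piFinset fun i => Finset.range (lam i + 1)).filter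
    (fun μ => Antitone μ ∧ ∀ i j, i ≠ j → μ i ≠ 0 → μ i ≠ μ j)

lemma mem_strictSub {b : ℕ} {lam μ : Fin b → ℕ} :
    μ ∈ strictSub lam ↔ (∀ i, μ i ≤ lam i) ∧ Antitone μ ∧ ∀ i j, i ≠ j → μ i ≠ 0 → μ i ≠ μ j := by
  classical
  unfold strictSub
  simp only [Finset.mem_filter, Fintype.mem_piFinset, Finset.mem_range, Nat.lt_succ_iff]

/-- The polynomial `F_lam(q)`. -/
noncomputable def F {b : ℕ} (lam : Fin b → ℕ) : Polynomial ℕ :=
  ∑ μ ∈ strictSub lam, Polynomial.X ^ (∑ i, μ i)

lemma coeff_F {b : ℕ} (lam : Fin b → ℕ) (n : ℕ) :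
    (F lam).coeff n = #{μ ∈ strictSub lam | ∑ i, μ i = n} := by
  unfold F
  rw [Polynomial.finsetSum_coeff]
  simp only [Polynomial.coeff_X_pow]
  rw [Finset.sum_boole]
  simp only [Nat.cast_id]
  congr 1
  ext μ
  simp only [Finset.mem_filter]
  constructor
  · rintro ⟨h1, h2⟩; exact ⟨h1, h2.symm⟩
  · rintro ⟨h1, h2⟩; exact ⟨h1, h2.symm⟩

/-- as `strictSub`, with parts bounded by `y` -/
noncomputable def V {b : ℕ} (lam : Fin b → ℕ) (y : ℕ) : Finset (Fin b → ℕ) :=
  (strictSub lam).filter (fun μ => ∀ i, μ i ≤ y)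

lemma mem_V {b : ℕ} {lam μ : Fin b → ℕ} {y : ℕ} :
    μ ∈ V lam y ↔ (∀ i, μ i ≤ lam i) ∧ (Antitone μ ∧ ∀ i j, i ≠ j → μ i ≠ 0 → μ i ≠ μ j) ∧
      ∀ i, μ i ≤ y := by
  unfold V
  rw [Finset.mem_filter, mem_strictSub]
  tauto

lemma cons_mem {k : ℕ} {lam : Fin (k + 1) → ℕ} {y x : ℕ} {ν : Fin k → ℕ} (hx1 : 1 ≤ x)
    (hx2 : x ≤ min (lam 0) y) (hν : ν ∈ V (Fin.tail lam) (x - 1)) :
    (Fin.cons x ν : Fin (k + 1) → ℕ) ∈ V lam y := by
  rw [mem_V] at hν ⊢
  obtain ⟨h1, ⟨h2, h3⟩, h4⟩ := hν
  have hxl : x ≤ lam 0 := hx2.trans (min_le_left _ _)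
  have hxy : x ≤ y := hx2.trans (min_le_right _ _)
  refine ⟨?_, ⟨?_, ?_⟩, ?_⟩
  · intro i
    refine Fin.cases ?_ (fun j => ?_) i
    · simpa using hxl
    · simpa [Fin.tail] using h1 j
  · intro i j hij
    revert hij
    refine Fin.cases ?_ (fun i' => ?_) i
    · refine Fin.cases ?_ (fun j' => ?_) j
      · intro _; exact le_rfl
      · intro _
        simp only [Fin.cons_zero, Fin.cons_succ]
        have := h4 j'
        omega
    · refine Fin.cases ?_ (fun j' => ?_) j
      · intro h
        exact absurd h (by simp)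
      · intro h
        simp only [Fin.cons_succ]
        exact h2 (by simpa using h)
  · intro i j
    refine Fin.cases ?_ (fun i' => ?_) i
    · refine Fin.cases ?_ (fun j' => ?_) j
      · intro h; exact absurd rfl h
      · intro _ _
        simp only [Fin.cons_zero, Fin.cons_succ]
        have := h4 j'
        omega
    · refine Fin.cases ?_ (fun j' => ?_) j
      · intro _ _
        simp only [Fin.cons_zero, Fin.cons_succ]
        have := h4 i'
        omega
      · intro h h'
        simp only [Fin.cons_succ] at h' ⊢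
        exact h3 i' j' (fun e => h (by rw [e])) h'
  · intro i
    refine Fin.cases ?_ (fun j => ?_) i
    · simpa using hxy
    · simp only [Fin.cons_succ]
      have := h4 j
      omega

lemma tail_mem {k : ℕ} {lam : Fin (k + 1) → ℕ} {y : ℕ} {μ : Fin (k + 1) → ℕ} (hμ : μ ∈ V lam y)
    (h0 : μ 0 ≠ 0) : 1 ≤ μ 0 ∧ μ 0 ≤ min (lam 0) y ∧ Fin.tail μ ∈ V (Fin.tail lam) (μ 0 - 1) := by
  rw [mem_V] at hμ
  obtain ⟨h1, ⟨h2, h3⟩, h4⟩ := hμ
  refine ⟨by omega, le_min (h1 0) (h4 0), ?_⟩
  rw [mem_V]
  refine ⟨fun i => h1 _, ⟨fun i j hij => h2 (by simpa using hij), fun i j hij hi => ?_⟩, fun i => ?_⟩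
  · exact h3 i.succ j.succ (fun e => hij (Fin.succ_injective _ e)) hi
  · have a := h2 (Fin.zero_le i.succ)
    have b := h3 0 i.succ (Fin.succ_ne_zero i).symm h0
    show μ i.succ ≤ μ 0 - 1
    omega

lemma eq_zero_of_zero {k : ℕ} {lam : Fin (k + 1) → ℕ} {y : ℕ} {μ : Fin (k + 1) → ℕ} (hμ : μ ∈ V lam y)
    (h0 : μ 0 = 0) : μ = 0 := by
  rw [mem_V] at hμ
  funext i
  have := hμ.2.1.1 (Fin.zero_le i)
  rw [h0] at this
  simpa using this

lemma zero_mem_V {k : ℕ} (lam : Fin k → ℕ) (y : ℕ) : (0 : Fin k → ℕ) ∈ V lam y := by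
  rw [mem_V]
  refine ⟨fun i => Nat.zero_le _, ⟨fun i j _ => le_rfl, fun i j _ h => absurd rfl h⟩, fun i => Nat.zero_le _⟩

open Polynomial in
lemma A_eq (k : ℕ) (lam : Fin k → ℕ) (y : ℕ) :
    A k lam y = ∑ μ ∈ V lam y, (X : ℝ[X]) ^ (∑ i, μ i) := by
  induction k generalizing y with
  | zero =>
    have : V lam y = {0} := by
      ext μ
      rw [Finset.mem_singleton]
      constructor
      · intro _; exact Subsingleton.elim _ _
      · rintro rfl; exact zero_mem_V _ _
    rw [this]
    simp [A]
  | succ k ih =>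
    rw [A_succ]
    rw [← Finset.add_sum_erase _ _ (zero_mem_V lam y)]
    congr 1
    · simp
    · have e : ∀ x ∈ Icc 1 (min (lam 0) y), (X : ℝ[X]) ^ x * A k (Fin.tail lam) (x - 1)
          = ∑ ν ∈ V (Fin.tail lam) (x - 1), (X : ℝ[X]) ^ (x + ∑ i, ν i) := by
        intro x _
        rw [ih, Finset.mul_sum]
        exact Finset.sum_congr rfl fun ν _ => by rw [pow_add]
      rw [Finset.sum_congr rfl e, Finset.sum_sigma']
      refine Finset.sum_bij' (fun p _ => (Fin.cons p.1 p.2 : Fin (k + 1) → ℕ))
        (fun μ _ => ⟨μ 0, Fin.tail μ⟩) ?_ ?_ ?_ ?_ ?_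
      · rintro ⟨x, ν⟩ h
        rw [Finset.mem_sigma, Finset.mem_Icc] at h
        simp only at h
        rw [Finset.mem_erase]
        refine ⟨?_, cons_mem h.1.1 h.1.2 h.2⟩
        intro h'
        have := congrFun h' 0
        simp at this
        omega
      · intro μ hμ
        rw [Finset.mem_erase] at hμ
        rw [Finset.mem_sigma, Finset.mem_Icc]
        have h0 : μ 0 ≠ 0 := fun h => hμ.1 (eq_zero_of_zero hμ.2 h)
        obtain ⟨a, b, c⟩ := tail_mem hμ.2 h0
        exact ⟨⟨a, b⟩, c⟩
      · rintro ⟨x, ν⟩ _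
        simp
      · intro μ _
        simp
      · rintro ⟨x, ν⟩ _
        rw [Fin.sum_univ_succ]
        simp

lemma V_eq {k : ℕ} (lam : Fin (k + 1) → ℕ) : V lam (lam 0) = strictSub lam := by
  unfold V
  rw [Finset.filter_true_of_mem]
  intro μ hμ i
  rw [mem_strictSub] at hμ
  exact (hμ.2.1 (Fin.zero_le i)).trans (hμ.1 0)

lemma coeff_A {k : ℕ} (lam : Fin (k + 1) → ℕ) (n : ℕ) :
    (A (k + 1) lam (lam 0)).coeff n = ((F lam).coeff n : ℝ) := by
  rw [A_eq, V_eq, coeff_F, Polynomial.finsetSum_coeff]
  simp only [Polynomial.coeff_X_pow]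
  rw [Finset.sum_boole]
  congr 2
  ext μ
  simp only [Finset.mem_filter]
  constructor
  · rintro ⟨h1, h2⟩; exact ⟨h1, h2.symm⟩
  · rintro ⟨h1, h2⟩; exact ⟨h1, h2.symm⟩

/-- monotone at the beginning -/
lemma coeff_mono_start {k : ℕ} (lam : Fin (k + 1) → ℕ) {n : ℕ} (hn : n + 1 ≤ lam 0) :
    (F lam).coeff n ≤ (F lam).coeff (n + 1) := by
  classical
  rw [coeff_F, coeff_F]
  refine Finset.card_le_card_of_injOn (fun μ => Function.update μ 0 (μ 0 + 1)) ?_ ?_
  · intro μ hμ
    simp only [Finset.coe_filter, Set.mem_ofPred_eq] at hμ ⊢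
    obtain ⟨hμ, hs⟩ := hμ
    rw [mem_strictSub] at hμ ⊢
    obtain ⟨h1, h2, h3⟩ := hμ
    have hs0 : μ 0 ≤ n := by
      rw [← hs]
      exact Finset.single_le_sum (f := fun i => μ i) (fun i _ => Nat.zero_le _) (Finset.mem_univ 0)
    refine ⟨⟨?_, ?_, ?_⟩, ?_⟩
    · intro i
      by_cases hi : i = 0
      · subst hi; simp; omega
      · simp [Function.update_of_ne hi]; exact h1 i
    · intro i j hij
      by_cases hi : i = 0
      · subst hi
        by_cases hj : j = 0
        · subst hj; exact le_rfl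
        · rw [Function.update_of_ne hj, Function.update_self]
          exact (h2 hij).trans (Nat.le_succ _)
      · have hj : j ≠ 0 := by
          rintro rfl
          exact hi (Fin.le_zero_iff.mp hij)
        rw [Function.update_of_ne hj, Function.update_of_ne hi]
        exact h2 hij
    · intro i j hij hi
      by_cases h0 : i = 0
      · subst h0
        have hj : j ≠ 0 := fun h => hij h.symm
        rw [Function.update_of_ne hj, Function.update_self]
        have := h2 (Fin.zero_le j)
        omega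
      · rw [Function.update_of_ne h0] at hi ⊢
        by_cases hj : j = 0
        · subst hj
          rw [Function.update_self]
          have := h2 (Fin.zero_le i)
          omega
        · rw [Function.update_of_ne hj]
          exact h3 i j hij hi
    · rw [Finset.sum_update_of_mem (Finset.mem_univ _)]
      rw [← hs, ← Finset.add_sum_erase _ _ (Finset.mem_univ (0 : Fin (k + 1))),
        Finset.sdiff_singleton_eq_erase]
      ring
  · intro μ _ ν _ h
    simp only at h
    funext i
    have := congrFun h i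
    by_cases hi : i = 0
    · subst hi
      simpa using this
    · simpa [Function.update_of_ne hi] using this

/-- antitone at the end -/
lemma coeff_anti_end {k : ℕ} (lam : Fin (k + 1) → ℕ) {n : ℕ}
    (hn : ∑ i, lam i ≤ n + lam (Fin.last k)) :
    (F lam).coeff (n + 1) ≤ (F lam).coeff n := by
  classical
  rw [coeff_F, coeff_F]
  refine Finset.card_le_card_of_injOn (fun μ => Function.update μ (Fin.last k) (μ (Fin.last k) - 1)) ?_ ?_
  · intro μ hμ
    simp only [Finset.coe_filter, Set.mem_ofPred_eq] at hμ ⊢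
    obtain ⟨hμ, hs⟩ := hμ
    have hμ' := hμ
    rw [mem_strictSub] at hμ ⊢
    obtain ⟨h1, h2, h3⟩ := hμ
    have hpos : 1 ≤ μ (Fin.last k) := by
      by_contra hcon
      have h0 : μ (Fin.last k) = 0 := by omega
      rw [← Finset.add_sum_erase _ _ (Finset.mem_univ (Fin.last k)), h0, zero_add] at hs
      rw [← Finset.add_sum_erase _ _ (Finset.mem_univ (Fin.last k))] at hn
      have : ∑ i ∈ univ.erase (Fin.last k), μ i ≤ ∑ i ∈ univ.erase (Fin.last k), lam i :=
        Finset.sum_le_sum fun i _ => h1 i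
      omega
    refine ⟨⟨?_, ?_, ?_⟩, ?_⟩
    · intro i
      by_cases hi : i = Fin.last k
      · subst hi; simp; have := h1 (Fin.last k); omega
      · simp [Function.update_of_ne hi]; exact h1 i
    · intro i j hij
      by_cases hj : j = Fin.last k
      · subst hj
        by_cases hi : i = Fin.last k
        · subst hi; exact le_rfl
        · rw [Function.update_of_ne hi, Function.update_self]
          have := h2 hij
          omega
      · have hi : i ≠ Fin.last k := by
          rintro rfl
          exact hj (Fin.last_le_iff.mp hij)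
        rw [Function.update_of_ne hj, Function.update_of_ne hi]
        exact h2 hij
    · intro i j hij hi
      by_cases h0 : i = Fin.last k
      · subst h0
        have hj : j ≠ Fin.last k := fun h => hij h.symm
        rw [Function.update_of_ne hj, Function.update_self]
        have := h2 (Fin.le_last j)
        omega
      · rw [Function.update_of_ne h0] at hi ⊢
        by_cases hj : j = Fin.last k
        · subst hj
          rw [Function.update_self]
          have := h2 (Fin.le_last i)
          omega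
        · rw [Function.update_of_ne hj]
          exact h3 i j hij hi
    · rw [Finset.sum_update_of_mem (Finset.mem_univ _)]
      rw [← Finset.add_sum_erase _ _ (Finset.mem_univ (Fin.last k))] at hs
      rw [Finset.sdiff_singleton_eq_erase]
      omega
  · intro μ hμ ν hν h
    simp only [Finset.coe_filter, Set.mem_ofPred_eq] at hμ hν h
    have pos : ∀ ρ : Fin (k + 1) → ℕ, (ρ ∈ strictSub lam ∧ ∑ i, ρ i = n + 1) → 1 ≤ ρ (Fin.last k) := by
      rintro ρ ⟨hρ, hs⟩
      rw [mem_strictSub] at hρ
      obtain ⟨h1, h2, h3⟩ := hρ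
      by_contra hcon
      have h0 : ρ (Fin.last k) = 0 := by omega
      rw [← Finset.add_sum_erase _ _ (Finset.mem_univ (Fin.last k)), h0, zero_add] at hs
      rw [← Finset.add_sum_erase _ _ (Finset.mem_univ (Fin.last k))] at hn
      have : ∑ i ∈ univ.erase (Fin.last k), ρ i ≤ ∑ i ∈ univ.erase (Fin.last k), lam i :=
        Finset.sum_le_sum fun i _ => h1 i
      omega
    have p1 := pos μ hμ
    have p2 := pos ν hν
    funext i
    have := congrFun h i
    by_cases hi : i = Fin.last k
    · subst hi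
      simp only [Function.update_self] at this
      omega
    · simpa [Function.update_of_ne hi] using this

end Pool.Agent.H56.U71
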